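import Mathlib
import Pool.Agent.H922R2.R15

set_option autoImplicit false
set_option linter.unusedSectionVars false
set_option linter.style.haveILetI false

open MvPolynomial

namespace Pool.Agent.Y235.JC

open Pool.Agent.H922R2 (IsDer)
open Pool.Agent.H922R2.R
open Pool.Agent.Helper165.P1 (HQ Pui)

section rep

variable {k : Type*} [Field k] [CharZero k] [IsAlgClosed k] {u : MvPolynomial (Fin 2) k}
variable {L : Type*} [Field L] [Algebra (MvPolynomial (Fin 2) k) L] [IsFractionRing (MvPolynomial (Fin 2) k) L]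
  [Algebra k L] [IsScalarTower k (MvPolynomial (Fin 2) k) L]

/-- `v` is a rational function of `u` and `T`. -/
def GenV (u v : MvPolynomial (Fin 2) k) (T : L) : Prop :=
  algebraMap (MvPolynomial (Fin 2) k) L v ∈
    IntermediateField.adjoin k {algebraMap (MvPolynomial (Fin 2) k) L u, T}

theorem rep_mem {T : L} (hu : Function.Injective (uP u)) (f : L)
    (hf : f ∈ IntermediateField.adjoin k {algebraMap (MvPolynomial (Fin 2) k) L u, T}) :
    ∃ P Q : Polynomial (KK k), Q.eval₂ (kap L hu) T ≠ 0 ∧ f * Q.eval₂ (kap L hu) T = P.eval₂ (kap L hu) T := by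
  induction hf using IntermediateField.adjoin_induction with
  | mem x hx =>
    rcases hx with rfl | rfl
    · refine ⟨Polynomial.C (algebraMap (Polynomial k) (KK k) Polynomial.X), 1, by simp, ?_⟩
      rw [Polynomial.eval₂_C, kap_algebraMap, uP_X]; simp
    · exact ⟨Polynomial.X, 1, by simp, by simp⟩
  | algebraMap x =>
    refine ⟨Polynomial.C (algebraMap (Polynomial k) (KK k) (Polynomial.C x)), 1, by simp, ?_⟩
    rw [Polynomial.eval₂_C, kap_algebraMap, uP_C, ← MvPolynomial.algebraMap_eq, ← IsScalarTower.algebraMap_apply]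
    simp
  | add x y _ _ hx hy =>
    obtain ⟨P1, Q1, h1, h1'⟩ := hx
    obtain ⟨P2, Q2, h2, h2'⟩ := hy
    refine ⟨P1 * Q2 + P2 * Q1, Q1 * Q2, ?_, ?_⟩
    · rw [Polynomial.eval₂_mul]; exact mul_ne_zero h1 h2
    · rw [Polynomial.eval₂_mul, Polynomial.eval₂_add, Polynomial.eval₂_mul, Polynomial.eval₂_mul, ← h1', ← h2']
      ring
  | inv x _ hx =>
    obtain ⟨P1, Q1, h1, h1'⟩ := hx
    by_cases hx0 : x = 0
    · exact ⟨0, 1, by simp, by rw [hx0]; simp⟩
    · refine ⟨Q1, P1, ?_, ?_⟩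
      · rw [← h1']; exact mul_ne_zero hx0 h1
      · rw [← h1', ← mul_assoc, inv_mul_cancel₀ hx0, one_mul]
  | mul x y _ _ hx hy =>
    obtain ⟨P1, Q1, h1, h1'⟩ := hx
    obtain ⟨P2, Q2, h2, h2'⟩ := hy
    refine ⟨P1 * P2, Q1 * Q2, ?_, ?_⟩
    · rw [Polynomial.eval₂_mul]; exact mul_ne_zero h1 h2
    · rw [Polynomial.eval₂_mul, Polynomial.eval₂_mul, ← h1', ← h2']
      ring

theorem rep_mem' {T : L} (hu : Function.Injective (uP u)) (f : L)
    (hf : f ∈ IntermediateField.adjoin k {algebraMap (MvPolynomial (Fin 2) k) L u, T}) :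
    ∃ P Q : Polynomial (KK k), IsCoprime P Q ∧ Q.eval₂ (kap L hu) T ≠ 0 ∧
      f * Q.eval₂ (kap L hu) T = P.eval₂ (kap L hu) T := by
  classical
  obtain ⟨P, Q, h1, h2⟩ := rep_mem hu f hf
  have hQ : Q ≠ 0 := by rintro rfl; simp at h1
  obtain ⟨P', hP'⟩ := EuclideanDomain.gcd_dvd_left P Q
  obtain ⟨Q', hQ'⟩ := EuclideanDomain.gcd_dvd_right P Q
  set D := EuclideanDomain.gcd P Q with hD
  have hD0 : D ≠ 0 := by
    intro h; rw [h, zero_mul] at hQ'; exact hQ hQ'
  have hcop : IsCoprime P' Q' := by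
    have h3 := EuclideanDomain.gcd_eq_gcd_ab P Q
    rw [← hD] at h3
    refine ⟨EuclideanDomain.gcdA P Q, EuclideanDomain.gcdB P Q, ?_⟩
    apply mul_left_cancel₀ hD0
    linear_combination (-1 : Polynomial (KK k)) * h3 - EuclideanDomain.gcdA P Q * hP' - EuclideanDomain.gcdB P Q * hQ'
  refine ⟨P', Q', hcop, ?_, ?_⟩
  · intro h
    apply h1
    rw [hQ', Polynomial.eval₂_mul, h, mul_zero]
  · have hDT : D.eval₂ (kap L hu) T ≠ 0 := by
      intro h
      apply h1
      rw [hQ', Polynomial.eval₂_mul, h, zero_mul]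
    apply mul_left_cancel₀ hDT
    rw [hP', hQ', Polynomial.eval₂_mul, Polynomial.eval₂_mul] at h2
    linear_combination h2

/-- a second element playing the role of `v` -/
theorem GenV.of_Jb (g : GP u) {v w : MvPolynomial (Fin 2) k} {T : L} (hT : GenV u v T)
    (hv : Jb u v = 1) (hw : Jb u w = 1) : GenV u w T := by
  obtain ⟨s, hs⟩ := g.ker (w - v) (by rw [Jb_sub, hv, hw, sub_self])
  have h1 : w = v + uP u s := by rw [← hs]; ring
  have hu := g.uP_inj
  rw [GenV, h1, map_add]
  apply add_mem hT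
  rw [← kap_algebraMap hu]
  exact kap_mem hu _ (IntermediateField.subset_adjoin _ _ (Set.mem_insert _ _)) _

theorem GenV.of_mem {v : MvPolynomial (Fin 2) k} {T T' : L} (hT : GenV u v T)
    (h : T ∈ IntermediateField.adjoin k {algebraMap (MvPolynomial (Fin 2) k) L u, T'}) : GenV u v T' := by
  rw [GenV] at hT ⊢
  have hle : IntermediateField.adjoin k {algebraMap (MvPolynomial (Fin 2) k) L u, T} ≤
      IntermediateField.adjoin k {algebraMap (MvPolynomial (Fin 2) k) L u, T'} := by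
    rw [IntermediateField.adjoin_le_iff]
    rintro z hz
    rcases hz with rfl | rfl
    · exact IntermediateField.subset_adjoin _ _ (Set.mem_insert _ _)
    · exact h
  exact hle hT

theorem GenV.inv {v : MvPolynomial (Fin 2) k} {T : L} (hT : GenV u v T) : GenV u v T⁻¹ := by
  apply hT.of_mem
  rw [← inv_inv T]
  apply inv_mem
  rw [inv_inv]
  exact IntermediateField.subset_adjoin _ _ (Set.mem_insert_of_mem _ rfl)

theorem GenV.sub {v : MvPolynomial (Fin 2) k} {T : L} (hT : GenV u v T) (hu : Function.Injective (uP u))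
    (β : KK k) : GenV u v (T - kap L hu β) := by
  apply hT.of_mem
  have : T = (T - kap L hu β) + kap L hu β := by ring
  rw [this]
  apply add_mem
  · rw [sub_add_cancel]
    exact IntermediateField.subset_adjoin _ _ (Set.mem_insert_of_mem _ rfl)
  · apply kap_mem
    exact IntermediateField.subset_adjoin _ _ (Set.mem_insert _ _)

theorem gv_ne (g : GP u) : (algebraMap (MvPolynomial (Fin 2) k) L) g.v ≠ 0 := by
  rw [Ne, map_eq_zero_iff _ (IsFractionRing.injective (MvPolynomial (Fin 2) k) L)]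
  intro h0
  have := g.hJ
  rw [h0] at this
  simp [Jb] at this

/-- the order of `v` at a good place -/
theorem v_order (g : GP u) : (g.j L ((algebraMap (MvPolynomial (Fin 2) k) L) g.v)).order = -g.b := by
  rw [g.j_order, (g.lc_v1 g).1]

/-- the denominator is vertical -/
theorem vertF_den' (g : GP u) (v : MvPolynomial (Fin 2) k) (hJ : Jb u v = 1) (T : L) (hT : GenV u v T)
    (hord : (g.j L T).order < 0)
    (n d : MvPolynomial (Fin 2) k) (hd : d ≠ 0) (hTd : T * (algebraMap (MvPolynomial (Fin 2) k) L) d = (algebraMap (MvPolynomial (Fin 2) k) L) n) (hrel : IsRelPrime n d) :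
    VertF u d := by
  have hu := g.uP_inj
  have hinj : Function.Injective ((algebraMap (MvPolynomial (Fin 2) k) L)) := IsFractionRing.injective (MvPolynomial (Fin 2) k) L
  obtain ⟨P, Q, _, hQT, hPQ⟩ := rep_mem' hu _ (hT.of_Jb g hJ g.hJ)
  have hQ0 : Q ≠ 0 := by rintro rfl; simp at hQT
  have hx0 : (algebraMap (MvPolynomial (Fin 2) k) L) g.v ≠ 0 := gv_ne g
  have hP0 : P ≠ 0 := by
    rintro rfl
    rw [Polynomial.eval₂_zero] at hPQ
    exact mul_ne_zero hx0 hQT hPQ
  have h1 := g.ord_P hu T hord P hP0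
  have h2 := g.ord_P hu T hord Q hQ0
  have hlt : Q.natDegree < P.natDegree := by
    have h3 := congrArg (fun z => (g.j L z).order) hPQ
    simp only [map_mul] at h3
    have hj0 : ∀ z : L, z ≠ 0 → g.j L z ≠ 0 := fun z hz => by
      rw [Ne, map_eq_zero_iff _ g.j_inj]; exact hz
    rw [HahnSeries.order_mul (hj0 _ hx0) (hj0 _ hQT), v_order g, h1.1, h2.1] at h3
    by_contra hcon
    push Not at hcon
    have h4 : (P.natDegree : ℚ) ≤ Q.natDegree := by exact_mod_cast hcon
    have := g.hb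
    nlinarith
  obtain ⟨b1, P', hb1, hP'd, hP'0, hP'e⟩ := clearD (L := L) hu P hP0
  obtain ⟨b2, Q', hb2, hQ'd, hQ'0, hQ'e⟩ := clearD (L := L) hu Q hQ0
  set N := P.natDegree with hN
  have hPd : (P'.map (uP u)).natDegree ≤ N := by
    rw [Polynomial.natDegree_map_eq_of_injective hu, hP'd]
  have hQd : (Q'.map (uP u)).natDegree ≤ N := by
    rw [Polynomial.natDegree_map_eq_of_injective hu, hQ'd]; exact hlt.le
  have e1 := homog T n d hTd _ N hPd
  have e2 := homog T n d hTd _ N hQd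
  obtain ⟨G1, hG1⟩ := homog_split n d (P'.map (uP u)) N
  obtain ⟨G2, hG2⟩ := homog_split n d (Q'.map (uP u)) N
  rw [hG1] at e1
  rw [hG2] at e2
  have hQc : (Q'.map (uP u)).coeff N = 0 := by
    apply Polynomial.coeff_eq_zero_of_natDegree_lt
    rw [Polynomial.natDegree_map_eq_of_injective hu, hQ'd]; exact hlt
  have hPc : (P'.map (uP u)).coeff N = uP u P'.leadingCoeff := by
    rw [Polynomial.coeff_map, Polynomial.leadingCoeff, hP'd]
  rw [hQc, zero_mul, zero_add] at e2
  rw [hPc] at e1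
  have key : g.v * uP u b1 * (d * G2) = uP u b2 * (uP u P'.leadingCoeff * n ^ N + d * G1) := by
    apply hinj
    rw [map_mul, map_mul, map_mul ((algebraMap (MvPolynomial (Fin 2) k) L)) (uP u b2), ← e1, ← e2, ← hP'e, ← hQ'e, ← hPQ]
    ring
  refine ⟨hd, fun π hπ hπd => ?_⟩
  have hπn : ¬ π ∣ n := fun h => hπ.not_isUnit (hrel h hπd)
  have h5 : π ∣ uP u (b2 * P'.leadingCoeff) * n ^ N := by
    obtain ⟨d', hd'⟩ := hπd
    refine ⟨g.v * uP u b1 * (d' * G2) - uP u b2 * (d' * G1), ?_⟩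
    rw [map_mul]
    rw [hd'] at key
    linear_combination -key
  rcases hπ.dvd_or_dvd h5 with h6 | h6
  · exact (vertF_uP hu (b2 * P'.leadingCoeff) (mul_ne_zero hb2 (Polynomial.leadingCoeff_ne_zero.2 hP'0))).2 π hπ h6
  · exact absurd (hπ.dvd_of_dvd_pow h6) hπn

/-- the derivative of `T` is a unit of the localised ring -/
theorem exists_W' (g : GP u) (T h : L) (hTA : AKm u T) (hh : g.IsD T h)
    (v : MvPolynomial (Fin 2) k) (hJ : Jb u v = 1) (hT : GenV u v T) : ∃ W : L, AKm u W ∧ h * W = 1 := by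
  have hu := g.uP_inj
  obtain ⟨P, Q, ⟨A1, B1, hcop⟩, _, hPQ⟩ := rep_mem' hu _ hT
  have hid := g.der_identity hu T h hh v hJ P Q hPQ
  refine ⟨_, ?_, unit_of hu T h v P Q A1 B1 hcop hPQ hid⟩
  exact ((hTA.eval hu _).sub ((AKm.alg v).mul (hTA.eval hu _))).mul
    (((hTA.eval hu _).mul (AKm.alg v)).add (hTA.eval hu _))

/-- Step 6 -/
theorem step6' (v : MvPolynomial (Fin 2) k) (hJ : Jb u v = 1) (hm : MonY u) (T : L) (hT : GenV u v T)
    (n d : MvPolynomial (Fin 2) k) (hn : VertF u n) (hd : VertF u d) (hTd : T * (algebraMap (MvPolynomial (Fin 2) k) L) d = (algebraMap (MvPolynomial (Fin 2) k) L) n)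
    (hne : ∀ g : GP u, (g.j L T).order ≠ 0) (g0 : GP u) : False := by
  have hinj : Function.Injective ((algebraMap (MvPolynomial (Fin 2) k) L)) := IsFractionRing.injective (MvPolynomial (Fin 2) k) L
  obtain ⟨hn', hhn⟩ := vert_log u v hJ n hn
  obtain ⟨hd', hhd⟩ := vert_log u v hJ d hd
  set H := hn' - hd' with hH
  have hisD : g0.IsD T (T * (algebraMap (MvPolynomial (Fin 2) k) L) H) := by
    apply g0.isD_frac T n d hd' hd.1 hTd hhd
    rw [mul_right_comm, hTd, ← map_mul, hhn, hH]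
    congr 1; ring
  obtain ⟨W, hW, hW1⟩ := exists_W' g0 T (T * (algebraMap (MvPolynomial (Fin 2) k) L) H) ⟨d, n, hd, hTd⟩ hisD v hJ hT
  have hvH : VertF u H := by
    apply VertF.of_unit (VertF.one u) ((show AKm u T from ⟨d, n, hd, hTd⟩).mul hW)
    rw [map_one, ← hW1]; ring
  have hlog : ∀ g : GP u, Lb g.b (g.ι H) ∧ (g.ι H).coeff g.b * Polynomial.C (-(g.b : k) * g.β) =
      Polynomial.C (((g.j L T).order : ℚ) : k) := by
    intro g
    have h1 := g.log n hn' hn.1 hhn
    have h2 := g.log d hd' hd.1 hhd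
    refine ⟨?_, ?_⟩
    · rw [hH, map_sub]; exact h1.1.sub h2.1
    · rw [hH, map_sub, HahnSeries.coeff_sub, sub_mul, h1.2, h2.2, frac_order g T n d hn.1 hd.1 hTd]
      push_cast
      rw [map_sub]
  have hnop : ∀ π, Prime π → ¬ π ∣ H := by
    intro π hπ hdiv
    obtain ⟨c, hc⟩ := hvH.2 π hπ hdiv
    obtain ⟨g, hg⟩ := exists_GP_at u v π hπ c hc hJ hm
    have h1 := (hg H).2 hdiv
    have h2 := (hlog g).2
    have h3 := congrArg (Polynomial.eval c) h2
    have h4 : ((g.ι H).coeff g.b).eval c = 0 := by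
      have := congrArg (fun z => HahnSeries.coeff z g.b) h1
      exact this
    rw [Polynomial.eval_mul, h4, zero_mul, Polynomial.eval_C] at h3
    exact hne g (by exact_mod_cast h3.symm)
  have hunit : IsUnit H := by
    by_contra hnu
    obtain ⟨π, hπ, hdiv⟩ := WfDvdMonoid.exists_irreducible_factor hnu hvH.1
    exact hnop π (UniqueFactorizationMonoid.irreducible_iff_prime.1 hπ) hdiv
  obtain ⟨κ, hκ, hκH⟩ := (MvPolynomial.isUnit_iff_eq_C_of_isReduced).1 hunit
  have h5 := (hlog g0).1 0 g0.hb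
  rw [hκH, g0.hC, HahnSeries.C_apply, HahnSeries.coeff_single, if_pos rfl] at h5
  exact hκ.ne_zero (Polynomial.C_eq_zero.1 h5)

theorem ratio_T' (v : MvPolynomial (Fin 2) k) (hJ : Jb u v = 1) (T : L) (hT : GenV u v T)
    (hall : ∀ g : GP u, (g.j L T).order < 0) (g1 g2 : GP u) :
    ∃ γ : k, γ ≠ 0 ∧ (g1.j L T).leadingCoeff = algebraMap k (KK k) γ * (g2.j L T).leadingCoeff := by
  have hu := g1.uP_inj
  have hinj : Function.Injective ((algebraMap (MvPolynomial (Fin 2) k) L)) := IsFractionRing.injective (MvPolynomial (Fin 2) k) L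
  have hkinj : Function.Injective (algebraMap k (KK k)) := (algebraMap k (KK k)).injective
  obtain ⟨P, Q, _, hQT, hPQ⟩ := rep_mem' hu _ (hT.of_Jb g1 hJ g1.hJ)
  have hQ0 : Q ≠ 0 := by rintro rfl; simp at hQT
  have hv0 : (algebraMap (MvPolynomial (Fin 2) k) L) g1.v ≠ 0 := gv_ne g1
  have hP0 : P ≠ 0 := by
    rintro rfl
    rw [Polynomial.eval₂_zero] at hPQ
    exact mul_ne_zero hv0 hQT hPQ
  have main : ∀ g : GP u, Q.natDegree < P.natDegree ∧
      algebraMap k (KK k) g.β * Q.leadingCoeff =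
        P.leadingCoeff * (g.j L T).leadingCoeff ^ (P.natDegree - Q.natDegree) := by
    intro g
    have h1 := g.ord_P hu T (hall g) P hP0
    have h2 := g.ord_P hu T (hall g) Q hQ0
    have h3 := g1.lc_v1 g
    have hlt : Q.natDegree < P.natDegree := by
      have h4 := congrArg (fun z => (g.j L z).order) hPQ
      simp only [map_mul] at h4
      have hj0 : ∀ z : L, z ≠ 0 → g.j L z ≠ 0 := fun z hz => by
        rw [Ne, map_eq_zero_iff _ g.j_inj]; exact hz
      rw [HahnSeries.order_mul (hj0 _ hv0) (hj0 _ hQT), h1.1, h2.1, g.j_order, h3.1] at h4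
      by_contra hcon
      push Not at hcon
      have h5 : (P.natDegree : ℚ) ≤ Q.natDegree := by exact_mod_cast hcon
      have h6 := hall g
      have h7 := g.hb
      nlinarith
    refine ⟨hlt, ?_⟩
    have h4 := congrArg (fun z => (g.j L z).leadingCoeff) hPQ
    simp only [map_mul] at h4
    rw [HahnSeries.leadingCoeff_mul, h1.2.1, h2.2.1, g.j_lc, h3.2, ← algebraMap_KK] at h4
    have hx0 : (g.j L T).leadingCoeff ≠ 0 := by
      rw [Ne, HahnSeries.leadingCoeff_eq_zero]
      intro h0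
      have := hall g
      rw [h0] at this
      simp at this
    apply mul_right_cancel₀ (pow_ne_zero Q.natDegree hx0)
    have h5 : (g.j L T).leadingCoeff ^ P.natDegree = (g.j L T).leadingCoeff ^ (P.natDegree - Q.natDegree) *
        (g.j L T).leadingCoeff ^ Q.natDegree := by
      rw [← pow_add]; congr 1; omega
    rw [h5] at h4
    linear_combination h4
  set N := P.natDegree - Q.natDegree with hN
  have hNpos : 0 < N := by have := (main g1).1; omega
  set x1 := (g1.j L T).leadingCoeff with hx1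
  set x2 := (g2.j L T).leadingCoeff with hx2
  have hx20 : x2 ≠ 0 := by
    rw [hx2, Ne, HahnSeries.leadingCoeff_eq_zero]
    intro h0
    have := hall g2
    rw [h0] at this
    simp at this
  have hx10 : x1 ≠ 0 := by
    rw [hx1, Ne, HahnSeries.leadingCoeff_eq_zero]
    intro h0
    have := hall g1
    rw [h0] at this
    simp at this
  have hlcQ : Q.leadingCoeff ≠ 0 := Polynomial.leadingCoeff_ne_zero.2 hQ0
  have hlcP : P.leadingCoeff ≠ 0 := Polynomial.leadingCoeff_ne_zero.2 hP0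
  have hβ2 : algebraMap k (KK k) g2.β ≠ 0 := by
    rw [Ne, map_eq_zero_iff _ hkinj]; exact g2.hβ
  have h1 : (x1 / x2) ^ N = algebraMap k (KK k) (g1.β / g2.β) := by
    rw [div_pow, map_div₀, div_eq_div_iff (pow_ne_zero _ hx20) hβ2]
    apply mul_left_cancel₀ (mul_ne_zero hlcP hlcQ)
    have e1 := (main g1).2
    have e2 := (main g2).2
    linear_combination (-(Q.leadingCoeff * algebraMap k (KK k) g2.β)) * e1 +
      Q.leadingCoeff * algebraMap k (KK k) g1.β * e2
  obtain ⟨δ, hδ⟩ := const_of_pow _ N hNpos _ h1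
  refine ⟨δ, ?_, ?_⟩
  · rintro rfl
    rw [map_zero, div_eq_zero_iff] at hδ
    rcases hδ with h | h
    · exact hx10 h
    · exact hx20 h
  · rw [← hδ, div_mul_cancel₀ _ hx20]

/-- if the derivative of `T` is a function of `u` then `T ∈ k(u,v)` -/
theorem final7' (g : GP u) (hu : Function.Injective (uP u)) (T : L)
    (hord : (g.j L T).order < 0) (x : KK k) (hx : x ≠ 0)
    (v : MvPolynomial (Fin 2) k) (hJ : Jb u v = 1) (hT : GenV u v T) (hisD : g.IsD T (kap L hu x)) :
    T ∈ IntermediateField.adjoin k {(algebraMap (MvPolynomial (Fin 2) k) L) u, (algebraMap (MvPolynomial (Fin 2) k) L) v} := by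
  obtain ⟨P, Q, hcop, hQT, hPQ⟩ := rep_mem' hu _ hT
  have hQ0 : Q ≠ 0 := by rintro rfl; simp at hQT
  have hid := g.der_identity hu T (kap L hu x) hisD v hJ P Q hPQ
  have hpoly : Q * Q + P * Polynomial.derivative Q * Polynomial.C x - Polynomial.derivative P * Q * Polynomial.C x = 0 := by
    by_contra hne
    apply (g.ord_P hu T hord _ hne).2.2
    rw [Polynomial.eval₂_sub, Polynomial.eval₂_add, Polynomial.eval₂_mul, Polynomial.eval₂_mul, Polynomial.eval₂_mul,
      Polynomial.eval₂_mul, Polynomial.eval₂_mul, Polynomial.eval₂_C, ← hPQ]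
    linear_combination (Q.eval₂ (kap L hu) T) * hid
  have hxinv : Polynomial.C x * Polynomial.C x⁻¹ = 1 := by
    rw [← Polynomial.C_mul, mul_inv_cancel₀ hx, Polynomial.C_1]
  have hdvd : Q ∣ Polynomial.derivative Q := by
    have h1 : Q ∣ P * Polynomial.derivative Q := by
      refine ⟨(Polynomial.derivative P * Polynomial.C x - Q) * Polynomial.C x⁻¹, ?_⟩
      linear_combination Polynomial.C x⁻¹ * hpoly - P * Polynomial.derivative Q * hxinv
    exact hcop.symm.dvd_of_dvd_mul_left h1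
  have hQd : Polynomial.derivative Q = 0 := by
    by_contra hne
    have h1 := Polynomial.degree_le_of_dvd hdvd hne
    exact absurd h1 (not_le.2 (Polynomial.degree_derivative_lt hQ0))
  have hQc : Q = Polynomial.C (Q.coeff 0) := Polynomial.eq_C_of_natDegree_eq_zero (Polynomial.derivative_eq_zero.1 hQd)
  set q0 := Q.coeff 0 with hq0
  have hq00 : q0 ≠ 0 := by
    intro h; rw [h, map_zero] at hQc; exact hQ0 hQc
  have hPd : Polynomial.derivative P = Polynomial.C (q0 * x⁻¹) := by
    rw [hQd, mul_zero, zero_mul, add_zero] at hpoly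
    have h1 : Q * (Q - Polynomial.derivative P * Polynomial.C x) = 0 := by linear_combination hpoly
    have h2 := (mul_eq_zero.1 h1).resolve_left hQ0
    rw [Polynomial.C_mul, ← hQc]
    linear_combination (-(Polynomial.derivative P)) * hxinv - Polynomial.C x⁻¹ * h2
  have hPl : ∃ b0 : KK k, P = Polynomial.C (q0 * x⁻¹) * Polynomial.X + Polynomial.C b0 := by
    have h1 : Polynomial.derivative (P - Polynomial.C (q0 * x⁻¹) * Polynomial.X) = 0 := by
      rw [Polynomial.derivative_sub, hPd, Polynomial.derivative_C_mul, Polynomial.derivative_X, mul_one, sub_self]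
    have h2 := Polynomial.eq_C_of_natDegree_eq_zero (Polynomial.derivative_eq_zero.1 h1)
    exact ⟨_, by rw [← h2]; ring⟩
  obtain ⟨b0, hb0⟩ := hPl
  rw [hb0, hQc, Polynomial.eval₂_add, Polynomial.eval₂_mul, Polynomial.eval₂_C, Polynomial.eval₂_C,
    Polynomial.eval₂_X, Polynomial.eval₂_C] at hPQ
  have hax : kap L hu (q0 * x⁻¹) ≠ 0 := by
    rw [Ne, map_eq_zero_iff _ (kap L hu).injective]
    exact mul_ne_zero hq00 (inv_ne_zero hx)
  have hTe : T = ((algebraMap (MvPolynomial (Fin 2) k) L) v * kap L hu q0 - kap L hu b0) / kap L hu (q0 * x⁻¹) := by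
    rw [eq_div_iff hax, hPQ]; ring
  have hmem_u : (algebraMap (MvPolynomial (Fin 2) k) L) u ∈ IntermediateField.adjoin k {(algebraMap (MvPolynomial (Fin 2) k) L) u, (algebraMap (MvPolynomial (Fin 2) k) L) v} :=
    IntermediateField.subset_adjoin _ _ (Set.mem_insert _ _)
  have hmem_v : (algebraMap (MvPolynomial (Fin 2) k) L) v ∈ IntermediateField.adjoin k {(algebraMap (MvPolynomial (Fin 2) k) L) u, (algebraMap (MvPolynomial (Fin 2) k) L) v} :=
    IntermediateField.subset_adjoin _ _ (Set.mem_insert_of_mem _ rfl)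
  rw [hTe]
  exact div_mem (sub_mem (mul_mem hmem_v (kap_mem hu _ hmem_u _)) (kap_mem hu _ hmem_u _)) (kap_mem hu _ hmem_u _)

/-- Step 7 -/
theorem step7' (v : MvPolynomial (Fin 2) k) (hJ : Jb u v = 1) (hm : MonY u) (T : L) (hT : GenV u v T)
    (hall : ∀ g : GP u, (g.j L T).order < 0) (g0 : GP u) :
    T ∈ IntermediateField.adjoin k {(algebraMap (MvPolynomial (Fin 2) k) L) u, (algebraMap (MvPolynomial (Fin 2) k) L) v} := by
  have hu := g0.uP_inj
  have hinj : Function.Injective ((algebraMap (MvPolynomial (Fin 2) k) L)) := IsFractionRing.injective (MvPolynomial (Fin 2) k) L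
  obtain ⟨n, ⟨d, hd0'⟩, hrel, hnd⟩ := IsFractionRing.exists_reduced_fraction (A := MvPolynomial (Fin 2) k) T
  have hd0 : d ≠ 0 := nonZeroDivisors.ne_zero hd0'
  have hTd : T * (algebraMap (MvPolynomial (Fin 2) k) L) d = (algebraMap (MvPolynomial (Fin 2) k) L) n := by
    rw [← hnd]; exact IsLocalization.mk'_spec L n ⟨d, hd0'⟩
  have hd : VertF u d := vertF_den' g0 v hJ T hT (hall g0) n d hd0 hTd hrel
  obtain ⟨hd', hhd⟩ := vert_log u v hJ d hd
  have hdne : (algebraMap (MvPolynomial (Fin 2) k) L) d ≠ 0 := by rw [Ne, map_eq_zero_iff _ hinj]; exact hd0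
  set m := Jb u n - n * hd' with hm'
  set h : L := (algebraMap (MvPolynomial (Fin 2) k) L) m / (algebraMap (MvPolynomial (Fin 2) k) L) d with hh
  have hhd2 : h * (algebraMap (MvPolynomial (Fin 2) k) L) d = (algebraMap (MvPolynomial (Fin 2) k) L) m := by rw [hh, div_mul_cancel₀ _ hdne]
  have hisD : ∀ g : GP u, g.IsD T h := fun g => g.isD_frac T n d hd' hd0 hTd hhd h hhd2
  have hTA : AKm u T := ⟨d, n, hd, hTd⟩
  obtain ⟨W, hW, hW1⟩ := exists_W' g0 T h hTA (hisD g0) v hJ hT
  have hmv : VertF u m := by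
    apply VertF.of_unit hd hW
    rw [← hhd2, mul_right_comm, hW1, one_mul]
  have hCR : CR u m d := by
    intro g1 g2
    obtain ⟨γ1, hγ1, e1⟩ := g1.lc_h T h (hisD g1) (hall g1)
    obtain ⟨γ2, hγ2, e2⟩ := g2.lc_h T h (hisD g2) (hall g2)
    obtain ⟨γ3, hγ3, e3⟩ := ratio_T' v hJ T hT hall g1 g2
    refine ⟨γ1 * γ3 / γ2, div_ne_zero (mul_ne_zero hγ1 hγ3) hγ2, ?_⟩
    apply IsFractionRing.injective (Polynomial k) (KK k)
    have f1 := congrArg (fun z => (g1.j L z).leadingCoeff) hhd2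
    have f2 := congrArg (fun z => (g2.j L z).leadingCoeff) hhd2
    simp only [map_mul] at f1 f2
    rw [HahnSeries.leadingCoeff_mul, g1.j_lc, g1.j_lc] at f1
    rw [HahnSeries.leadingCoeff_mul, g2.j_lc, g2.j_lc] at f2
    rw [map_mul, map_mul, map_mul, ← algebraMap_KK, ← f1, ← f2, e1, e2, e3, map_div₀, map_mul]
    have hγ2' : algebraMap k (KK k) γ2 ≠ 0 := by
      rw [Ne, map_eq_zero_iff _ (algebraMap k (KK k)).injective]; exact hγ2
    field_simp
  obtain ⟨s, t, hs, ht, est⟩ := CR.const v hJ hm _ m d rfl hmv hd hCR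
  have halgs : algebraMap (Polynomial k) (KK k) s ≠ 0 := by
    rw [Ne, map_eq_zero_iff _ (IsFractionRing.injective (Polynomial k) (KK k))]; exact hs
  have halgt : algebraMap (Polynomial k) (KK k) t ≠ 0 := by
    rw [Ne, map_eq_zero_iff _ (IsFractionRing.injective (Polynomial k) (KK k))]; exact ht
  have hkh : h = kap L hu (algebraMap (Polynomial k) (KK k) t / algebraMap (Polynomial k) (KK k) s) := by
    have hs' : (algebraMap (MvPolynomial (Fin 2) k) L) (uP u s) ≠ 0 := by
      rw [Ne, map_eq_zero_iff _ hinj, map_eq_zero_iff _ hu]; exact hs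
    rw [map_div₀, kap_algebraMap, kap_algebraMap, hh, div_eq_div_iff hdne hs', ← map_mul, est, map_mul, mul_comm]
  exact final7' g0 hu T (hall g0) _ (div_ne_zero halgt halgs) v hJ hT (by rw [← hkh]; exact hisD g0)

/-- orders of functions at a pole of `T` -/
theorem ord_mul' (g : GP u) (T : L) (hord : (g.j L T).order < 0) (f : L) (hf : f ≠ 0)
    (hfT : f ∈ IntermediateField.adjoin k {algebraMap (MvPolynomial (Fin 2) k) L u, T}) :
    ∃ m : ℤ, (g.j L f).order = (g.j L T).order * m := by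
  have hu := g.uP_inj
  obtain ⟨P, Q, _, hQT, hPQ⟩ := rep_mem' hu f hfT
  have hQ0 : Q ≠ 0 := by rintro rfl; simp at hQT
  have hP0 : P ≠ 0 := by
    rintro rfl
    rw [Polynomial.eval₂_zero] at hPQ
    exact mul_ne_zero hf hQT hPQ
  have h1 := g.ord_P hu T hord P hP0
  have h2 := g.ord_P hu T hord Q hQ0
  have h3 := congrArg (fun z => (g.j L z).order) hPQ
  simp only [map_mul] at h3
  have hj0 : ∀ z : L, z ≠ 0 → g.j L z ≠ 0 := fun z hz => by
    rw [Ne, map_eq_zero_iff _ g.j_inj]; exact hz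
  rw [HahnSeries.order_mul (hj0 _ hf) (hj0 _ hQT), h1.1, h2.1] at h3
  refine ⟨(P.natDegree : ℤ) - Q.natDegree, ?_⟩
  push_cast
  linarith

end rep

section C1

variable {k : Type*} [Field k] [CharZero k] [IsAlgClosed k] {u : MvPolynomial (Fin 2) k} {c : k}
  {Y : HahnSeries ℚ k}
variable {L : Type*} [Field L] [Algebra (MvPolynomial (Fin 2) k) L] [IsFractionRing (MvPolynomial (Fin 2) k) L]
  [Algebra k L] [IsScalarTower k (MvPolynomial (Fin 2) k) L]

/-- Case C1 -/
theorem caseC1' (e : ED u c Y) (pl : k → GP u) (hrel : e.Rel pl) (v : MvPolynomial (Fin 2) k) (hJ : Jb u v = 1)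
    (T : L) (hT : GenV u v T)
    (n d : MvPolynomial (Fin 2) k) (hn : VertF u n) (hd : VertF u d) (hTd : T * (algebraMap (MvPolynomial (Fin 2) k) L) d = (algebraMap (MvPolynomial (Fin 2) k) L) n)
    (hall : ∀ ρ, e.p.eval ρ = 0 → ((pl ρ).j L T).order < 0) : False := by
  classical
  have h00 : e.p.eval 0 = 0 := by rw [← Polynomial.coeff_zero_eq_eval_zero]; exact e.hp0
  have hu := (pl 0).uP_inj
  have hinj : Function.Injective ((algebraMap (MvPolynomial (Fin 2) k) L)) := IsFractionRing.injective (MvPolynomial (Fin 2) k) L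
  have hTe : GenV u e.v T := hT.of_Jb (pl 0) hJ e.hJ
  have hv0 : e.v ≠ 0 := by
    intro h0
    have := e.hJ
    rw [h0] at this
    simp [Jb] at this
  have hv0' : (algebraMap (MvPolynomial (Fin 2) k) L) e.v ≠ 0 := by
    rw [Ne, map_eq_zero_iff _ hinj]; exact hv0
  obtain ⟨P, Q, _, hQT, hPQ⟩ := rep_mem' hu _ hTe
  have hQ0 : Q ≠ 0 := by rintro rfl; simp at hQT
  have hP0 : P ≠ 0 := by
    rintro rfl
    rw [Polynomial.eval₂_zero] at hPQ
    exact mul_ne_zero hv0' hQT hPQ
  -- all the orders coincide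
  have hτ : ∀ ρ, e.p.eval ρ = 0 → ((pl ρ).j L T).order = ((pl 0).j L T).order := by
    have key : ∀ ρ, e.p.eval ρ = 0 → ((P.natDegree : ℚ) - Q.natDegree) * ((pl ρ).j L T).order = -e.b := by
      intro ρ hρ
      have h1 := (pl ρ).ord_P hu T (hall ρ hρ) P hP0
      have h2 := (pl ρ).ord_P hu T (hall ρ hρ) Q hQ0
      have h3 := congrArg (fun z => ((pl ρ).j L z).order) hPQ
      simp only [map_mul] at h3
      have hj0 : ∀ z : L, z ≠ 0 → (pl ρ).j L z ≠ 0 := fun z hz => by
        rw [Ne, map_eq_zero_iff _ (pl ρ).j_inj]; exact hz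
      have h4 : ((pl ρ).j L ((algebraMap (MvPolynomial (Fin 2) k) L) e.v)).order = -e.b := by
        rw [← (hrel ρ hρ).1, v_order (pl ρ), (hrel ρ hρ).2.1]
      rw [HahnSeries.order_mul (hj0 _ hv0') (hj0 _ hQT), h4, h1.1, h2.1] at h3
      linarith
    intro ρ hρ
    have h1 := key ρ hρ
    have h2 := key 0 h00
    have h3 : ((P.natDegree : ℚ) - Q.natDegree) ≠ 0 := by
      intro h
      rw [h, zero_mul] at h1
      linarith [e.hb]
    exact mul_left_cancel₀ h3 (h1.trans h2.symm)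
  have hord0 := e.ord_T pl hrel e.v e.hJ T n d hn hd hTd
  set τ := ((pl 0).j L T).order with hτdef
  set N' : ℤ := ((EX e.r Y n).leadingCoeff.rootMultiplicity 0 : ℤ) - (EX e.r Y d).leadingCoeff.rootMultiplicity 0 with hN'
  have ho : (EX e.r Y n).order - (EX e.r Y d).order = τ - e.a * N' := by
    have h1 := hord0 0 h00
    rw [hN']
    push_cast
    linarith
  have hρN : ∀ ρ, e.p.eval ρ = 0 → ((EX e.r Y n).leadingCoeff.rootMultiplicity ρ : ℤ) -
      (EX e.r Y d).leadingCoeff.rootMultiplicity ρ = N' := by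
    intro ρ hρ
    have h1 := hord0 ρ hρ
    rw [hτ ρ hρ, ho] at h1
    have h2 : e.a * ((((EX e.r Y n).leadingCoeff.rootMultiplicity ρ : ℕ) : ℚ) -
      ((EX e.r Y d).leadingCoeff.rootMultiplicity ρ : ℕ)) = e.a * N' := by linarith
    have h3 := mul_left_cancel₀ e.ha.ne' h2
    exact_mod_cast h3
  have hlam : ((EX e.r Y n).leadingCoeff.natDegree : ℤ) - (EX e.r Y d).leadingCoeff.natDegree = e.p.natDegree * N' := by
    rw [e.natDegree_lc n hn, e.natDegree_lc d hd]
    push_cast
    rw [← Finset.sum_sub_distrib, Finset.sum_congr rfl (fun ρ hρ => hρN ρ ((e.mem_rts ρ).1 hρ)), Finset.sum_const,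
      e.card_rts, nsmul_eq_mul]
  obtain ⟨b1, P', hb1, hP'd, hP'0, hP'e⟩ := clearD (L := L) hu P hP0
  obtain ⟨b2, Q', hb2, hQ'd, hQ'0, hQ'e⟩ := clearD (L := L) hu Q hQ0
  set M := max P.natDegree Q.natDegree with hM
  have hPd : (P'.map (uP u)).natDegree ≤ M := by
    rw [Polynomial.natDegree_map_eq_of_injective hu, hP'd]; exact le_max_left _ _
  have hQd : (Q'.map (uP u)).natDegree ≤ M := by
    rw [Polynomial.natDegree_map_eq_of_injective hu, hQ'd]; exact le_max_right _ _
  have e1 := homog T n d hTd _ M hPd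
  have e2 := homog T n d hTd _ M hQd
  obtain ⟨z1, hz1, hS1⟩ := e.hom_lead n d hn.1 hd.1 τ (hall 0 h00) N' ho hlam P' hP'0 M (by rw [hP'd]; exact le_max_left _ _)
  obtain ⟨z2, hz2, hS2⟩ := e.hom_lead n d hn.1 hd.1 τ (hall 0 h00) N' ho hlam Q' hQ'0 M (by rw [hQ'd]; exact le_max_right _ _)
  set S1 := ∑ i ∈ Finset.range (M + 1), (P'.map (uP u)).coeff i * n ^ i * d ^ (M - i) with hS1def
  set S2 := ∑ i ∈ Finset.range (M + 1), (Q'.map (uP u)).coeff i * n ^ i * d ^ (M - i) with hS2def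
  have key : e.v * uP u b1 * S2 = uP u b2 * S1 := by
    apply hinj
    rw [map_mul, map_mul, map_mul ((algebraMap (MvPolynomial (Fin 2) k) L)) (uP u b2), ← e1, ← e2, ← hP'e, ← hQ'e, ← hPQ]
    ring
  have h1 := congrArg (fun z => (EX e.r Y z).leadingCoeff.natDegree) key
  simp only [map_mul] at h1
  rw [HahnSeries.leadingCoeff_mul, HahnSeries.leadingCoeff_mul, HahnSeries.leadingCoeff_mul, e.lc_v.2,
    (e.lc_uP b1 hb1).2.1, (e.lc_uP b2 hb2).2.1] at h1
  have hp1 : ∀ s : Polynomial k, s ≠ 0 → Polynomial.C s.leadingCoeff * e.p ^ s.natDegree ≠ 0 := fun s hs =>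
    mul_ne_zero (Polynomial.C_ne_zero.2 (Polynomial.leadingCoeff_ne_zero.2 hs)) (pow_ne_zero _ e.p_ne)
  rw [Polynomial.natDegree_mul (mul_ne_zero e.q_ne0 (hp1 b1 hb1)) (HahnSeries.leadingCoeff_ne_zero.2 hS2),
    Polynomial.natDegree_mul e.q_ne0 (hp1 b1 hb1), Polynomial.natDegree_mul (hp1 b2 hb2)
      (HahnSeries.leadingCoeff_ne_zero.2 hS1),
    Polynomial.natDegree_C_mul (Polynomial.leadingCoeff_ne_zero.2 hb1),
    Polynomial.natDegree_C_mul (Polynomial.leadingCoeff_ne_zero.2 hb2), Polynomial.natDegree_pow,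
    Polynomial.natDegree_pow] at h1
  have h2 : (e.q.natDegree : ℤ) = e.p.natDegree * (b2.natDegree - b1.natDegree + z1 - z2) := by
    have h3 : (e.q.natDegree : ℤ) + b1.natDegree * e.p.natDegree + (EX e.r Y S2).leadingCoeff.natDegree =
        b2.natDegree * e.p.natDegree + (EX e.r Y S1).leadingCoeff.natDegree := by exact_mod_cast h1
    rw [hz1, hz2] at h3
    linear_combination h3
  have hα : (0 : ℚ) < e.p.natDegree := by
    have := e.hd2
    exact_mod_cast (by omega : 0 < e.p.natDegree)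
  apply e.hnon (b2.natDegree - b1.natDegree + z1 - z2)
  have h4 := e.hdeg
  have h5 : (e.q.natDegree : ℚ) = e.p.natDegree * ((b2.natDegree - b1.natDegree + z1 - z2 : ℤ) : ℚ) := by
    exact_mod_cast h2
  rw [h5] at h4
  apply mul_right_cancel₀ hα.ne'
  rw [← h4]
  ring

end C1

section main

variable {k : Type*} [Field k] [CharZero k] [IsAlgClosed k] {u : MvPolynomial (Fin 2) k}
variable {L : Type*} [Field L] [Algebra (MvPolynomial (Fin 2) k) L] [IsFractionRing (MvPolynomial (Fin 2) k) L]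
  [Algebra k L] [IsScalarTower k (MvPolynomial (Fin 2) k) L]

theorem shift' (v : MvPolynomial (Fin 2) k) (hJ : Jb u v = 1) (g1 g2 : GP u) (hu : Function.Injective (uP u))
    (T : L) (hT : GenV u v T) (h1 : (g1.j L T).order < 0)
    (h2 : 0 ≤ (g2.j L T).order) :
    ∃ n d, VertF u n ∧ VertF u d ∧ (T - kap L hu ((g2.j L T).coeff 0)) * (algebraMap (MvPolynomial (Fin 2) k) L) d = (algebraMap (MvPolynomial (Fin 2) k) L) n ∧
      0 < (g2.j L (T - kap L hu ((g2.j L T).coeff 0))).order := by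
  have hinj : Function.Injective ((algebraMap (MvPolynomial (Fin 2) k) L)) := IsFractionRing.injective (MvPolynomial (Fin 2) k) L
  set T' := T - kap L hu ((g2.j L T).coeff 0) with hT'
  have hp : (g1.j L T').order = (g1.j L T).order := g1.pole_sub hu T h1 _
  have hT'0 : T' ≠ 0 := by
    intro h0
    rw [h0, map_zero, HahnSeries.order_zero] at hp
    linarith
  have hz : 0 < (g2.j L T').order := g2.zero_sub hu T h2 hT'0
  have hG : GenV u v T' := hT.sub hu _
  obtain ⟨n, ⟨d, hd0'⟩, hrel, hnd⟩ := IsFractionRing.exists_reduced_fraction (A := MvPolynomial (Fin 2) k) T'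
  have hd0 : d ≠ 0 := nonZeroDivisors.ne_zero hd0'
  have hTd : T' * (algebraMap (MvPolynomial (Fin 2) k) L) d = (algebraMap (MvPolynomial (Fin 2) k) L) n := by
    rw [← hnd]; exact IsLocalization.mk'_spec L n ⟨d, hd0'⟩
  have hd : VertF u d := vertF_den' g1 v hJ T' hG (by rw [hp]; exact h1) n d hd0 hTd hrel
  have hn0 : n ≠ 0 := by
    rintro rfl
    rw [map_zero, mul_eq_zero, map_eq_zero_iff _ hinj] at hTd
    rcases hTd with h | h
    · exact hT'0 h
    · exact hd0 h
  have hn : VertF u n := vertF_den' g2 v hJ T'⁻¹ hG.inv (by rw [g2.ord_inv _ hT'0]; linarith) d n hn0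
    (by rw [← hTd, ← mul_assoc, inv_mul_cancel₀ hT'0, one_mul]) hrel.symm
  exact ⟨n, d, hn, hd, hTd, hz⟩

/-- The main theorem in normalised form. -/
theorem main_RM (v : MvPolynomial (Fin 2) k) (hJ : Jb u v = 1) (hm : MonY u) (T0 : L) (hT0 : GenV u v T0) :
    T0 ∈ IntermediateField.adjoin k {(algebraMap (MvPolynomial (Fin 2) k) L) u, (algebraMap (MvPolynomial (Fin 2) k) L) v} := by
  have hinj : Function.Injective ((algebraMap (MvPolynomial (Fin 2) k) L)) := IsFractionRing.injective (MvPolynomial (Fin 2) k) L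
  -- a component of `u = 0`
  have hu_ne : ∀ a : k, u ≠ C a := by
    rintro a rfl
    have := hm.1
    rw [toY_C] at this
    simp at this
  have hnu : ¬ IsUnit (u - C 0) := by
    intro h
    obtain ⟨a, _, ha⟩ := (MvPolynomial.isUnit_iff_eq_C_of_isReduced).1 h
    exact hu_ne a (by rw [← ha]; simp)
  have hu0 : u - C 0 ≠ 0 := by
    intro h
    exact hu_ne 0 (sub_eq_zero.1 h)
  obtain ⟨π, hπ', hdiv⟩ := WfDvdMonoid.exists_irreducible_factor hnu hu0
  have hπ := UniqueFactorizationMonoid.irreducible_iff_prime.1 hπ'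
  obtain ⟨Y, e, pl, hrel, -⟩ := exists_E u v π hπ 0 hdiv hJ hm
  have h00 : e.p.eval 0 = 0 := by rw [← Polynomial.coeff_zero_eq_eval_zero]; exact e.hp0
  set g1 := pl 0 with hg1
  have hu := g1.uP_inj
  have hb1 : g1.b = e.b := (hrel 0 h00).2.1
  have hv0 : ∀ w : MvPolynomial (Fin 2) k, Jb u w = 1 → (algebraMap (MvPolynomial (Fin 2) k) L) w ≠ 0 := by
    intro w hw
    rw [Ne, map_eq_zero_iff _ hinj]
    rintro rfl
    simp [Jb] at hw
  have hv1o : (g1.j L ((algebraMap (MvPolynomial (Fin 2) k) L) g1.v)).order = -g1.b := v_order g1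
  -- elements of `k(u)` lie in the field
  have hkmem : ∀ x : KK k, kap L hu x ∈ IntermediateField.adjoin k
      {(algebraMap (MvPolynomial (Fin 2) k) L) u, (algebraMap (MvPolynomial (Fin 2) k) L) v} := fun x =>
    kap_mem hu _ (IntermediateField.subset_adjoin _ _ (Set.mem_insert _ _)) x
  -- a generator with a pole at `g1`
  obtain ⟨T1, hT1, hord1, hback⟩ : ∃ T1 : L, GenV u v T1 ∧ (g1.j L T1).order < 0 ∧
      (T1 ∈ IntermediateField.adjoin k {(algebraMap (MvPolynomial (Fin 2) k) L) u,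
          (algebraMap (MvPolynomial (Fin 2) k) L) v} →
        T0 ∈ IntermediateField.adjoin k {(algebraMap (MvPolynomial (Fin 2) k) L) u,
          (algebraMap (MvPolynomial (Fin 2) k) L) v}) := by
    by_cases h : (g1.j L T0).order < 0
    · exact ⟨T0, hT0, h, fun h => h⟩
    · push Not at h
      have hne : T0 - kap L hu ((g1.j L T0).coeff 0) ≠ 0 := by
        intro h0
        rw [sub_eq_zero] at h0
        set β := (g1.j L T0).coeff 0 with hβ
        obtain ⟨P, Q, _, hQT, hPQ⟩ := rep_mem' hu _ (hT0.of_Jb g1 hJ g1.hJ)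
        rw [h0, Polynomial.eval₂_at_apply, Polynomial.eval₂_at_apply] at hPQ
        rw [h0, Polynomial.eval₂_at_apply] at hQT
        have hPn : P.eval β ≠ 0 := by
          intro h1
          rw [h1, map_zero] at hPQ
          exact mul_ne_zero (hv0 _ g1.hJ) hQT hPQ
        have hQn : Q.eval β ≠ 0 := by
          intro h1
          rw [h1, map_zero] at hQT
          exact hQT rfl
        have h2 := congrArg (fun z => (g1.j L z).order) hPQ
        simp only [map_mul] at h2
        rw [g1.j_kap, g1.j_kap, HahnSeries.order_mul, hv1o, HahnSeries.order_C, HahnSeries.order_C] at h2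
        · linarith [g1.hb]
        · rw [Ne, map_eq_zero_iff _ g1.j_inj]; exact hv0 _ g1.hJ
        · rw [Ne, map_eq_zero_iff _ HahnSeries.C_injective]; exact hQn
      have hz := g1.zero_sub hu T0 h hne
      refine ⟨(T0 - kap L hu ((g1.j L T0).coeff 0))⁻¹, (hT0.sub hu _).inv, ?_, ?_⟩
      · rw [g1.ord_inv _ hne]
        linarith
      · intro h1
        have h2 := inv_mem h1
        rw [inv_inv] at h2
        have h3 := add_mem h2 (hkmem ((g1.j L T0).coeff 0))
        rwa [sub_add_cancel] at h3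
  apply hback
  -- all places are poles
  by_cases hall : ∀ g : GP u, (g.j L T1).order < 0
  · exact step7' v hJ hm T1 hT1 hall g1
  exfalso
  push Not at hall
  obtain ⟨g2, hg2⟩ := hall
  obtain ⟨n, d, hn, hd, hTd, -⟩ := shift' v hJ g1 g2 hu T1 hT1 hord1 hg2
  set T := T1 - kap L hu ((g2.j L T1).coeff 0) with hTdef
  have hT : GenV u v T := hT1.sub hu _
  have hordT : (g1.j L T).order < 0 := by rw [g1.pole_sub hu T1 hord1]; exact hord1
  by_cases hC1 : ∀ ρ, e.p.eval ρ = 0 → ((pl ρ).j L T).order < 0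
  · exact caseC1' e pl hrel v hJ T hT n d hn hd hTd hC1
  push Not at hC1
  obtain ⟨ρ2, hρ2, hord2⟩ := hC1
  obtain ⟨n', d', hn', hd', hTd', hz'⟩ := shift' v hJ g1 (pl ρ2) hu T hT hordT hord2
  set T' := T - kap L hu (((pl ρ2).j L T).coeff 0) with hT'def
  have hT' : GenV u v T' := hT.sub hu _
  have hordT' : (g1.j L T').order < 0 := by rw [g1.pole_sub hu T hordT]; exact hordT
  apply step6' v hJ hm T' hT' n' d' hn' hd' hTd' _ g1
  intro g3 hg3
  obtain ⟨n'', d'', hn'', hd'', hTd'', hz''⟩ := shift' v hJ g1 g3 hu T' hT' hordT' hg3.ge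
  have hβ3 : (g3.j L T').coeff 0 ≠ 0 := by
    rw [← hg3]
    apply HahnSeries.coeff_order_eq_zero.not.2
    rw [map_eq_zero_iff _ g3.j_inj]
    intro h0
    rw [h0, map_zero, HahnSeries.order_zero] at hordT'
    exact lt_irrefl _ hordT'
  obtain ⟨z, hz⟩ := e.diff pl hrel v hJ _ n'' d'' hn'' hd'' hTd'' 0 ρ2 h00 hρ2
  rw [(pl ρ2).unit_sub hu T' hz' _ hβ3, sub_zero] at hz
  have hord3 : ((pl 0).j L (T' - kap L hu ((g3.j L T').coeff 0))).order < 0 := by
    rw [(pl 0).pole_sub hu T' hordT']; exact hordT'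
  obtain ⟨m, hm'⟩ := ord_mul' (pl 0) _ hord3 ((algebraMap (MvPolynomial (Fin 2) k) L) g1.v) (hv0 _ g1.hJ)
    ((hT'.sub hu _).of_Jb g1 hJ g1.hJ)
  rw [hz] at hm'
  have h9 : -e.b = e.a * z * m := by rw [← hm', ← hb1, ← hv1o]
  apply e.hnon (-(z * m))
  push_cast
  linarith

end main

end Pool.Agent.Y235.JC
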