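import Mathlib
import Pool.Agent.Y235.JC.M1
import Pool.Agent.H922R2.R16
import Pool.Agent.H922R2.EL.FC

set_option autoImplicit false
set_option linter.unusedSectionVars false
set_option linter.style.haveILetI false

open MvPolynomial

namespace Pool.Agent.Y235.JC

open Pool.Agent.H922R2 (IsDer GA jac SS fF DJ DJ_apply mE rr rr_mul rr_aeval coeff_rr mE_inj mE_aeval jac_mE)
open Pool.Agent.H922R2.R

section closed

variable {k : Type*} [Field k] [CharZero k] [IsAlgClosed k]

/-- over an algebraically closed field -/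
theorem RM_closed {L : Type*} [Field L] [Algebra (MvPolynomial (Fin 2) k) L]
    [IsFractionRing (MvPolynomial (Fin 2) k) L] [Algebra k L] [IsScalarTower k (MvPolynomial (Fin 2) k) L]
    (F : Fin 2 → MvPolynomial (Fin 2) k) (hJ : IsUnit (Matrix.det (jac F))) (T : L)
    (hT : GenV (F 0) (F 1) T) :
    T ∈ IntermediateField.adjoin k {algebraMap (MvPolynomial (Fin 2) k) L (F 0),
      algebraMap (MvPolynomial (Fin 2) k) L (F 1)} := by
  have hF0 : ∀ a : k, F 0 ≠ C a := by
    intro a ha
    rw [Pool.Agent.H922R2.det_jac, DJ_apply, ha] at hJ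
    simp at hJ
  obtain ⟨θ, hθ⟩ := exists_monY (F 0) hF0
  have hJ' := Pool.Agent.H922R2.jac_comp θ F hJ
  obtain ⟨δ, hδ, hδe⟩ := MvPolynomial.isUnit_iff_eq_C_of_isReduced.1 (by rw [Pool.Agent.H922R2.det_jac] at hJ'; exact hJ')
  have hδ0 : δ ≠ 0 := hδ.ne_zero
  have hJb : Jb (θ (F 0)) (C δ⁻¹ * θ (F 1)) = 1 := by
    have h1 : Jb (θ (F 0)) (θ (F 1)) = C δ := by
      rw [← hδe, DJ_apply]; rfl
    rw [Jb_mul, h1, Jb_C_right, mul_zero, add_zero, ← C_mul, inv_mul_cancel₀ hδ0, C_1]
  obtain ⟨φ, hφ, hφm, -⟩ := Pool.Agent.H922R2.EL.transport_gen (L₁ := L) (L₂ := L)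
    ((θ : MvPolynomial (Fin 2) k ≃ₐ[k] _) : MvPolynomial (Fin 2) k →+* _) θ.injective
    (fun a => ⟨a, θ.commutes a⟩) (fun i => ⟨θ.symm (X i), θ.apply_symm_apply _⟩)
  obtain ⟨ψ, hψ, hψm, -⟩ := Pool.Agent.H922R2.EL.transport_gen (L₁ := L) (L₂ := L)
    ((θ.symm : MvPolynomial (Fin 2) k ≃ₐ[k] _) : MvPolynomial (Fin 2) k →+* _) θ.symm.injective
    (fun a => ⟨a, θ.symm.commutes a⟩) (fun i => ⟨θ (X i), θ.symm_apply_apply _⟩)
  have hφ' : ∀ p, φ (algebraMap (MvPolynomial (Fin 2) k) L p) = algebraMap (MvPolynomial (Fin 2) k) L (θ p) := hφ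
  have hψ' : ∀ p, ψ (algebraMap (MvPolynomial (Fin 2) k) L p) = algebraMap (MvPolynomial (Fin 2) k) L (θ.symm p) := hψ
  have hid : ∀ z : L, ψ (φ z) = z := by
    intro z
    obtain ⟨a, b, _, rfl⟩ := IsFractionRing.div_surjective (A := MvPolynomial (Fin 2) k) z
    rw [map_div₀, map_div₀, hφ', hφ', hψ', hψ', θ.symm_apply_apply, θ.symm_apply_apply]
  -- transport of the hypothesis
  have hGen : GenV (θ (F 0)) (C δ⁻¹ * θ (F 1)) (φ T) := by
    have h1 := hφm _ _ hT
    rw [Set.image_pair, hφ', hφ'] at h1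
    rw [GenV, map_mul]
    apply mul_mem _ h1
    rw [← MvPolynomial.algebraMap_eq, ← IsScalarTower.algebraMap_apply]
    exact IntermediateField.algebraMap_mem _ _
  have hmain := main_RM (L := L) _ hJb hθ (φ T) hGen
  have h2 : φ T ∈ IntermediateField.adjoin k {algebraMap (MvPolynomial (Fin 2) k) L (θ (F 0)),
      algebraMap (MvPolynomial (Fin 2) k) L (θ (F 1))} := by
    refine (IntermediateField.adjoin_le_iff.2 ?_) hmain
    rintro z hz
    rcases hz with rfl | rfl
    · exact IntermediateField.subset_adjoin _ _ (Set.mem_insert _ _)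
    · rw [map_mul]
      apply mul_mem
      · rw [← MvPolynomial.algebraMap_eq, ← IsScalarTower.algebraMap_apply]
        exact IntermediateField.algebraMap_mem _ _
      · exact IntermediateField.subset_adjoin _ _ (Set.mem_insert_of_mem _ rfl)
  have h3 := hψm _ _ h2
  rw [hid, Set.image_pair, hψ', hψ', θ.symm_apply_apply, θ.symm_apply_apply] at h3
  exact h3

end closed

section descent

variable {k : Type*} [Field k] {E : Type*} [Field E] [Algebra k E] {σ : Type*}
variable {L₁ : Type*} [Field L₁] [Algebra (MvPolynomial σ k) L₁] [IsFractionRing (MvPolynomial σ k) L₁]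
  [Algebra k L₁] [IsScalarTower k (MvPolynomial σ k) L₁]
variable {L₂ : Type*} [Field L₂] [Algebra (MvPolynomial σ E) L₂] [IsFractionRing (MvPolynomial σ E) L₂]
  [Algebra E L₂] [IsScalarTower E (MvPolynomial σ E) L₂]

/-- Descent of rational expressions in `F` along an extension of the ground field. -/
theorem descent_adjoin (φ : L₁ →+* L₂)
    (hφ : ∀ p, φ (algebraMap (MvPolynomial σ k) L₁ p) = algebraMap (MvPolynomial σ E) L₂ (mE k E σ p))
    (F : σ → MvPolynomial σ k) (T : L₁)
    (hT : φ T ∈ IntermediateField.adjoin E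
      (Set.range fun i => algebraMap (MvPolynomial σ E) L₂ (mE k E σ (F i)))) :
    T ∈ IntermediateField.adjoin k (Set.range fun i => algebraMap (MvPolynomial σ k) L₁ (F i)) := by
  have hi1 : Function.Injective (algebraMap (MvPolynomial σ k) L₁) := IsFractionRing.injective _ _
  have hi2 : Function.Injective (algebraMap (MvPolynomial σ E) L₂) := IsFractionRing.injective _ _
  obtain ⟨a, b, hb, rfl⟩ := IsFractionRing.div_surjective (A := MvPolynomial σ k) T
  have hb0 : b ≠ 0 := nonZeroDivisors.ne_zero hb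
  have hb1 : algebraMap (MvPolynomial σ k) L₁ b ≠ 0 := by
    rw [Ne, map_eq_zero_iff _ hi1]; exact hb0
  have hb2 : algebraMap (MvPolynomial σ E) L₂ (mE k E σ b) ≠ 0 := by
    rw [Ne, map_eq_zero_iff _ hi2, map_eq_zero_iff _ mE_inj]; exact hb0
  rw [IntermediateField.mem_adjoin_range_iff] at hT ⊢
  obtain ⟨P, Q, hPQ⟩ := hT
  have h1 : ∀ p : MvPolynomial σ E, aeval (fun i => algebraMap (MvPolynomial σ E) L₂ (mE k E σ (F i))) p =
      algebraMap (MvPolynomial σ E) L₂ (aeval (fun i => mE k E σ (F i)) p) := by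
    intro p
    rw [← aeval_algebraMap_apply]
    rfl
  have h1' : ∀ p : MvPolynomial σ k, aeval (fun i => algebraMap (MvPolynomial σ k) L₁ (F i)) p =
      algebraMap (MvPolynomial σ k) L₁ (aeval F p) := by
    intro p
    rw [← aeval_algebraMap_apply]
    rfl
  rw [h1, h1, map_div₀, hφ, hφ] at hPQ
  simp only [h1']
  set q := aeval (fun i => mE k E σ (F i)) Q with hq
  set p := aeval (fun i => mE k E σ (F i)) P with hp
  by_cases hq0 : q = 0
  · rw [hq0, map_zero, div_zero, div_eq_zero_iff] at hPQ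
    rcases hPQ with h | h
    · rw [map_eq_zero_iff _ hi2, map_eq_zero_iff _ mE_inj] at h
      exact ⟨0, 1, by rw [h]; simp⟩
    · exact absurd h hb2
  have hq1 : algebraMap (MvPolynomial σ E) L₂ q ≠ 0 := by
    rw [Ne, map_eq_zero_iff _ hi2]; exact hq0
  rw [div_eq_div_iff hb2 hq1, ← map_mul, ← map_mul] at hPQ
  have h2 : mE k E σ a * q = mE k E σ b * p := by
    rw [mul_comm (mE k E σ b)]; exact hi2 hPQ
  obtain ⟨m, hm⟩ := MvPolynomial.exists_coeff_ne_zero hq0
  obtain ⟨ρ, hρ⟩ := Module.Projective.exists_dual_ne_zero k hm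
  have h3 := congrArg (rr ρ) h2
  rw [rr_mul, rr_mul] at h3
  have h4 : rr ρ q = aeval F (rr ρ Q) := rr_aeval ρ F Q
  have h5 : rr ρ p = aeval F (rr ρ P) := rr_aeval ρ F P
  have hne : rr ρ q ≠ 0 := by
    intro h
    have h6 := congrArg (MvPolynomial.coeff m) h
    rw [coeff_rr, coeff_zero] at h6
    exact hρ h6
  rw [h4] at hne
  rw [h4, h5] at h3
  refine ⟨rr ρ P, rr ρ Q, ?_⟩
  have hne1 : algebraMap (MvPolynomial σ k) L₁ (aeval F (rr ρ Q)) ≠ 0 := by
    rw [Ne, map_eq_zero_iff _ hi1]; exact hne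
  rw [div_eq_div_iff hb1 hne1, ← map_mul, ← map_mul, h3, mul_comm]

end descent

section any

variable {k : Type*} [Field k] [CharZero k]

/-- **Theorem R, relative form.**  Let `F` be a plane polynomial map with invertible Jacobian over a field of
characteristic zero.  If `F 1` is a rational function of `F 0` and some `T ∈ k(X 0, X 1)`, then `T` is a rational
function of `F 0` and `F 1`. -/
theorem RM_any (F : Fin 2 → MvPolynomial (Fin 2) k) (hJ : IsUnit (Matrix.det (jac F)))
    (T : FractionRing (MvPolynomial (Fin 2) k))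
    (hT : algebraMap (MvPolynomial (Fin 2) k) (FractionRing (MvPolynomial (Fin 2) k)) (F 1) ∈
      IntermediateField.adjoin k {algebraMap (MvPolynomial (Fin 2) k) (FractionRing (MvPolynomial (Fin 2) k)) (F 0), T}) :
    T ∈ IntermediateField.adjoin k
      {algebraMap (MvPolynomial (Fin 2) k) (FractionRing (MvPolynomial (Fin 2) k)) (F 0),
        algebraMap (MvPolynomial (Fin 2) k) (FractionRing (MvPolynomial (Fin 2) k)) (F 1)} := by
  haveI : CharZero (AlgebraicClosure k) := charZero_of_injective_algebraMap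
    (algebraMap k (AlgebraicClosure k)).injective
  obtain ⟨φ, hφ, hφm, -⟩ := Pool.Agent.H922R2.EL.transport_gen (L₁ := FractionRing (MvPolynomial (Fin 2) k))
    (L₂ := FractionRing (MvPolynomial (Fin 2) (AlgebraicClosure k)))
    (mE k (AlgebraicClosure k) (Fin 2)) mE_inj
    (fun a => ⟨algebraMap k (AlgebraicClosure k) a, map_C _ _⟩) (fun i => ⟨X i, map_X _ _⟩)
  have h1 := hφm _ _ hT
  rw [Set.image_pair, hφ, hφ] at h1
  have h2 := RM_closed (fun i => mE k (AlgebraicClosure k) (Fin 2) (F i))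
    (jac_mE (E := AlgebraicClosure k) F hJ) (φ T) h1
  have hr : ∀ {A : Type _} (f : Fin 2 → A), Set.range f = {f 0, f 1} := by
    intro A f
    ext x
    simp only [Set.mem_range, Set.mem_insert_iff, Set.mem_singleton_iff]
    constructor
    · rintro ⟨i, rfl⟩
      fin_cases i
      · exact Or.inl rfl
      · exact Or.inr rfl
    · rintro (rfl | rfl)
      · exact ⟨0, rfl⟩
      · exact ⟨1, rfl⟩
  have h3 := descent_adjoin φ hφ F T (by rw [hr]; exact h2)
  rw [hr] at h3
  exact h3

end any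

end Pool.Agent.Y235.JC
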