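import Mathlib
import Pool.Agent.Y235.JC.M2
import Pool.Agent.H922R2.L10

set_option autoImplicit false
set_option linter.unusedSectionVars false
set_option linter.style.haveILetI false

open MvPolynomial

namespace Pool.Agent.Y235.JC

open Pool.Agent.H922R2 (jac SS fF mem_SS_of_mem_fF inverse_of_top tgt jac_tgt SS_tgt)

variable {k : Type*} [Field k] [CharZero k]

/-- images of polynomials in `F` lie in every field containing the components of `F` -/
theorem aeval_mem {σ : Type*} (L : Type*) [Field L] [Algebra (MvPolynomial σ k) L] [Algebra k L]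
    [IsScalarTower k (MvPolynomial σ k) L] (F : σ → MvPolynomial σ k) (M : IntermediateField k L)
    (hM : ∀ j, algebraMap (MvPolynomial σ k) L (F j) ∈ M) (p : MvPolynomial σ k) :
    algebraMap (MvPolynomial σ k) L (aeval F p) ∈ M := by
  induction p using MvPolynomial.induction_on with
  | C a =>
    rw [← MvPolynomial.algebraMap_eq, AlgHom.commutes, ← IsScalarTower.algebraMap_apply]
    exact M.algebraMap_mem a
  | add p q hp hq => rw [map_add, map_add]; exact add_mem hp hq
  | mul_X p i hp =>
    rw [map_mul, map_mul, aeval_X]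
    exact mul_mem hp (hM i)

theorem range_two {A : Type*} (f : Fin 2 → A) : Set.range f = {f 0, f 1} := by
  ext x
  simp only [Set.mem_range, Set.mem_insert_iff, Set.mem_singleton_iff]
  constructor
  · rintro ⟨i, rfl⟩
    fin_cases i
    · exact Or.inl rfl
    · exact Or.inr rfl
  · rintro (rfl | rfl)
    · exact ⟨0, rfl⟩
    · exact ⟨1, rfl⟩

/-- no intermediate field is rational over the field of a coordinate of the target -/
theorem RM_field (F : Fin 2 → MvPolynomial (Fin 2) k) (hJ : IsUnit (Matrix.det (jac F)))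
    (Φ : MvPolynomial (Fin 2) k ≃ₐ[k] MvPolynomial (Fin 2) k)
    (M : IntermediateField k (FractionRing (MvPolynomial (Fin 2) k)))
    (hM : ∀ j, algebraMap (MvPolynomial (Fin 2) k) (FractionRing (MvPolynomial (Fin 2) k)) (F j) ∈ M)
    (T : FractionRing (MvPolynomial (Fin 2) k))
    (hT : M = IntermediateField.adjoin k {algebraMap (MvPolynomial (Fin 2) k)
      (FractionRing (MvPolynomial (Fin 2) k)) (aeval F (Φ (X 0))), T}) :
    M = IntermediateField.adjoin k (Set.range fun j =>
        algebraMap (MvPolynomial (Fin 2) k) (FractionRing (MvPolynomial (Fin 2) k)) (F j)) ∧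
      (M = ⊤ → ∃ G : Fin 2 → MvPolynomial (Fin 2) k,
        (∀ j, aeval F (G j) = X j) ∧ (∀ j, aeval G (F j) = X j)) := by
  have hF' : ∀ i, tgt F Φ.symm i = aeval F (Φ (X i)) := fun i => rfl
  have hJ' := jac_tgt F hJ Φ.symm
  have h1 : algebraMap (MvPolynomial (Fin 2) k) (FractionRing (MvPolynomial (Fin 2) k)) (tgt F Φ.symm 1) ∈
      IntermediateField.adjoin k {algebraMap (MvPolynomial (Fin 2) k)
        (FractionRing (MvPolynomial (Fin 2) k)) (tgt F Φ.symm 0), T} := by
    rw [hF', hF', ← hT]
    exact aeval_mem _ F M hM _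
  have h2 := RM_any (tgt F Φ.symm) hJ' T h1
  have h3 : M = IntermediateField.adjoin k (Set.range fun j =>
      algebraMap (MvPolynomial (Fin 2) k) (FractionRing (MvPolynomial (Fin 2) k)) (F j)) := by
    set N := IntermediateField.adjoin k (Set.range fun j =>
      algebraMap (MvPolynomial (Fin 2) k) (FractionRing (MvPolynomial (Fin 2) k)) (F j)) with hN
    have hFN : ∀ j, algebraMap (MvPolynomial (Fin 2) k) (FractionRing (MvPolynomial (Fin 2) k)) (F j) ∈ N :=
      fun j => IntermediateField.subset_adjoin _ _ ⟨j, rfl⟩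
    apply le_antisymm
    · have h4 : IntermediateField.adjoin k
          {algebraMap (MvPolynomial (Fin 2) k) (FractionRing (MvPolynomial (Fin 2) k)) (tgt F Φ.symm 0),
            algebraMap (MvPolynomial (Fin 2) k) (FractionRing (MvPolynomial (Fin 2) k)) (tgt F Φ.symm 1)} ≤ N := by
        rw [IntermediateField.adjoin_le_iff]
        rintro z (rfl | rfl)
        · exact aeval_mem _ F N hFN _
        · exact aeval_mem _ F N hFN _
      rw [hT, IntermediateField.adjoin_le_iff]
      rintro z (rfl | rfl)
      · exact aeval_mem _ F N hFN _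
      · exact h4 h2
    · rw [hN, IntermediateField.adjoin_le_iff]
      rintro z ⟨j, rfl⟩
      exact hM j
  refine ⟨h3, fun htop => ?_⟩
  apply inverse_of_top F hJ
  rw [eq_top_iff]
  intro r _
  apply mem_SS_of_mem_fF (FractionRing (MvPolynomial (Fin 2) k)) F hJ r
  rw [fF, ← h3, htop]
  trivial

end Pool.Agent.Y235.JC
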