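import Mathlib
import Pool.Agent.H922R2.EL.FC
import Pool.Agent.H938R2.EL2.C

set_option autoImplicit false
set_option linter.unusedSectionVars false
set_option linter.style.haveILetI false

open MvPolynomial

namespace Pool.Agent.Y235.JC

open Pool.Agent.H922R2 (IsDer)
open Pool.Agent.H922R2.R

section lead

variable {R : Type*} [CommRing R]

theorem Lb_prod {ι : Type*} (s : Finset ι) (f : ι → HahnSeries ℚ R) (e : ι → ℚ)
    (h : ∀ i ∈ s, Lb (e i) (f i)) :
    Lb (∑ i ∈ s, e i) (∏ i ∈ s, f i) ∧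
      (∏ i ∈ s, f i).coeff (∑ i ∈ s, e i) = ∏ i ∈ s, (f i).coeff (e i) := by
  classical
  induction s using Finset.induction_on with
  | empty =>
    simp only [Finset.sum_empty, Finset.prod_empty]
    exact ⟨Lb_one, by rw [HahnSeries.coeff_one]; simp⟩
  | insert a s ha ih =>
    have h1 := ih fun i hi => h i (Finset.mem_insert_of_mem hi)
    have h2 := h a (Finset.mem_insert_self a s)
    rw [Finset.sum_insert ha, Finset.prod_insert ha, Finset.prod_insert ha]
    exact ⟨h2.mul h1.1, by rw [h2.coeff_mul h1.1, h1.2]⟩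

variable {τ A : Type*} [CommRing A]

/-- leading terms of the value of a monomial -/
theorem lf_monomial (ψ : MvPolynomial τ A →+* HahnSeries ℚ R) (φ : A →+* R)
    (hC : ∀ a, ψ (C a) = HahnSeries.C (φ a)) (w : τ → ℕ) (lam : ℚ)
    (hX : ∀ i, Lb (-(lam * w i)) (ψ (X i))) (m : τ →₀ ℕ) (a : A) :
    Lb (-(lam * Finsupp.weight w m)) (ψ (monomial m a)) ∧
      (ψ (monomial m a)).coeff (-(lam * Finsupp.weight w m)) =
        φ a * m.prod fun i n => ((ψ (X i)).coeff (-(lam * w i))) ^ n := by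
  have h1 : ψ (monomial m a) = HahnSeries.C (φ a) * ∏ i ∈ m.support, ψ (X i) ^ (m i) := by
    rw [monomial_eq, map_mul, hC, Finsupp.prod, map_prod]
    simp only [map_pow]
  have h2 := Lb_prod m.support (fun i => ψ (X i) ^ (m i)) (fun i => (m i : ℚ) * (-(lam * w i)))
    (fun i _ => (hX i).pow (m i))
  have h3 : ∑ i ∈ m.support, (m i : ℚ) * (-(lam * w i)) = -(lam * (Finsupp.weight w m : ℕ)) := by
    rw [Finsupp.weight_apply, Finsupp.sum]
    push_cast
    rw [Finset.mul_sum, ← Finset.sum_neg_distrib]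
    apply Finset.sum_congr rfl
    intro i _
    simp only [smul_eq_mul]
    push_cast
    ring
  rw [h3] at h2
  have h4 : (0 : ℚ) + -(lam * (Finsupp.weight w m : ℕ)) = -(lam * (Finsupp.weight w m : ℕ)) := zero_add _
  rw [h1]
  constructor
  · have := (Lb_C (φ a)).mul h2.1
    rwa [h4] at this
  · have := (Lb_C (φ a)).coeff_mul h2.1
    rw [h4] at this
    rw [this, HahnSeries.C_apply, HahnSeries.coeff_single, if_pos rfl, h2.2, Finsupp.prod]
    congr 1
    apply Finset.prod_congr rfl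
    intro i _
    exact (hX i).coeff_pow (m i)

/-- leading form of the value of a weighted homogeneous polynomial -/
theorem lf_homog (ψ : MvPolynomial τ A →+* HahnSeries ℚ R) (φ : A →+* R)
    (hC : ∀ a, ψ (C a) = HahnSeries.C (φ a)) (w : τ → ℕ) (lam : ℚ)
    (hX : ∀ i, Lb (-(lam * w i)) (ψ (X i))) (P : MvPolynomial τ A) (D : ℚ)
    (hP : ∀ m ∈ P.support, ((Finsupp.weight w m : ℕ) : ℚ) = D) :
    Lb (-(lam * D)) (ψ P) ∧
      (ψ P).coeff (-(lam * D)) = eval₂ φ (fun i => (ψ (X i)).coeff (-(lam * w i))) P := by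
  have h1 : ψ P = ∑ m ∈ P.support, ψ (monomial m (coeff m P)) := by
    conv_lhs => rw [P.as_sum]
    rw [map_sum]
  have h2 : ∀ m ∈ P.support, Lb (-(lam * D)) (ψ (monomial m (coeff m P))) ∧
      (ψ (monomial m (coeff m P))).coeff (-(lam * D)) =
        φ (coeff m P) * m.prod fun i n => ((ψ (X i)).coeff (-(lam * w i))) ^ n := by
    intro m hm
    have := lf_monomial ψ φ hC w lam hX m (coeff m P)
    rwa [hP m hm] at this
  rw [h1]
  refine ⟨Lb.sum fun m hm => (h2 m hm).1, ?_⟩
  rw [HahnSeries.coeff_sum, Finset.sum_congr rfl (fun m hm => (h2 m hm).2), eval₂_eq]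
  rfl

/-- values of polynomials of lower weight -/
theorem lf_low (ψ : MvPolynomial τ A →+* HahnSeries ℚ R) (φ : A →+* R)
    (hC : ∀ a, ψ (C a) = HahnSeries.C (φ a)) (w : τ → ℕ) (lam : ℚ) (hlam : 0 < lam)
    (hX : ∀ i, Lb (-(lam * w i)) (ψ (X i))) (P : MvPolynomial τ A) (D : ℚ)
    (hP : ∀ m ∈ P.support, ((Finsupp.weight w m : ℕ) : ℚ) < D) :
    Lb (-(lam * D)) (ψ P) ∧ (ψ P).coeff (-(lam * D)) = 0 := by
  have h1 : ψ P = ∑ m ∈ P.support, ψ (monomial m (coeff m P)) := by
    conv_lhs => rw [P.as_sum]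
    rw [map_sum]
  have h2 : ∀ m ∈ P.support, Lb (-(lam * D)) (ψ (monomial m (coeff m P))) ∧
      (ψ (monomial m (coeff m P))).coeff (-(lam * D)) = 0 := by
    intro m hm
    have h3 := (lf_monomial ψ φ hC w lam hX m (coeff m P)).1
    have h4 : -(lam * D) < -(lam * (Finsupp.weight w m : ℕ)) := by
      have := mul_lt_mul_of_pos_left (hP m hm) hlam
      linarith
    exact ⟨h3.mono h4.le, h3 _ h4⟩
  rw [h1]
  refine ⟨Lb.sum fun m hm => (h2 m hm).1, ?_⟩
  rw [HahnSeries.coeff_sum]
  exact Finset.sum_eq_zero fun m hm => (h2 m hm).2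

end lead

section der

variable {A : Type*} [CommRing A] {τ : Type*} [Fintype τ] [DecidableEq τ] {L : Type*} [CommRing L]

/-- chain rule for `IsDer` maps -/
theorem der_eval₂ (D : L → L) (hD : IsDer D) (φ : A →+* L) (hφ : ∀ a, D (φ a) = 0) (f : τ → L)
    (P : MvPolynomial τ A) :
    D (eval₂ φ f P) = ∑ t, eval₂ φ f (pderiv t P) * D (f t) := by
  induction P using MvPolynomial.induction_on with
  | C a => simp [hφ]
  | add p q hp hq =>
    rw [eval₂_add, hD.add, hp, hq, ← Finset.sum_add_distrib]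
    apply Finset.sum_congr rfl
    intro t _
    rw [map_add, eval₂_add, add_mul]
  | mul_X p i hp =>
    rw [eval₂_mul, eval₂_X, hD.mul, hp]
    have h1 : ∀ t, eval₂ φ f (pderiv t (p * X i)) * D (f t) =
        eval₂ φ f p * ((if t = i then 1 else 0) * D (f t)) + f i * (eval₂ φ f (pderiv t p) * D (f t)) := by
      intro t
      rw [Derivation.leibniz, smul_eq_mul, smul_eq_mul, eval₂_add, eval₂_mul, eval₂_mul, eval₂_X]
      split_ifs with h
      · subst h
        rw [pderiv_X_self, eval₂_one]; ring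
      · rw [pderiv_X_of_ne (Ne.symm h), eval₂_zero]; ring
    rw [Finset.sum_congr rfl (fun t _ => h1 t), Finset.sum_add_distrib, ← Finset.mul_sum, ← Finset.mul_sum]
    simp only [ite_mul, one_mul, zero_mul, Finset.sum_ite_eq', Finset.mem_univ, if_true]

end der

end Pool.Agent.Y235.JC
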