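import Mathlib
import Pool.Agent.Y235.JC.P1

set_option autoImplicit false
set_option linter.unusedSectionVars false
set_option linter.style.haveILetI false

open MvPolynomial

namespace Pool.Agent.Y235.JC

open Pool.Agent.H922R2 (IsDer)
open Pool.Agent.H922R2.R
open Pool.Agent.H922R2.EL (OV)

section wle

variable {τ A : Type*} [CommRing A]

/-- all monomials have weight at most `a` -/
def Wle (w : τ → ℕ) (a : ℤ) (P : MvPolynomial τ A) : Prop :=
  ∀ m ∈ P.support, ((Finsupp.weight w m : ℕ) : ℤ) ≤ a

variable {w : τ → ℕ} {a b : ℤ} {P Q : MvPolynomial τ A}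

theorem Wle.mono (h : Wle w a P) (hab : a ≤ b) : Wle w b P := fun m hm => (h m hm).trans hab

theorem Wle.zero (a : ℤ) : Wle w a (0 : MvPolynomial τ A) := by
  intro m hm; simp at hm

theorem Wle.add (hP : Wle w a P) (hQ : Wle w a Q) : Wle w a (P + Q) := by
  classical
  intro m hm
  rcases Finset.mem_union.1 (support_add hm) with h | h
  · exact hP m h
  · exact hQ m h

theorem Wle.neg (hP : Wle w a P) : Wle w a (-P) := by
  intro m hm
  rw [support_neg] at hm
  exact hP m hm

theorem Wle.sub (hP : Wle w a P) (hQ : Wle w a Q) : Wle w a (P - Q) := by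
  rw [sub_eq_add_neg]; exact hP.add hQ.neg

theorem Wle.mul (hP : Wle w a P) (hQ : Wle w b Q) : Wle w (a + b) (P * Q) := by
  classical
  intro m hm
  have h1 := support_mul P Q hm
  rw [Finset.mem_add] at h1
  obtain ⟨x, hx, y, hy, rfl⟩ := h1
  rw [map_add]
  push_cast
  exact add_le_add (hP x hx) (hQ y hy)

theorem Wle.C (c : A) : Wle w 0 (MvPolynomial.C c : MvPolynomial τ A) := by
  classical
  intro m hm
  rw [mem_support_iff, coeff_C] at hm
  have : m = 0 := by
    by_contra h
    exact hm (if_neg (Ne.symm h))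
  rw [this, map_zero]; simp

theorem Wle.one : Wle w 0 (1 : MvPolynomial τ A) := by
  rw [← C_1]; exact Wle.C 1

theorem Wle.sum {ι : Type*} (s : Finset ι) (f : ι → MvPolynomial τ A) (h : ∀ i ∈ s, Wle w a (f i)) :
    Wle w a (∑ i ∈ s, f i) := by
  classical
  induction s using Finset.induction_on with
  | empty => rw [Finset.sum_empty]; exact Wle.zero a
  | insert x s hx ih =>
    rw [Finset.sum_insert hx]
    exact (h x (Finset.mem_insert_self _ _)).add (ih fun i hi => h i (Finset.mem_insert_of_mem hi))

theorem Wle.prod {ι : Type*} (s : Finset ι) (f : ι → MvPolynomial τ A) (a : ι → ℤ)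
    (h : ∀ i ∈ s, Wle w (a i) (f i)) : Wle w (∑ i ∈ s, a i) (∏ i ∈ s, f i) := by
  classical
  induction s using Finset.induction_on with
  | empty => rw [Finset.sum_empty, Finset.prod_empty]; exact Wle.one
  | insert x s hx ih =>
    rw [Finset.sum_insert hx, Finset.prod_insert hx]
    exact (h x (Finset.mem_insert_self _ _)).mul (ih fun i hi => h i (Finset.mem_insert_of_mem hi))

theorem Wle.det {r : ℕ} (M : Matrix (Fin r) (Fin r) (MvPolynomial τ A)) (a b : Fin r → ℤ)
    (h : ∀ i j, Wle w (a i - b j) (M i j)) : Wle w (∑ i, a i - ∑ j, b j) M.det := by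
  rw [Matrix.det_apply]
  apply Wle.sum
  intro σ _
  have h1 : Wle w (∑ i, (a (σ i) - b i)) (∏ i, M (σ i) i) := Wle.prod _ _ _ fun i _ => h (σ i) i
  rw [Finset.sum_sub_distrib, Equiv.sum_comp σ a] at h1
  rcases Int.units_eq_one_or (Equiv.Perm.sign σ) with hs | hs
  · rw [hs, one_smul]; exact h1
  · rw [hs, Units.neg_smul, one_smul]; exact h1.neg

theorem mem_support_pderiv [DecidableEq τ] {o : τ} {m : τ →₀ ℕ} (h : m ∈ (pderiv o P).support) :
    m + Finsupp.single o 1 ∈ P.support := by
  rw [mem_support_iff] at h ⊢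
  intro h0
  apply h
  rw [coeff_pderiv, h0, zero_mul]

theorem Wle.pderiv (hP : Wle w a P) (o : τ) : Wle w (a - w o) (MvPolynomial.pderiv o P) := by
  classical
  intro m hm
  have h1 := hP _ (mem_support_pderiv hm)
  rw [map_add, Finsupp.weight_single] at h1
  push_cast at h1
  simp only [smul_eq_mul, one_mul] at h1
  linarith

/-- polynomials of negative weight vanish -/
theorem Wle.eq_zero (hP : Wle w a P) (ha : a < 0) : P = 0 := by
  rw [← support_eq_empty]
  by_contra h
  obtain ⟨m, hm⟩ := Finset.nonempty_iff_ne_empty.2 h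
  have := hP m hm
  have : (0 : ℤ) ≤ ((Finsupp.weight w m : ℕ) : ℤ) := Int.natCast_nonneg _
  linarith

end wle

section graded

variable {τ K : Type*} [CommRing K]

theorem comp_mul (w : τ → ℕ) (q : MvPolynomial τ K) (d D : ℕ) (hq : IsWeightedHomogeneous w q d)
    (b : MvPolynomial τ K) :
    weightedHomogeneousComponent w D (b * q) =
      if d ≤ D then weightedHomogeneousComponent w (D - d) b * q else 0 := by
  classical
  induction b using MvPolynomial.induction_on' with
  | monomial m a =>
    have h1 : IsWeightedHomogeneous w (monomial m a * q) (Finsupp.weight w m + d) :=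
      (isWeightedHomogeneous_monomial w m a rfl).mul hq
    have h2 : IsWeightedHomogeneous w (monomial m a) (Finsupp.weight w m) :=
      isWeightedHomogeneous_monomial w m a rfl
    by_cases hD : Finsupp.weight w m + d = D
    · rw [if_pos (by omega), ← hD, h1.weightedHomogeneousComponent_same, Nat.add_sub_cancel,
        h2.weightedHomogeneousComponent_same]
    · rw [h1.weightedHomogeneousComponent_ne _ (Ne.symm hD)]
      split_ifs with h
      · rw [h2.weightedHomogeneousComponent_ne _ (by omega), zero_mul]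
      · rfl
  | add p p' hp hp' =>
    rw [add_mul, map_add, hp, hp']
    split_ifs with h
    · rw [map_add, add_mul]
    · rw [add_zero]

/-- homogeneous elements of an ideal generated by homogeneous elements -/
theorem graded_mem {ι : Type*} [Fintype ι] (w : τ → ℕ) (q : ι → MvPolynomial τ K) (d : ι → ℕ)
    (hq : ∀ i, IsWeightedHomogeneous w (q i) (d i)) (p : MvPolynomial τ K) (D : ℕ)
    (hp : IsWeightedHomogeneous w p D) (hmem : p ∈ Ideal.span (Set.range q)) :
    ∃ b : ι → MvPolynomial τ K, (∀ i, Wle w ((D : ℤ) - d i) (b i)) ∧ p = ∑ i, b i * q i := by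
  classical
  obtain ⟨b, hb⟩ := (Ideal.mem_span_range_iff_exists_fun).1 hmem
  refine ⟨fun i => if d i ≤ D then weightedHomogeneousComponent w (D - d i) (b i) else 0, ?_, ?_⟩
  · intro i
    dsimp only
    split_ifs with h
    · intro m hm
      have h1 := (weightedHomogeneousComponent_isWeightedHomogeneous (D - d i) (b i)) (mem_support_iff.1 hm)
      rw [h1]
      omega
    · exact Wle.zero _
  · have h1 := hp.weightedHomogeneousComponent_same
    rw [← h1]
    conv_lhs => rw [← hb]
    rw [map_sum]
    apply Finset.sum_congr rfl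
    intro i _
    rw [comp_mul w (q i) (d i) D (hq i) (b i)]
    by_cases h : d i ≤ D
    · simp only [if_pos h]
    · simp only [if_neg h, zero_mul]

end graded

section ov

variable {k L : Type*} [Field k] [CharZero k] [Field L] [Algebra k L] {V : OV k L}

theorem OV_ge_prod {ι : Type*} (s : Finset ι) (f : ι → L) (e : ι → ℚ) (h : ∀ i ∈ s, V.ge (e i) (f i)) :
    V.ge (∑ i ∈ s, e i) (∏ i ∈ s, f i) := by
  classical
  induction s using Finset.induction_on with
  | empty => rw [Finset.sum_empty, Finset.prod_empty]; right; rw [V.one]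
  | insert a s ha ih =>
    rw [Finset.sum_insert ha, Finset.prod_insert ha]
    exact (h a (Finset.mem_insert_self a s)).mul (ih fun i hi => h i (Finset.mem_insert_of_mem hi))

theorem OV_ge_sum {ι : Type*} (s : Finset ι) (f : ι → L) (e : ℚ) (h : ∀ i ∈ s, V.ge e (f i)) :
    V.ge e (∑ i ∈ s, f i) := by
  classical
  induction s using Finset.induction_on with
  | empty => rw [Finset.sum_empty]; exact V.ge_zero _
  | insert a s ha ih =>
    rw [Finset.sum_insert ha]
    exact (h a (Finset.mem_insert_self a s)).add (ih fun i hi => h i (Finset.mem_insert_of_mem hi))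

/-- orders of values of polynomials of bounded weight -/
theorem OV_ge_eval {τ A : Type*} [CommRing A] (φ : A →+* L) (hφ : ∀ a, V.ge 0 (φ a)) (w : τ → ℕ) (μ : ℚ)
    (hμ : 0 ≤ μ) (f : τ → L) (hf : ∀ o, V.ge (-(μ * w o)) (f o)) (P : MvPolynomial τ A) (a : ℤ)
    (hP : Wle w a P) : V.ge (-(μ * a)) (eval₂ φ f P) := by
  rw [eval₂_eq]
  apply OV_ge_sum
  intro m hm
  have h1 := OV_ge_prod (V := V) m.support (fun i => f i ^ m i) (fun i => (m i : ℚ) * (-(μ * w i)))
    (fun i _ => (hf i).pow (m i))
  have h3 : ∑ i ∈ m.support, (m i : ℚ) * (-(μ * w i)) = -(μ * (Finsupp.weight w m : ℕ)) := by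
    rw [Finsupp.weight_apply, Finsupp.sum]
    push_cast
    rw [Finset.mul_sum, ← Finset.sum_neg_distrib]
    apply Finset.sum_congr rfl
    intro i _
    simp only [smul_eq_mul]
    push_cast
    ring
  rw [h3] at h1
  have h2 := (hφ (coeff m P)).mul h1
  apply h2.mono
  rw [zero_add]
  have h4 : ((Finsupp.weight w m : ℕ) : ℚ) ≤ a := by exact_mod_cast hP m hm
  have := mul_le_mul_of_nonneg_left h4 hμ
  linarith

/-- integrality with weights -/
theorem OV_reg {A : Type*} [CommRing A] (r : ℕ) (φ : A →+* L) (hφ : ∀ a, V.ge 0 (φ a))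
    (kA : k →+* A) (hkA : ∀ a, φ (kA a) = algebraMap k L a)
    (w : Option (Fin r) → ℕ) (hw : ∀ o, 0 < w o) (d : Fin r → ℕ)
    (Φ : Fin r → MvPolynomial (Option (Fin r)) A) (Φ0 : Fin r → MvPolynomial (Option (Fin r)) k) (c : Fin r → A)
    (hc : ∀ i, φ (c i) ≠ 0 ∧ V.o (φ (c i)) = 0)
    (hΦ0 : ∀ i, IsWeightedHomogeneous w (Φ0 i) (d i))
    (htop : ∀ i, Wle w ((d i : ℤ) - 1) (Φ i - C (c i) * map kA (Φ0 i)))
    (h2 : ∀ j, ∃ n : ℕ, (X (some j) : MvPolynomial (Option (Fin r)) k) ^ n ∈
      Ideal.span (Set.range (fun o : Option (Fin r) => o.elim (X none) Φ0)))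
    (f : Option (Fin r) → L) (hf : ∀ i, eval₂ φ f (Φ i) = 0)
    (lam : ℚ) (hlam : 0 ≤ lam) (hv : V.ge (-(lam * w none)) (f none)) (j : Fin r) :
    V.ge (-(lam * w (some j))) (f (some j)) := by
  classical
  by_contra hcon
  -- the maximal slope
  set sl : Option (Fin r) → ℚ := fun o => if f o = 0 then 0 else -(V.o (f o)) / w o with hsl
  obtain ⟨o0, -, ho0⟩ := Finset.exists_max_image (Finset.univ : Finset (Option (Fin r))) sl ⟨some j, Finset.mem_univ _⟩
  set μ := sl o0 with hμ
  have hwq : ∀ o, (0 : ℚ) < w o := fun o => by exact_mod_cast hw o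
  have hj0 : f (some j) ≠ 0 := fun h => hcon (Or.inl h)
  have hjs : lam < sl (some j) := by
    rw [hsl]
    dsimp only
    rw [if_neg hj0, lt_div_iff₀ (hwq _)]
    rw [V.ge_iff hj0] at hcon
    push Not at hcon
    linarith
  have hμl : lam < μ := lt_of_lt_of_le hjs (ho0 _ (Finset.mem_univ _))
  have hμ0 : 0 < μ := lt_of_le_of_lt hlam hμl
  have hall : ∀ o, V.ge (-(μ * w o)) (f o) := by
    intro o
    by_cases h0 : f o = 0
    · exact Or.inl h0
    · right
      have h1 := ho0 o (Finset.mem_univ _)
      rw [hsl] at h1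
      dsimp only at h1
      rw [if_neg h0, div_le_iff₀ (hwq o)] at h1
      linarith
  have hf0 : f o0 ≠ 0 := by
    intro h
    rw [hμ, hsl] at hμ0
    dsimp only at hμ0
    rw [if_pos h] at hμ0
    exact lt_irrefl _ hμ0
  have hμe : V.o (f o0) = -(μ * w o0) := by
    have : μ = -(V.o (f o0)) / w o0 := by
      rw [hμ, hsl]; dsimp only; rw [if_neg hf0]
    rw [this, div_mul_cancel₀ _ (hwq o0).ne']; ring
  cases o0 with
  | none =>
    rw [V.ge_iff hf0, hμe] at hv
    have := mul_lt_mul_of_pos_right hμl (hwq none)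
    linarith
  | some l =>
    obtain ⟨n, hn⟩ := h2 l
    set q : Option (Fin r) → MvPolynomial (Option (Fin r)) k := fun o : Option (Fin r) => o.elim (X none) Φ0 with hq
    have hqh : ∀ o, IsWeightedHomogeneous w (q o) (o.elim (w none) d) := by
      intro o
      cases o with
      | none => exact isWeightedHomogeneous_X k w none
      | some i => exact hΦ0 i
    have hXh : IsWeightedHomogeneous w ((X (some l) : MvPolynomial (Option (Fin r)) k) ^ n) (n • w (some l)) :=
      (isWeightedHomogeneous_X k w (some l)).pow n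
    obtain ⟨b, hb, he⟩ := graded_mem w q _ hqh _ _ hXh hn
    have hk0 : ∀ a : k, V.ge 0 (algebraMap k L a) := fun a => V.ge_cst a
    have hval : ∀ o, V.ge (-(μ * (n • w (some l) : ℕ)) + min ((μ - lam) * w none) μ)
        (eval₂ (algebraMap k L) f (b o * q o)) := by
      intro o
      rw [eval₂_mul]
      have hbo := OV_ge_eval (V := V) (algebraMap k L) hk0 w μ hμ0.le f hall (b o) _ (hb o)
      cases o with
      | none =>
        have h1 : eval₂ (algebraMap k L) f (q none) = f none := by
          rw [hq]; exact eval₂_X _ _ _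
        rw [h1]
        apply (hbo.mul hv).mono
        have h3 : ((((n • w (some l) : ℕ) : ℤ) - ((Option.elim none (w none) d : ℕ) : ℤ) : ℤ) : ℚ) =
          ((n • w (some l) : ℕ) : ℚ) - w none := by push_cast; rfl
        rw [h3]
        have h4 := min_le_left ((μ - lam) * w none) μ
        linarith
      | some i =>
        have h1 : eval₂ (algebraMap k L) f (q (some i)) = eval₂ (algebraMap k L) f (Φ0 i) := rfl
        rw [h1]
        have h5 : φ (c i) * eval₂ (algebraMap k L) f (Φ0 i) = -eval₂ φ f (Φ i - C (c i) * map kA (Φ0 i)) := by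
          rw [eval₂_sub, hf i, eval₂_mul, eval₂_C, eval₂_map]
          have : φ.comp kA = algebraMap k L := RingHom.ext hkA
          rw [this]; ring
        have h6 := (OV_ge_eval (V := V) φ hφ w μ hμ0.le f hall _ _ (htop i)).neg
        rw [← h5] at h6
        have h7 : V.ge (-(μ * ((d i : ℤ) - 1 : ℤ))) (eval₂ (algebraMap k L) f (Φ0 i)) := by
          have h8 := h6.div (hc i).1
          rw [(hc i).2, sub_zero, mul_div_cancel_left₀ _ (hc i).1] at h8
          exact h8
        apply (hbo.mul h7).mono
        have h3 : ((((n • w (some l) : ℕ) : ℤ) - ((Option.elim (some i) (w none) d : ℕ) : ℤ) : ℤ) : ℚ) =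
          ((n • w (some l) : ℕ) : ℚ) - d i := by push_cast; rfl
        rw [h3]
        have h4 := min_le_right ((μ - lam) * w none) μ
        push_cast
        push_cast at h4
        linarith
    have hsum := OV_ge_sum (V := V) Finset.univ (fun o => eval₂ (algebraMap k L) f (b o * q o)) _ (fun o _ => hval o)
    have h9 : ∑ o, eval₂ (algebraMap k L) f (b o * q o) = f (some l) ^ n := by
      rw [← eval₂_sum, ← he, eval₂_pow, eval₂_X]
    rw [h9, V.ge_iff (pow_ne_zero _ hf0), V.pow _ hf0, hμe] at hsum
    have h10 : 0 < min ((μ - lam) * w none) μ := lt_min (mul_pos (by linarith) (hwq none)) hμ0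
    rw [smul_eq_mul] at hsum
    push_cast at hsum
    linarith

end ov

end Pool.Agent.Y235.JC
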