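import Mathlib
import Pool.Agent.Y235.JC.P2

set_option autoImplicit false
set_option linter.unusedSectionVars false
set_option linter.style.haveILetI false

open MvPolynomial

namespace Pool.Agent.Y235.JC

open Pool.Agent.H922R2 (IsDer)
open Pool.Agent.H922R2.R
open Pool.Agent.H922R2.EL (OV VP VG DL DL_isDer DL_alg VP_kap VG_kap VG_o vpo_eq VP_alg alg_ne)
open Pool.Agent.H938R2.EL2 (dK dK_isDer dK_alg dK_const)

/-- a weighted complete intersection, with constant top form, in coordinates `V = X none`, `Z_j = X (some j)` over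
`k[U]` -/
structure CI (k : Type*) [Field k] (r : ℕ) where
  w : Option (Fin r) → ℕ
  hw : ∀ o, 0 < w o
  d : Fin r → ℕ
  Φ : Fin r → MvPolynomial (Option (Fin r)) (Polynomial k)
  Φ0 : Fin r → MvPolynomial (Option (Fin r)) k
  c : Fin r → Polynomial k
  hc : ∀ i, c i ≠ 0
  hΦ0 : ∀ i, IsWeightedHomogeneous w (Φ0 i) (d i)
  htop : ∀ i, Wle w ((d i : ℤ) - 1) (Φ i - C (c i) * map Polynomial.C (Φ0 i))
  h2 : ∀ j, ∃ n : ℕ, (X (some j) : MvPolynomial (Option (Fin r)) k) ^ n ∈
      Ideal.span (Set.range (fun o : Option (Fin r) => o.elim (X none) Φ0))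
  h3 : ∃ n : ℕ, (X none : MvPolynomial (Option (Fin r)) k) ^ n ∈
      Ideal.span (Set.range (fun o : Option (Fin r) =>
        o.elim (Matrix.det (Matrix.of fun i j => pderiv (some j) (Φ0 i))) Φ0))
  h4 : ∃ s : Polynomial k, s ≠ 0 ∧ (C s : MvPolynomial (Option (Fin r)) (Polynomial k)) ∈
      Ideal.span (Set.range Φ ∪ Set.range fun e : Fin r → Option (Fin r) =>
        Matrix.det (Matrix.of fun i j => pderiv (e j) (Φ i)))

section hahn

variable {R : Type*} [CommRing R]

theorem Lb_det {r : ℕ} (M : Matrix (Fin r) (Fin r) (HahnSeries ℚ R)) (a b : Fin r → ℚ)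
    (h : ∀ i j, Lb (a i - b j) (M i j)) :
    Lb (∑ i, a i - ∑ j, b j) M.det ∧
      M.det.coeff (∑ i, a i - ∑ j, b j) = Matrix.det (Matrix.of fun i j => (M i j).coeff (a i - b j)) := by
  have key : ∀ σ : Equiv.Perm (Fin r), Lb (∑ i, a i - ∑ j, b j) (∏ i, M (σ i) i) ∧
      (∏ i, M (σ i) i).coeff (∑ i, a i - ∑ j, b j) = ∏ i, (M (σ i) i).coeff (a (σ i) - b i) := by
    intro σ
    have h1 := Lb_prod Finset.univ (fun i => M (σ i) i) (fun i => a (σ i) - b i) (fun i _ => h (σ i) i)
    rw [Finset.sum_sub_distrib, Equiv.sum_comp σ a] at h1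
    exact h1
  rw [Matrix.det_apply, Matrix.det_apply]
  constructor
  · apply Lb.sum
    intro σ _
    rcases Int.units_eq_one_or (Equiv.Perm.sign σ) with hs | hs
    · rw [hs, one_smul]; exact (key σ).1
    · rw [hs, Units.neg_smul, one_smul]; exact (key σ).1.neg
  · rw [HahnSeries.coeff_sum]
    apply Finset.sum_congr rfl
    intro σ _
    rcases Int.units_eq_one_or (Equiv.Perm.sign σ) with hs | hs
    · rw [hs, one_smul, one_smul, (key σ).2]; rfl
    · rw [hs, Units.neg_smul, one_smul, Units.neg_smul, one_smul, HahnSeries.coeff_neg, (key σ).2]; rfl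

end hahn

section core

variable {k : Type*} [Field k] [CharZero k] [IsAlgClosed k] {u v : MvPolynomial (Fin 2) k}
variable {L : Type*} [Field L] [Algebra (MvPolynomial (Fin 2) k) L] [IsFractionRing (MvPolynomial (Fin 2) k) L]
  [Algebra k L] [IsScalarTower k (MvPolynomial (Fin 2) k) L]

variable (L u) in
/-- `k[U] → L`, `U ↦ u` -/
noncomputable def phL : Polynomial k →+* L := (algebraMap (MvPolynomial (Fin 2) k) L).comp (uP u)

theorem phL_apply (s : Polynomial k) : phL u L s = algebraMap (MvPolynomial (Fin 2) k) L (uP u s) := rfl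

theorem phL_kap (hu : Function.Injective (uP u)) (s : Polynomial k) :
    phL u L s = kap L hu (algebraMap (Polynomial k) (KK k) s) := (kap_algebraMap hu s).symm

theorem phL_C (a : k) : phL u L (Polynomial.C a) = algebraMap k L a := by
  rw [phL_apply, uP_C, ← MvPolynomial.algebraMap_eq, ← IsScalarTower.algebraMap_apply]

theorem phL_ne (hu : Function.Injective (uP u)) (s : Polynomial k) (hs : s ≠ 0) : phL u L s ≠ 0 := by
  rw [phL_apply]
  exact alg_ne (by rw [Ne, map_eq_zero_iff _ hu]; exact hs)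

theorem akm_of_horizontal (z : L)
    (h : ∀ (π : MvPolynomial (Fin 2) k) (hπ : Prime π), (∀ c : k, ¬ π ∣ u - C c) → (VP L hπ).ge 0 z) : AKm u z := by
  by_cases hz : z = 0
  · rw [hz, ← map_zero (algebraMap (MvPolynomial (Fin 2) k) L)]; exact AKm.alg 0
  obtain ⟨n, ⟨d, hd0'⟩, hrel, hnd⟩ := IsFractionRing.exists_reduced_fraction (A := MvPolynomial (Fin 2) k) z
  have hd0 : d ≠ 0 := nonZeroDivisors.ne_zero hd0'
  have hzd : z * (algebraMap (MvPolynomial (Fin 2) k) L) d = (algebraMap (MvPolynomial (Fin 2) k) L) n := by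
    rw [← hnd]; exact IsLocalization.mk'_spec L n ⟨d, hd0'⟩
  refine ⟨d, n, ⟨hd0, fun π hπ hπd => ?_⟩, hzd⟩
  by_contra hcon
  push Not at hcon
  have h1 := h π hπ hcon
  rw [OV.ge_iff _ hz] at h1
  have h2 : (VP L hπ).o z = (multiplicity π n : ℚ) - (multiplicity π d : ℚ) := vpo_eq hπ z hz n d hd0 hzd
  have hπn : ¬ π ∣ n := fun h => hπ.not_isUnit (hrel h hπd)
  have h3 : multiplicity π n = 0 := by
    by_contra h0
    have h4 := pow_dvd_of_le_multiplicity (show 1 ≤ multiplicity π n by omega)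
    rw [pow_one] at h4
    exact hπn h4
  have h4 : 1 ≤ multiplicity π d := by
    rw [← (Pool.Agent.H922R2.EL.fm hπ hd0).pow_dvd_iff_le_multiplicity, pow_one]
    exact hπd
  rw [h2, h3] at h1
  have h5 : (1 : ℚ) ≤ multiplicity π d := by exact_mod_cast h4
  simp only [Nat.cast_zero] at h1
  linarith

/-- the ring of fractions with vertical denominators -/
def AKS (L : Type*) [Field L] [Algebra (MvPolynomial (Fin 2) k) L] [IsFractionRing (MvPolynomial (Fin 2) k) L]
    [Algebra k L] [IsScalarTower k (MvPolynomial (Fin 2) k) L] (u : MvPolynomial (Fin 2) k) : Subring L where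
  carrier := {z | AKm u z}
  mul_mem' := fun h1 h2 => AKm.mul h1 h2
  one_mem' := by
    change AKm u (1 : L)
    rw [← map_one (algebraMap (MvPolynomial (Fin 2) k) L)]; exact AKm.alg 1
  add_mem' := fun h1 h2 => AKm.add h1 h2
  zero_mem' := by
    change AKm u (0 : L)
    rw [← map_zero (algebraMap (MvPolynomial (Fin 2) k) L)]; exact AKm.alg 0
  neg_mem' := fun h => AKm.neg h

theorem mem_AKS {z : L} : z ∈ AKS L u ↔ AKm u z := Iff.rfl

theorem AKm.det {r : ℕ} (M : Matrix (Fin r) (Fin r) L) (h : ∀ i j, AKm u (M i j)) : AKm u M.det := by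
  rw [← mem_AKS, Matrix.det_apply]
  apply sum_mem
  intro σ _
  have h1 : ∏ i, M (σ i) i ∈ AKS L u := prod_mem fun i _ => h (σ i) i
  rcases Int.units_eq_one_or (Equiv.Perm.sign σ) with hs | hs
  · rw [hs, one_smul]; exact h1
  · rw [hs, Units.neg_smul, one_smul]; exact neg_mem h1

theorem AKm.DL' {z : L} (h : AKm u z) : AKm u (DL L u z) := by
  obtain ⟨d, n, hd, he⟩ := h
  refine ⟨d ^ 2, d * Jb u n - n * Jb u d, hd.pow 2, ?_⟩
  have h1 := Pool.Agent.H922R2.EL.ext_frac (DL L u) (DL_isDer u) z n d he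
  rw [map_pow, h1, DL_alg, DL_alg]
  simp only [map_sub, map_mul]

theorem DL_kap (hu : Function.Injective (uP u)) (x : KK k) : DL L u (kap L hu x) = 0 := by
  obtain ⟨a, b, hb, rfl⟩ := IsFractionRing.div_surjective (A := Polynomial k) x
  have hb0 : b ≠ 0 := nonZeroDivisors.ne_zero hb
  have h1 := phL_ne (L := L) hu b hb0
  rw [map_div₀, ← phL_kap, ← phL_kap, Pool.Agent.H922R2.EL.der_div (DL_isDer u) _ _ h1, phL_apply, phL_apply,
    DL_alg, DL_alg, Jb_uP, Jb_uP]
  simp

/-- the kernel of the derivation is `k(u)` -/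
theorem DL_ker (g : GP u) (hu : Function.Injective (uP u)) (z : L) (h : DL L u z = 0) : ∃ x : KK k, z = kap L hu x := by
  have h1 := Pool.Agent.H922R2.EL.GP.jDL g z
  rw [h, map_zero, zero_mul] at h1
  refine ⟨(g.j L z).coeff 0, ?_⟩
  apply g.j_inj
  rw [g.j_kap]
  ext1; funext q
  rw [HahnSeries.C_apply, HahnSeries.coeff_single]
  split_ifs with hq
  · rw [hq]
  · have h2 := congrArg (fun z => HahnSeries.coeff z q) h1
    simp only [eul_coeff, HahnSeries.coeff_zero] at h2
    refine (mul_eq_zero.1 h2).resolve_left ?_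
    rw [map_eq_zero_iff _ (algebraMap k (KK k)).injective]
    exact_mod_cast hq

theorem exists_anti (P : Polynomial (KK k)) : ∃ Q : Polynomial (KK k), Polynomial.derivative Q = P := by
  induction P using Polynomial.induction_on' with
  | add p q hp hq =>
    obtain ⟨p', hp'⟩ := hp
    obtain ⟨q', hq'⟩ := hq
    exact ⟨p' + q', by rw [map_add, hp', hq']⟩
  | monomial n a =>
    refine ⟨Polynomial.monomial (n + 1) (a / (n + 1)), ?_⟩
    rw [Polynomial.derivative_monomial, Nat.add_sub_cancel]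
    have : ((n : KK k) + 1) ≠ 0 := by exact_mod_cast Nat.succ_ne_zero n
    congr 1
    push_cast
    field_simp

/-- locally nilpotent elements are polynomials in `v` over `k(u)` -/
theorem DL_nil (g : GP u) (hu : Function.Injective (uP u)) (δ : k) (hδ : δ ≠ 0) (hJ : Jb u v = C δ) (n : ℕ) :
    ∀ z : L, (DL L u)^[n] z = 0 → ∃ P : Polynomial (KK k), z = P.eval₂ (kap L hu) (algebraMap _ L v) := by
  induction n with
  | zero => intro z hz; exact ⟨0, by rw [Polynomial.eval₂_zero]; exact hz⟩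
  | succ n ih =>
    intro z hz
    rw [Function.iterate_succ_apply] at hz
    obtain ⟨P, hP⟩ := ih _ hz
    obtain ⟨Q, hQ⟩ := exists_anti P
    have h1 : DL L u (Q.eval₂ (kap L hu) (algebraMap _ L v)) =
        P.eval₂ (kap L hu) (algebraMap _ L v) * algebraMap k L δ := by
      rw [IsDer.eval₂ (DL_isDer u) (kap L hu) (fun a => DL_kap hu a), hQ, DL_alg, hJ,
        ← MvPolynomial.algebraMap_eq, ← IsScalarTower.algebraMap_apply]
    have hδ1 : algebraMap k L δ ≠ 0 := by rw [Ne, map_eq_zero]; exact hδ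
    have h2 : DL L u (z - kap L hu (algebraMap k (KK k) δ⁻¹) * Q.eval₂ (kap L hu) (algebraMap _ L v)) = 0 := by
      rw [Pool.Agent.H922R2.EL.der_sub (DL_isDer u), (DL_isDer u).mul, DL_kap, h1, hP]
      have h3 : kap L hu (algebraMap k (KK k) δ⁻¹) = (algebraMap k L δ)⁻¹ := by
        rw [algebraMap_KK, ← phL_kap, phL_C, map_inv₀]
      rw [h3]
      field_simp
      ring
    obtain ⟨x, hx⟩ := DL_ker g hu _ h2
    refine ⟨Polynomial.C (algebraMap k (KK k) δ⁻¹) * Q + Polynomial.C x, ?_⟩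
    rw [Polynomial.eval₂_add, Polynomial.eval₂_mul, Polynomial.eval₂_C, Polynomial.eval₂_C, ← hx]
    ring

end core

end Pool.Agent.Y235.JC
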