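import Mathlib
import Pool.Agent.Y235.JC.P3

set_option autoImplicit false
set_option linter.unusedSectionVars false
set_option linter.style.haveILetI false

open MvPolynomial

namespace Pool.Agent.Y235.JC

open Pool.Agent.H922R2 (IsDer)
open Pool.Agent.H922R2.R
open Pool.Agent.H922R2.EL (OV VP VG DL DL_isDer DL_alg VP_kap VG_kap VG_o vpo_eq VP_alg alg_ne)
open Pool.Agent.H938R2.EL2 (dK dK_isDer dK_alg dK_const)

section top

variable {τ : Type*} [DecidableEq τ] {k R : Type*} [Field k] [CommRing R] [Algebra (Polynomial k) R] [Algebra k R]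
  [IsScalarTower k (Polynomial k) R]

/-- leading coefficient of the value of a polynomial with constant top form -/
theorem lf_top (ψ : MvPolynomial τ (Polynomial k) →+* HahnSeries ℚ R)
    (hC : ∀ a, ψ (C a) = HahnSeries.C (algebraMap (Polynomial k) R a)) (w : τ → ℕ) (lam : ℚ) (hlam : 0 < lam)
    (hX : ∀ i, Lb (-(lam * w i)) (ψ (X i))) (P : MvPolynomial τ (Polynomial k)) (P0 : MvPolynomial τ k)
    (c : Polynomial k) (D : ℤ) (hP0 : ∀ m ∈ P0.support, ((Finsupp.weight w m : ℕ) : ℤ) = D)
    (hP : Wle w (D - 1) (P - C c * map Polynomial.C P0)) :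
    Lb (-(lam * D)) (ψ P) ∧ (ψ P).coeff (-(lam * D)) =
      algebraMap (Polynomial k) R c * eval₂ (algebraMap k R) (fun i => (ψ (X i)).coeff (-(lam * w i))) P0 := by
  have h1 := lf_low ψ (algebraMap (Polynomial k) R) hC w lam hlam hX _ (D : ℚ) (fun m hm => by
    have := hP m hm
    have h2 : ((Finsupp.weight w m : ℕ) : ℤ) < D := by linarith
    exact_mod_cast h2)
  have h2 := lf_homog ψ (algebraMap (Polynomial k) R) hC w lam hX (map Polynomial.C P0) (D : ℚ) (fun m hm => by
    have h3 : m ∈ P0.support := support_map_subset _ _ hm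
    have := hP0 m h3
    exact_mod_cast this)
  have h3 : ψ P = ψ (P - C c * map Polynomial.C P0) + HahnSeries.C (algebraMap (Polynomial k) R c) *
      ψ (map Polynomial.C P0) := by
    rw [map_sub, map_mul, hC]; ring
  have h5 : (algebraMap (Polynomial k) R).comp Polynomial.C = algebraMap k R := by
    ext a
    rw [RingHom.comp_apply, IsScalarTower.algebraMap_apply k (Polynomial k) R]
    rfl
  rw [eval₂_map, h5] at h2
  have h4 := (Lb_C (algebraMap (Polynomial k) R c)).mul h2.1
  have h6 := (Lb_C (algebraMap (Polynomial k) R c)).coeff_mul h2.1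
  rw [zero_add] at h4 h6
  rw [h3]
  refine ⟨h1.1.add h4, ?_⟩
  rw [HahnSeries.coeff_add, h1.2, h6, zero_add, h2.2, HahnSeries.C_apply, HahnSeries.coeff_single, if_pos rfl]

end top

section core

variable {k : Type*} [Field k] [CharZero k] [IsAlgClosed k] {u v : MvPolynomial (Fin 2) k}
variable {L : Type*} [Field L] [Algebra (MvPolynomial (Fin 2) k) L] [IsFractionRing (MvPolynomial (Fin 2) k) L]
  [Algebra k L] [IsScalarTower k (MvPolynomial (Fin 2) k) L]
variable {r : ℕ}

/-- the point `(v, z)` -/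
noncomputable def pt (v : MvPolynomial (Fin 2) k) (z : Fin r → L) : Option (Fin r) → L :=
  fun o => o.elim (algebraMap (MvPolynomial (Fin 2) k) L v) z

theorem OV_phL (V : OV k L) (hu : Function.Injective (uP u)) (hV : ∀ x : KK k, x ≠ 0 → V.o (kap L hu x) = 0)
    (s : Polynomial k) : (s ≠ 0 → V.o (phL u L s) = 0) ∧ V.ge 0 (phL u L s) := by
  have h1 : s ≠ 0 → V.o (phL u L s) = 0 := by
    intro hs
    rw [phL_kap hu]
    apply hV
    rw [Ne, map_eq_zero_iff _ (IsFractionRing.injective (Polynomial k) (KK k))]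
    exact hs
  refine ⟨h1, ?_⟩
  by_cases hs : s = 0
  · rw [hs, map_zero]; exact V.ge_zero _
  · right; rw [h1 hs]

theorem CI.reg (D : CI k r) (V : OV k L) (hu : Function.Injective (uP u))
    (hV : ∀ x : KK k, x ≠ 0 → V.o (kap L hu x) = 0) (z : Fin r → L)
    (hz : ∀ i, eval₂ (phL u L) (pt v z) (D.Φ i) = 0) (lam : ℚ) (hlam : 0 ≤ lam)
    (hv : V.ge (-(lam * D.w none)) (algebraMap (MvPolynomial (Fin 2) k) L v)) (j : Fin r) :
    V.ge (-(lam * D.w (some j))) (z j) :=
  OV_reg r (phL u L) (fun a => (OV_phL V hu hV a).2) Polynomial.C (fun a => phL_C a) D.w D.hw D.d D.Φ D.Φ0 D.c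
    (fun i => ⟨phL_ne hu _ (D.hc i), (OV_phL V hu hV _).1 (D.hc i)⟩) D.hΦ0 D.htop D.h2 (pt v z) hz lam hlam hv j

theorem CI.akm (D : CI k r) (hu : Function.Injective (uP u)) (z : Fin r → L)
    (hz : ∀ i, eval₂ (phL u L) (pt v z) (D.Φ i) = 0) (j : Fin r) : AKm u (z j) := by
  apply akm_of_horizontal
  intro π hπ hhor
  have h1 := D.reg (VP L hπ) hu (fun x hx => VP_kap u hπ hhor hu x hx) z hz 0 le_rfl (v := v) (by
    rw [zero_mul, neg_zero]
    by_cases hv0 : v = 0
    · rw [hv0, map_zero]; exact OV.ge_zero _ _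
    · right; rw [VP_alg hπ hv0]; exact Nat.cast_nonneg _) j
  rwa [zero_mul, neg_zero] at h1

theorem AKm.eval₂ {z : Fin r → L} (hz : ∀ j, AKm u (z j)) (P : MvPolynomial (Option (Fin r)) (Polynomial k)) :
    AKm u (MvPolynomial.eval₂ (phL u L) (pt v z) P) := by
  induction P using MvPolynomial.induction_on with
  | C a => rw [eval₂_C, phL_apply]; exact AKm.alg _
  | add p q hp hq => rw [eval₂_add]; exact hp.add hq
  | mul_X p o hp =>
    rw [eval₂_mul, eval₂_X]
    apply hp.mul
    cases o with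
    | none => exact AKm.alg _
    | some j => exact hz j

/-- the value of `v` at a good place -/
theorem GP.v_val (g : GP u) (δ : k) (hJ : Jb u v = C δ) :
    Lb (-g.b) (g.j L (algebraMap (MvPolynomial (Fin 2) k) L v)) ∧
      (g.j L (algebraMap (MvPolynomial (Fin 2) k) L v)).coeff (-g.b) = algebraMap k (KK k) (δ * g.β) := by
  obtain ⟨w, hw⟩ := g.ker (v - C δ * g.v) (by
    rw [Jb_sub, hJ, Jb_mul, g.hJ, Jb_C_right, mul_zero, mul_one, add_zero, sub_self])
  have h1 : v = C δ * g.v + uP u w := by rw [← hw]; ring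
  have h2 : Lb (-g.b) (g.ι v) := by
    rw [h1, map_add, map_mul, g.ι_uP, g.hC]
    refine Lb.add ?_ ((Lb_C w).mono (by linarith [g.hb]))
    have := (Lb_C (Polynomial.C δ)).mul g.hv
    rwa [zero_add] at this
  have h3 : (g.ι v).coeff (-g.b) = Polynomial.C (δ * g.β) := by
    rw [h1, map_add, map_mul, g.ι_uP, g.hC, HahnSeries.coeff_add]
    have h4 := (Lb_C (Polynomial.C δ)).coeff_mul g.hv
    rw [zero_add] at h4
    rw [h4, g.hvc, HahnSeries.C_apply, HahnSeries.C_apply, HahnSeries.coeff_single, HahnSeries.coeff_single, if_pos rfl,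
      if_neg (by linarith [g.hb]), add_zero, map_mul]
  rw [g.j_algebraMap]
  refine ⟨h2.hmap _, ?_⟩
  rw [hmap_coeff, h3, algebraMap_KK]

variable (L) in
/-- evaluation followed by the place -/
noncomputable def psi (g : GP u) (v : MvPolynomial (Fin 2) k) (z : Fin r → L) :
    MvPolynomial (Option (Fin r)) (Polynomial k) →+* HahnSeries ℚ (KK k) :=
  (g.j L).comp (eval₂Hom (phL u L) (pt v z))

theorem psi_C (g : GP u) (z : Fin r → L) (a : Polynomial k) :
    psi L g v z (C a) = HahnSeries.C (algebraMap (Polynomial k) (KK k) a) := by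
  rw [psi, RingHom.comp_apply, eval₂Hom_C, phL_kap g.uP_inj, g.j_kap]

theorem psi_X (g : GP u) (z : Fin r → L) (o : Option (Fin r)) : psi L g v z (X o) = g.j L (pt v z o) := by
  rw [psi, RingHom.comp_apply, coe_eval₂Hom, eval₂_X]

theorem CI.lbX (D : CI k r) (g : GP u) (δ : k) (hJ : Jb u v = C δ) (z : Fin r → L)
    (hz : ∀ i, MvPolynomial.eval₂ (phL u L) (pt v z) (D.Φ i) = 0) (o : Option (Fin r)) :
    Lb (-((g.b / D.w none) * D.w o)) (psi L g v z (X o)) := by
  have hw0 : (0 : ℚ) < D.w none := by exact_mod_cast D.hw none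
  have hv : Lb (-((g.b / D.w none) * D.w none)) (psi L g v z (X none)) := by
    rw [psi_X, div_mul_cancel₀ _ hw0.ne']
    exact (GP.v_val g δ hJ).1
  cases o with
  | none => exact hv
  | some j =>
    have h1 := D.reg (VG L g) g.uP_inj (fun x hx => VG_kap g g.uP_inj x hx) z hz (g.b / D.w none)
      (div_nonneg g.hb.le hw0.le) (v := v) (by
        by_cases h0 : algebraMap (MvPolynomial (Fin 2) k) L v = 0
        · exact Or.inl h0
        · right
          rw [VG_o]
          apply Lb.le_order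
          · rw [psi_X] at hv; exact hv
          · rw [Ne, map_eq_zero_iff _ g.j_inj]; exact h0) j
    rw [psi_X]
    change Lb _ (g.j L (z j))
    rcases h1 with h1 | h1
    · rw [h1, map_zero]; exact Lb.zero _
    · rw [VG_o] at h1
      exact (Lb_order _).mono h1

theorem CI.top_pderiv (D : CI k r) (i : Fin r) (o : Option (Fin r)) :
    Wle D.w (((D.d i : ℤ) - D.w o) - 1)
      (pderiv o (D.Φ i) - C (D.c i) * map Polynomial.C (pderiv o (D.Φ0 i))) ∧
    ∀ m ∈ (pderiv o (D.Φ0 i)).support, ((Finsupp.weight D.w m : ℕ) : ℤ) = (D.d i : ℤ) - D.w o := by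
  classical
  constructor
  · have h1 := (D.htop i).pderiv o
    rw [map_sub, pderiv_C_mul, pderiv_map] at h1
    exact h1.mono (by linarith)
  · intro m hm
    have h1 := D.hΦ0 i (mem_support_iff.1 (mem_support_pderiv hm))
    rw [map_add, Finsupp.weight_single] at h1
    simp only [smul_eq_mul, one_mul] at h1
    omega

/-- the determinant of the top forms -/
noncomputable def CI.det0 (D : CI k r) : MvPolynomial (Option (Fin r)) k :=
  Matrix.det (Matrix.of fun i j => pderiv (some j) (D.Φ0 i))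

/-- the polynomial defining the ramification of the cover -/
noncomputable def CI.Wp (D : CI k r) : MvPolynomial (Option (Fin r)) (Polynomial k) :=
  Matrix.det (Matrix.of fun i j => pderiv (some j) (D.Φ i))

/-- the leading coefficients of the coordinates are constants -/
theorem CI.lead (D : CI k r) (g : GP u) (δ : k) (hδ : δ ≠ 0) (hJ : Jb u v = C δ) (z : Fin r → L)
    (hz : ∀ i, MvPolynomial.eval₂ (phL u L) (pt v z) (D.Φ i) = 0) :
    ∃ κ : k, κ ≠ 0 ∧ MvPolynomial.eval₂ (algebraMap k (KK k))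
      (fun o => (psi L g v z (X o)).coeff (-((g.b / D.w none) * D.w o))) D.det0 = algebraMap k (KK k) κ := by
  classical
  have hw0 : (0 : ℚ) < D.w none := by exact_mod_cast D.hw none
  set lam := g.b / D.w none with hlam
  have hlam0 : 0 < lam := div_pos g.hb hw0
  set ζ : Option (Fin r) → KK k := fun o => (psi L g v z (X o)).coeff (-(lam * D.w o)) with hζ
  have hkinj : Function.Injective (algebraMap k (KK k)) := (algebraMap k (KK k)).injective
  have hζn : ζ none = algebraMap k (KK k) (δ * g.β) := by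
    rw [hζ]
    dsimp only
    rw [psi_X, hlam, div_mul_cancel₀ _ hw0.ne']
    exact (GP.v_val g δ hJ).2
  have hζ0 : ζ none ≠ 0 := by
    rw [hζn, Ne, map_eq_zero_iff _ hkinj]
    exact mul_ne_zero hδ g.hβ
  -- the equations
  have hΦ0 : ∀ i, MvPolynomial.eval₂ (algebraMap k (KK k)) ζ (D.Φ0 i) = 0 := by
    intro i
    have h1 := lf_top (psi L g v z) (psi_C g z) D.w lam hlam0 (fun o => D.lbX g δ hJ z hz o) (D.Φ i) (D.Φ0 i) (D.c i)
      (D.d i) (fun m hm => by
        have := D.hΦ0 i (mem_support_iff.1 hm)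
        exact_mod_cast this) (D.htop i)
    have h2 : psi L g v z (D.Φ i) = 0 := by
      rw [psi, RingHom.comp_apply, coe_eval₂Hom, hz i, map_zero]
    have h3 := h1.2
    rw [h2, HahnSeries.coeff_zero] at h3
    refine (mul_eq_zero.1 h3.symm).resolve_left ?_
    rw [map_eq_zero_iff _ (IsFractionRing.injective (Polynomial k) (KK k))]
    exact D.hc i
  -- the determinant
  have hdet : MvPolynomial.eval₂ (algebraMap k (KK k)) ζ D.det0 ≠ 0 := by
    intro h0
    obtain ⟨n, hn⟩ := D.h3
    have h1 : Ideal.span (Set.range (fun o : Option (Fin r) =>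
        o.elim (Matrix.det (Matrix.of fun i j => pderiv (some j) (D.Φ0 i))) D.Φ0)) ≤
        RingHom.ker (eval₂Hom (algebraMap k (KK k)) ζ) := by
      rw [Ideal.span_le]
      rintro _ ⟨o, rfl⟩
      rw [SetLike.mem_coe, RingHom.mem_ker, coe_eval₂Hom]
      cases o with
      | none => exact h0
      | some i => exact hΦ0 i
    have h2 := h1 hn
    rw [RingHom.mem_ker, map_pow, coe_eval₂Hom, eval₂_X] at h2
    exact pow_ne_zero n hζ0 h2
  -- constancy
  have hdK : ∀ a : k, dK (algebraMap k (KK k) a) = 0 := by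
    intro a
    rw [algebraMap_KK, dK_alg, Polynomial.derivative_C, map_zero]
  have hconst : ∀ j, ∃ κ : k, ζ (some j) = algebraMap k (KK k) κ := by
    have h1 : (Matrix.of fun i j => MvPolynomial.eval₂ (algebraMap k (KK k)) ζ (pderiv (some j) (D.Φ0 i))).mulVec
        (fun j => dK (ζ (some j))) = 0 := by
      funext i
      have h2 := der_eval₂ dK dK_isDer (algebraMap k (KK k)) hdK ζ (D.Φ0 i)
      rw [hΦ0 i, dK_isDer.zero, Fintype.sum_option, hζn, hdK, mul_zero, zero_add] at h2
      rw [Matrix.mulVec, dotProduct, Pi.zero_apply]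
      exact h2.symm
    have h2 : Matrix.det (Matrix.of fun i j => MvPolynomial.eval₂ (algebraMap k (KK k)) ζ (pderiv (some j) (D.Φ0 i))) ≠ 0 := by
      intro h
      apply hdet
      rw [CI.det0, ← coe_eval₂Hom, RingHom.map_det]
      exact h
    have h3 := Matrix.eq_zero_of_mulVec_eq_zero h2 h1
    intro j
    exact dK_const _ (congrFun h3 j)
  have hall : ∀ o, ∃ κ : k, ζ o = algebraMap k (KK k) κ := by
    intro o
    cases o with
    | none => exact ⟨_, hζn⟩
    | some j => exact hconst j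
  choose κ hκ using hall
  refine ⟨MvPolynomial.eval κ D.det0, ?_, ?_⟩
  · intro h
    apply hdet
    have h1 : ζ = algebraMap k (KK k) ∘ κ := funext hκ
    have h2 := eval₂_comp_left (algebraMap k (KK k)) (RingHom.id k) κ D.det0
    rw [RingHom.comp_id, ← h1] at h2
    rw [← h2]
    change algebraMap k (KK k) (MvPolynomial.eval κ D.det0) = 0
    rw [h, map_zero]
  · have h1 : ζ = algebraMap k (KK k) ∘ κ := funext hκ
    have h2 := eval₂_comp_left (algebraMap k (KK k)) (RingHom.id k) κ D.det0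
    rw [RingHom.comp_id, ← h1] at h2
    rw [← h2]
    rfl

/-- order and leading coefficient of the different at a good place -/
theorem CI.W_lead (D : CI k r) (g : GP u) (δ : k) (hδ : δ ≠ 0) (hJ : Jb u v = C δ) (z : Fin r → L)
    (hz : ∀ i, MvPolynomial.eval₂ (phL u L) (pt v z) (D.Φ i) = 0) :
    ∃ κ : k, κ ≠ 0 ∧ (psi L g v z D.Wp).order = -((g.b / D.w none) * (∑ i, (D.d i : ℚ) - ∑ j, (D.w (some j) : ℚ))) ∧
      (psi L g v z D.Wp).leadingCoeff =
        algebraMap (Polynomial k) (KK k) (∏ i, D.c i) * algebraMap k (KK k) κ := by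
  classical
  have hw0 : (0 : ℚ) < D.w none := by exact_mod_cast D.hw none
  obtain ⟨κ, hκ, hκe⟩ := D.lead g δ hδ hJ z hz
  refine ⟨κ, hκ, ?_⟩
  set lam := g.b / D.w none with hlam
  have hlam0 : 0 < lam := div_pos g.hb hw0
  have hent : ∀ i j, Lb (-(lam * D.d i) - -(lam * D.w (some j))) (psi L g v z (pderiv (some j) (D.Φ i))) ∧
      (psi L g v z (pderiv (some j) (D.Φ i))).coeff (-(lam * D.d i) - -(lam * D.w (some j))) =
        algebraMap (Polynomial k) (KK k) (D.c i) * MvPolynomial.eval₂ (algebraMap k (KK k))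
          (fun o => (psi L g v z (X o)).coeff (-(lam * D.w o))) (pderiv (some j) (D.Φ0 i)) := by
    intro i j
    have h1 := lf_top (psi L g v z) (psi_C g z) D.w lam hlam0 (fun o => D.lbX g δ hJ z hz o) _ _ (D.c i)
      ((D.d i : ℤ) - D.w (some j)) (D.top_pderiv i (some j)).2 (D.top_pderiv i (some j)).1
    have h2 : -(lam * (((D.d i : ℤ) - D.w (some j) : ℤ) : ℚ)) = -(lam * D.d i) - -(lam * D.w (some j)) := by
      push_cast; ring
    rwa [h2] at h1
  have hW : psi L g v z D.Wp = Matrix.det (Matrix.of fun i j => psi L g v z (pderiv (some j) (D.Φ i))) := by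
    rw [CI.Wp, RingHom.map_det]; rfl
  have h1 := Lb_det (Matrix.of fun i j => psi L g v z (pderiv (some j) (D.Φ i))) (fun i => -(lam * D.d i))
    (fun j => -(lam * D.w (some j))) (fun i j => (hent i j).1)
  rw [← hW] at h1
  have h2 : ∑ i, -(lam * (D.d i : ℚ)) - ∑ j, -(lam * (D.w (some j) : ℚ)) =
      -(lam * (∑ i, (D.d i : ℚ) - ∑ j, (D.w (some j) : ℚ))) := by
    rw [Finset.sum_neg_distrib, Finset.sum_neg_distrib, ← Finset.mul_sum, ← Finset.mul_sum]; ring
  rw [h2] at h1
  have h3 : (Matrix.of fun i j => ((Matrix.of fun i j => psi L g v z (pderiv (some j) (D.Φ i))) i j).coeff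
      (-(lam * D.d i) - -(lam * D.w (some j)))) = Matrix.of fun i j => algebraMap (Polynomial k) (KK k) (D.c i) *
        (Matrix.of fun i j => MvPolynomial.eval₂ (algebraMap k (KK k))
          (fun o => (psi L g v z (X o)).coeff (-(lam * D.w o))) (pderiv (some j) (D.Φ0 i))) i j := by
    ext i j
    exact (hent i j).2
  have h4 : Matrix.det (Matrix.of fun i j => MvPolynomial.eval₂ (algebraMap k (KK k))
          (fun o => (psi L g v z (X o)).coeff (-(lam * D.w o))) (pderiv (some j) (D.Φ0 i))) =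
      algebraMap k (KK k) κ := by
    rw [← hκe, CI.det0, ← coe_eval₂Hom, RingHom.map_det]; rfl
  have h5 : (psi L g v z D.Wp).coeff (-(lam * (∑ i, (D.d i : ℚ) - ∑ j, (D.w (some j) : ℚ)))) =
      algebraMap (Polynomial k) (KK k) (∏ i, D.c i) * algebraMap k (KK k) κ := by
    rw [h1.2, h3, Matrix.det_mul_column, h4, map_prod]
  have h6 : algebraMap (Polynomial k) (KK k) (∏ i, D.c i) * algebraMap k (KK k) κ ≠ 0 := by
    apply mul_ne_zero
    · rw [Ne, map_eq_zero_iff _ (IsFractionRing.injective (Polynomial k) (KK k))]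
      exact Finset.prod_ne_zero_iff.2 fun i _ => D.hc i
    · rw [Ne, map_eq_zero_iff _ (algebraMap k (KK k)).injective]; exact hκ
  rw [← h5] at h6
  exact ⟨order_eq_of h1.1 h6, by rw [leadingCoeff_eq_of h1.1 h6, h5]⟩

end core

end Pool.Agent.Y235.JC
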