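import Mathlib
import Pool.Agent.Y235.JC.P4

set_option autoImplicit false
set_option linter.unusedSectionVars false
set_option linter.style.haveILetI false

open MvPolynomial

namespace Pool.Agent.Y235.JC

open Pool.Agent.H922R2 (IsDer)
open Pool.Agent.H922R2.R
open Pool.Agent.H922R2.EL (OV VP VG DL DL_isDer DL_alg VP_kap VG_kap VG_o vpo_eq VP_alg alg_ne)

section core

variable {k : Type*} [Field k] [CharZero k] [IsAlgClosed k] {u v : MvPolynomial (Fin 2) k}
variable {L : Type*} [Field L] [Algebra (MvPolynomial (Fin 2) k) L] [IsFractionRing (MvPolynomial (Fin 2) k) L]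
  [Algebra k L] [IsScalarTower k (MvPolynomial (Fin 2) k) L]
variable {r : ℕ}

theorem DL_phL (a : Polynomial k) : DL L u (phL u L a) = 0 := by
  rw [phL_apply, DL_alg, Jb_uP, map_zero]

theorem DL_v (δ : k) (hJ : Jb u v = C δ) : DL L u (algebraMap (MvPolynomial (Fin 2) k) L v) = algebraMap k L δ := by
  rw [DL_alg, hJ, ← MvPolynomial.algebraMap_eq, ← IsScalarTower.algebraMap_apply]

/-- the differentiated equations -/
theorem CI.rel (D : CI k r) (δ : k) (hJ : Jb u v = C δ) (z : Fin r → L)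
    (hz : ∀ i, MvPolynomial.eval₂ (phL u L) (pt v z) (D.Φ i) = 0) (i : Fin r) :
    MvPolynomial.eval₂ (phL u L) (pt v z) (pderiv none (D.Φ i)) * algebraMap k L δ +
      ∑ j, MvPolynomial.eval₂ (phL u L) (pt v z) (pderiv (some j) (D.Φ i)) * DL L u (z j) = 0 := by
  classical
  have h1 := der_eval₂ (DL L u) (DL_isDer u) (phL u L) DL_phL (pt v z) (D.Φ i)
  rw [hz i, (DL_isDer u).zero, Fintype.sum_option] at h1
  rw [← DL_v δ hJ]
  exact h1.symm

/-- the columns of the Jacobian matrix in terms of the vertical part -/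
theorem CI.det_e (D : CI k r) (δ : k) (hδ : δ ≠ 0) (hJ : Jb u v = C δ) (z : Fin r → L)
    (hz : ∀ i, MvPolynomial.eval₂ (phL u L) (pt v z) (D.Φ i) = 0) (e : Fin r → Option (Fin r)) :
    MvPolynomial.eval₂ (phL u L) (pt v z) (Matrix.det (Matrix.of fun i j => pderiv (e j) (D.Φ i))) =
      MvPolynomial.eval₂ (phL u L) (pt v z) D.Wp *
        Matrix.det (Matrix.of fun l j => (e j).elim (-(algebraMap k L δ)⁻¹ * DL L u (z l))
          (fun l' => if l = l' then 1 else 0)) := by
  classical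
  have hδ1 : algebraMap k L δ ≠ 0 := by rw [Ne, map_eq_zero]; exact hδ
  rw [CI.Wp, ← coe_eval₂Hom, RingHom.map_det, RingHom.map_det, ← Matrix.det_mul]
  congr 1
  ext i j
  rw [Matrix.mul_apply]
  change eval₂Hom (phL u L) (pt v z) (pderiv (e j) (D.Φ i)) = ∑ l, eval₂Hom (phL u L) (pt v z) (pderiv (some l) (D.Φ i)) *
    ((e j).elim (-(algebraMap k L δ)⁻¹ * DL L u (z l)) (fun l' => if l = l' then 1 else 0))
  cases h : e j with
  | some l' =>
    simp only [Option.elim_some, mul_ite, mul_one, mul_zero, Finset.sum_ite_eq', Finset.mem_univ, if_true]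
  | none =>
    simp only [Option.elim_none]
    have h1 := D.rel δ hJ z hz i
    rw [← coe_eval₂Hom] at h1
    have h2 : ∑ l, eval₂Hom (phL u L) (pt v z) (pderiv (some l) (D.Φ i)) *
        (-(algebraMap k L δ)⁻¹ * DL L u (z l)) =
        -(algebraMap k L δ)⁻¹ * ∑ l, eval₂Hom (phL u L) (pt v z) (pderiv (some l) (D.Φ i)) * DL L u (z l) := by
      rw [Finset.mul_sum]
      apply Finset.sum_congr rfl
      intro l _
      ring
    rw [h2]
    apply mul_right_cancel₀ hδ1
    generalize (∑ l, eval₂Hom (phL u L) (pt v z) (pderiv (some l) (D.Φ i)) * DL L u (z l)) = S at h1 ⊢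
    have h3 : -(algebraMap k L δ)⁻¹ * S * algebraMap k L δ = -S := by field_simp
    rw [h3]
    linear_combination h1

/-- the different divides a function of `u` in the localised ring -/
theorem CI.unit (D : CI k r) (hu : Function.Injective (uP u)) (δ : k) (hδ : δ ≠ 0) (hJ : Jb u v = C δ) (z : Fin r → L)
    (hz : ∀ i, MvPolynomial.eval₂ (phL u L) (pt v z) (D.Φ i) = 0) :
    ∃ (s : Polynomial k) (W' : L), s ≠ 0 ∧ AKm u W' ∧
      MvPolynomial.eval₂ (phL u L) (pt v z) D.Wp * W' = phL u L s := by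
  classical
  have hak := D.akm hu z hz
  obtain ⟨s, hs, hmem⟩ := D.h4
  have key : ∀ p ∈ Ideal.span (Set.range D.Φ ∪ Set.range fun e : Fin r → Option (Fin r) =>
        Matrix.det (Matrix.of fun i j => pderiv (e j) (D.Φ i))),
      ∃ W' : L, AKm u W' ∧ MvPolynomial.eval₂ (phL u L) (pt v z) D.Wp * W' =
        MvPolynomial.eval₂ (phL u L) (pt v z) p := by
    intro p hp
    induction hp using Submodule.span_induction with
    | mem x hx =>
      rcases hx with ⟨i, rfl⟩ | ⟨e, rfl⟩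
      · refine ⟨0, ?_, by rw [mul_zero, hz i]⟩
        rw [← map_zero (algebraMap (MvPolynomial (Fin 2) k) L)]; exact AKm.alg 0
      · refine ⟨_, ?_, (D.det_e δ hδ hJ z hz e).symm⟩
        apply AKm.det
        intro l j
        change AKm u ((e j).elim (-(algebraMap k L δ)⁻¹ * DL L u (z l)) (fun l' => if l = l' then 1 else 0))
        cases e j with
        | none =>
          refine AKm.mul (AKm.neg ?_) (AKm.DL' (hak l))
          rw [← map_inv₀, ← phL_C (u := u)]
          exact AKm.alg _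
        | some l' =>
          change AKm u (if l = l' then (1 : L) else 0)
          split_ifs
          · rw [← map_one (algebraMap (MvPolynomial (Fin 2) k) L)]; exact AKm.alg 1
          · rw [← map_zero (algebraMap (MvPolynomial (Fin 2) k) L)]; exact AKm.alg 0
    | zero =>
      refine ⟨0, ?_, by rw [mul_zero, eval₂_zero]⟩
      rw [← map_zero (algebraMap (MvPolynomial (Fin 2) k) L)]; exact AKm.alg 0
    | add x y _ _ hx hy =>
      obtain ⟨a, ha, ea⟩ := hx
      obtain ⟨b, hb, eb⟩ := hy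
      exact ⟨a + b, ha.add hb, by rw [mul_add, ea, eb, eval₂_add]⟩
    | smul a x _ hx =>
      obtain ⟨b, hb, eb⟩ := hx
      refine ⟨MvPolynomial.eval₂ (phL u L) (pt v z) a * b, (AKm.eval₂ hak a).mul hb, ?_⟩
      rw [smul_eq_mul, eval₂_mul, ← eb]; ring
  obtain ⟨W', h1, h2⟩ := key _ hmem
  exact ⟨s, W', hs, h1, by rw [h2, eval₂_C]⟩

/-- the different is a function of `u`, and the weights are balanced -/
theorem CI.W_const (D : CI k r) (g0 : GP u) (δ : k) (hδ : δ ≠ 0) (hJ : Jb u v = C δ) (hm : MonY u) (z : Fin r → L)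
    (hz : ∀ i, MvPolynomial.eval₂ (phL u L) (pt v z) (D.Φ i) = 0) :
    (∃ s t : Polynomial k, s ≠ 0 ∧ t ≠ 0 ∧
      MvPolynomial.eval₂ (phL u L) (pt v z) D.Wp * phL u L s = phL u L t) ∧
    ∑ i, (D.d i : ℤ) = ∑ j, (D.w (some j) : ℤ) := by
  classical
  have hu := g0.uP_inj
  have hinj : Function.Injective ((algebraMap (MvPolynomial (Fin 2) k) L)) := IsFractionRing.injective (MvPolynomial (Fin 2) k) L
  set W := MvPolynomial.eval₂ (phL u L) (pt v z) D.Wp with hW
  obtain ⟨s, W', hs, hW', hWW'⟩ := D.unit hu δ hδ hJ z hz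
  rw [← hW] at hWW'
  have hWA : AKm u W := AKm.eval₂ (D.akm hu z hz) _
  obtain ⟨e, m, he, hem⟩ := hWA
  have hmv : VertF u m := by
    apply VertF.of_unit ((vertF_uP hu s hs).mul he) hW'
    rw [← hem, map_mul, ← phL_apply, ← hWW']; ring
  have hJ1 : Jb u (C δ⁻¹ * v) = 1 := by
    rw [Jb_mul, hJ, Jb_C_right, mul_zero, add_zero, ← C_mul, inv_mul_cancel₀ hδ, C_1]
  have hpsi : ∀ g : GP u, psi L g v z D.Wp = g.j L W := by
    intro g
    rw [psi, RingHom.comp_apply, coe_eval₂Hom]
  have hCR : CR u m e := by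
    intro g1 g2
    obtain ⟨κ1, hκ1, -, e1⟩ := D.W_lead g1 δ hδ hJ z hz
    obtain ⟨κ2, hκ2, -, e2⟩ := D.W_lead g2 δ hδ hJ z hz
    rw [hpsi] at e1 e2
    refine ⟨κ1 / κ2, div_ne_zero hκ1 hκ2, ?_⟩
    apply IsFractionRing.injective (Polynomial k) (KK k)
    have f1 := congrArg (fun z => (g1.j L z).leadingCoeff) hem
    have f2 := congrArg (fun z => (g2.j L z).leadingCoeff) hem
    simp only [map_mul] at f1 f2
    rw [HahnSeries.leadingCoeff_mul, g1.j_lc, g1.j_lc] at f1
    rw [HahnSeries.leadingCoeff_mul, g2.j_lc, g2.j_lc] at f2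
    rw [map_mul, map_mul, map_mul, ← algebraMap_KK, ← f1, ← f2, e1, e2, map_div₀]
    have hκ2' : algebraMap k (KK k) κ2 ≠ 0 := by
      rw [Ne, map_eq_zero_iff _ (algebraMap k (KK k)).injective]; exact hκ2
    field_simp
  obtain ⟨s', t', hs', ht', est⟩ := CR.const (C δ⁻¹ * v) hJ1 hm _ m e rfl hmv he hCR
  have he1 : algebraMap (MvPolynomial (Fin 2) k) L e ≠ 0 := alg_ne he.1
  have hWe : W * phL u L s' = phL u L t' := by
    apply mul_right_cancel₀ he1
    rw [mul_right_comm, hem, phL_apply, phL_apply, ← map_mul, est, map_mul, mul_comm]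
  refine ⟨⟨s', t', hs', ht', hWe⟩, ?_⟩
  obtain ⟨κ, hκ, e1, -⟩ := D.W_lead g0 δ hδ hJ z hz
  rw [hpsi] at e1
  have halg : ∀ x : Polynomial k, x ≠ 0 → algebraMap (Polynomial k) (KK k) x ≠ 0 := by
    intro x hx
    rw [Ne, map_eq_zero_iff _ (IsFractionRing.injective (Polynomial k) (KK k))]; exact hx
  have hWk : W = kap L hu (algebraMap (Polynomial k) (KK k) t' / algebraMap (Polynomial k) (KK k) s') := by
    rw [map_div₀, ← phL_kap, ← phL_kap, eq_div_iff (phL_ne hu _ hs'), hWe]
  rw [hWk, g0.j_kap, HahnSeries.order_C] at e1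
  have hw0 : (0 : ℚ) < D.w none := by exact_mod_cast D.hw none
  have hlam0 : 0 < g0.b / D.w none := div_pos g0.hb hw0
  have h3 : ∑ i, (D.d i : ℚ) - ∑ j, (D.w (some j) : ℚ) = 0 := by
    have h4 : (g0.b / D.w none) * (∑ i, (D.d i : ℚ) - ∑ j, (D.w (some j) : ℚ)) = 0 := by linarith
    exact (mul_eq_zero.1 h4).resolve_left hlam0.ne'
  have h5 : ∑ i, (D.d i : ℚ) = ∑ j, (D.w (some j) : ℚ) := by linarith
  exact_mod_cast h5

/-- elements of weight at most `m` -/
def Rw (D : CI k r) (v u : MvPolynomial (Fin 2) k) (z : Fin r → L) (m : ℤ) (f : L) : Prop :=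
  ∃ (a : Polynomial k) (P : MvPolynomial (Option (Fin r)) (Polynomial k)), a ≠ 0 ∧ Wle D.w m P ∧
    phL u L a * f = MvPolynomial.eval₂ (phL u L) (pt v z) P

theorem Rw.add {D : CI k r} {z : Fin r → L} {m : ℤ} {f g : L} (hf : Rw D v u z m f) (hg : Rw D v u z m g) :
    Rw D v u z m (f + g) := by
  obtain ⟨a, P, ha, hP, e⟩ := hf
  obtain ⟨b, Q, hb, hQ, e'⟩ := hg
  refine ⟨a * b, C b * P + C a * Q, mul_ne_zero ha hb, ?_, ?_⟩
  · have h1 := (Wle.C (w := D.w) b).mul hP
    have h2 := (Wle.C (w := D.w) a).mul hQ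
    rw [zero_add] at h1 h2
    exact h1.add h2
  · rw [eval₂_add, eval₂_mul, eval₂_mul, eval₂_C, eval₂_C, ← e, ← e', map_mul]; ring

theorem Rw.mul {D : CI k r} {z : Fin r → L} {m n : ℤ} {f g : L} (hf : Rw D v u z m f) (hg : Rw D v u z n g) :
    Rw D v u z (m + n) (f * g) := by
  obtain ⟨a, P, ha, hP, e⟩ := hf
  obtain ⟨b, Q, hb, hQ, e'⟩ := hg
  refine ⟨a * b, P * Q, mul_ne_zero ha hb, hP.mul hQ, ?_⟩
  rw [eval₂_mul, ← e, ← e', map_mul]; ring

theorem Rw.zero {D : CI k r} {z : Fin r → L} (m : ℤ) : Rw D v u z m (0 : L) :=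
  ⟨1, 0, one_ne_zero, Wle.zero m, by rw [mul_zero, eval₂_zero]⟩

theorem Rw.sum {D : CI k r} {z : Fin r → L} {m : ℤ} {ι : Type*} (s : Finset ι) (f : ι → L)
    (h : ∀ i ∈ s, Rw D v u z m (f i)) : Rw D v u z m (∑ i ∈ s, f i) := by
  classical
  induction s using Finset.induction_on with
  | empty => rw [Finset.sum_empty]; exact Rw.zero m
  | insert x s hx ih =>
    rw [Finset.sum_insert hx]
    exact (h x (Finset.mem_insert_self _ _)).add (ih fun i hi => h i (Finset.mem_insert_of_mem hi))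

theorem Rw.poly {D : CI k r} {z : Fin r → L} {m : ℤ} (P : MvPolynomial (Option (Fin r)) (Polynomial k))
    (h : Wle D.w m P) : Rw D v u z m (MvPolynomial.eval₂ (phL u L) (pt v z) P) :=
  ⟨1, P, one_ne_zero, h, by rw [map_one, one_mul]⟩

theorem Rw.cst {D : CI k r} {z : Fin r → L} (a : k) : Rw D v u z 0 (algebraMap k L a) := by
  refine ⟨1, C (Polynomial.C a), one_ne_zero, Wle.C _, ?_⟩
  rw [map_one, one_mul, eval₂_C, phL_C]

theorem Rw.div {D : CI k r} {z : Fin r → L} {m : ℤ} {f : L} (a : Polynomial k) (ha : a ≠ 0)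
    (h : Rw D v u z m (phL u L a * f)) : Rw D v u z m f := by
  obtain ⟨b, P, hb, hP, e⟩ := h
  exact ⟨b * a, P, mul_ne_zero hb ha, hP, by rw [map_mul, ← e]; ring⟩

theorem Rw.eq_zero {D : CI k r} {z : Fin r → L} (hu : Function.Injective (uP u)) {m : ℤ} (hm : m < 0) {f : L}
    (h : Rw D v u z m f) : f = 0 := by
  obtain ⟨b, P, hb, hP, e⟩ := h
  rw [hP.eq_zero hm, eval₂_zero] at e
  exact (mul_eq_zero.1 e).resolve_left (phL_ne hu b hb)

/-- Cramer's rule for the derivatives of the coordinates -/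
theorem CI.Dz (D : CI k r) (δ : k) (hδ : δ ≠ 0) (hJ : Jb u v = C δ) (z : Fin r → L)
    (hz : ∀ i, MvPolynomial.eval₂ (phL u L) (pt v z) (D.Φ i) = 0)
    (hW : ∃ s t : Polynomial k, s ≠ 0 ∧ t ≠ 0 ∧
      MvPolynomial.eval₂ (phL u L) (pt v z) D.Wp * phL u L s = phL u L t)
    (hE : ∑ i, (D.d i : ℤ) = ∑ j, (D.w (some j) : ℤ)) (l : Fin r) :
    Rw D v u z ((D.w (some l) : ℤ) - D.w none) (DL L u (z l)) := by
  classical
  have hδ1 : algebraMap k L δ ≠ 0 := by rw [Ne, map_eq_zero]; exact hδ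
  set e : Fin r → Option (Fin r) := Function.update some l none with he
  have h1 := D.det_e δ hδ hJ z hz e
  have h2 : Matrix.det (Matrix.of fun l' j => (e j).elim (-(algebraMap k L δ)⁻¹ * DL L u (z l'))
      (fun l'' => if l' = l'' then (1 : L) else 0)) = -(algebraMap k L δ)⁻¹ * DL L u (z l) := by
    have h3 : (Matrix.of fun l' j => (e j).elim (-(algebraMap k L δ)⁻¹ * DL L u (z l'))
      (fun l'' => if l' = l'' then (1 : L) else 0)) =
        Matrix.updateCol (1 : Matrix (Fin r) (Fin r) L) l (fun l' => -(algebraMap k L δ)⁻¹ * DL L u (z l')) := by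
      ext l' j
      rw [Matrix.updateCol_apply]
      change (e j).elim (-(algebraMap k L δ)⁻¹ * DL L u (z l')) (fun l'' => if l' = l'' then (1 : L) else 0) = _
      by_cases hj : j = l
      · rw [if_pos hj, hj, he, Function.update_self]; rfl
      · rw [if_neg hj, he, Function.update_of_ne hj, Matrix.one_apply]; rfl
    rw [h3, ← Matrix.cramer_apply, Matrix.cramer_one]
    rfl
  rw [h2] at h1
  have hdeg : Wle D.w ((D.w (some l) : ℤ) - D.w none) (Matrix.det (Matrix.of fun i j => pderiv (e j) (D.Φ i))) := by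
    have hΦ : ∀ i, Wle D.w (D.d i : ℤ) (D.Φ i) := by
      intro i
      have h3 : D.Φ i = (D.Φ i - C (D.c i) * map Polynomial.C (D.Φ0 i)) + C (D.c i) * map Polynomial.C (D.Φ0 i) := by
        ring
      rw [h3]
      refine ((D.htop i).mono (by linarith)).add ?_
      have h4 : Wle D.w (D.d i : ℤ) (map Polynomial.C (D.Φ0 i)) := by
        intro m hm
        have h5 := D.hΦ0 i (mem_support_iff.1 (support_map_subset _ _ hm))
        rw [h5]
      have h5 := (Wle.C (w := D.w) (D.c i)).mul h4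
      rwa [zero_add] at h5
    have h3 := Wle.det (w := D.w) (Matrix.of fun i j => pderiv (e j) (D.Φ i)) (fun i => (D.d i : ℤ))
      (fun j => (D.w (e j) : ℤ)) (fun i j => (hΦ i).pderiv (e j))
    have h4 : ∑ j, (D.w (e j) : ℤ) = ∑ j, (D.w (some j) : ℤ) - D.w (some l) + D.w none := by
      rw [← Finset.add_sum_erase Finset.univ (fun j => (D.w (e j) : ℤ)) (Finset.mem_univ l),
        ← Finset.add_sum_erase Finset.univ (fun j => (D.w (some j) : ℤ)) (Finset.mem_univ l)]
      have h5 : e l = none := by rw [he, Function.update_self]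
      have h6 : ∑ j ∈ Finset.univ.erase l, (D.w (e j) : ℤ) = ∑ j ∈ Finset.univ.erase l, (D.w (some j) : ℤ) := by
        apply Finset.sum_congr rfl
        intro j hj
        rw [he, Function.update_of_ne (Finset.ne_of_mem_erase hj)]
      rw [h5, h6]; ring
    rw [h4, hE] at h3
    exact h3.mono (by linarith)
  obtain ⟨s, t, hs, ht, hst⟩ := hW
  apply Rw.div t ht
  have h7 : phL u L t * DL L u (z l) = (algebraMap k L (-δ)) * (phL u L s * (MvPolynomial.eval₂ (phL u L) (pt v z)
      (Matrix.det (Matrix.of fun i j => pderiv (e j) (D.Φ i))))) := by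
    rw [h1, ← hst, map_neg]
    field_simp
  rw [h7]
  have h8 := (Rw.cst (D := D) (v := v) (u := u) (z := z) (-δ)).mul
    ((Rw.poly (D := D) (v := v) (u := u) (z := z) (C s) (Wle.C s)).mul (Rw.poly (v := v) (u := u) (z := z) _ hdeg))
  rw [eval₂_C, zero_add, zero_add] at h8
  exact h8

/-- the derivation lowers the weight -/
theorem CI.lower (D : CI k r) (δ : k) (hJ : Jb u v = C δ) (z : Fin r → L)
    (hD : ∀ l, Rw D v u z ((D.w (some l) : ℤ) - D.w none) (DL L u (z l))) (m : ℤ) (f : L) (hf : Rw D v u z m f) :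
    Rw D v u z (m - D.w none) (DL L u f) := by
  classical
  obtain ⟨a, P, ha, hP, e⟩ := hf
  apply Rw.div a ha
  have h1 := congrArg (DL L u) e
  rw [(DL_isDer u).mul, DL_phL, mul_zero, add_zero,
    der_eval₂ (DL L u) (DL_isDer u) (phL u L) DL_phL (pt v z) P, Fintype.sum_option] at h1
  rw [h1]
  refine Rw.add ?_ (Rw.sum _ _ fun l _ => ?_)
  · have h2 := (Rw.poly (v := v) (u := u) (z := z) _ (hP.pderiv none)).mul (Rw.cst (D := D) (v := v) (u := u) (z := z) δ)
    rw [add_zero] at h2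
    rw [← DL_v δ hJ] at h2
    exact h2
  · have h2 := (Rw.poly (v := v) (u := u) (z := z) _ (hP.pderiv (some l))).mul (hD l)
    have h3 : m - (D.w (some l) : ℤ) + ((D.w (some l) : ℤ) - D.w none) = m - D.w none := by ring
    rw [h3] at h2
    exact h2

/-- **The main theorem in normalised form.** -/
theorem CI.main (D : CI k r) (δ : k) (hδ : δ ≠ 0) (hJ : Jb u v = C δ) (hm : MonY u) (z : Fin r → L)
    (hz : ∀ i, MvPolynomial.eval₂ (phL u L) (pt v z) (D.Φ i) = 0) (j : Fin r) :
    z j ∈ IntermediateField.adjoin k {(algebraMap (MvPolynomial (Fin 2) k) L) u,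
      (algebraMap (MvPolynomial (Fin 2) k) L) v} := by
  classical
  -- a good place
  have hu_ne : ∀ a : k, u ≠ C a := by
    rintro a rfl
    have := hm.1
    rw [toY_C] at this
    simp at this
  have hnu : ¬ IsUnit (u - C 0) := by
    intro h
    obtain ⟨a, _, ha⟩ := (MvPolynomial.isUnit_iff_eq_C_of_isReduced).1 h
    exact hu_ne a (by rw [← ha]; simp)
  have hu0 : u - C 0 ≠ 0 := by
    intro h
    exact hu_ne 0 (sub_eq_zero.1 h)
  obtain ⟨π, hπ', hdiv⟩ := WfDvdMonoid.exists_irreducible_factor hnu hu0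
  have hπ := UniqueFactorizationMonoid.irreducible_iff_prime.1 hπ'
  have hJ1 : Jb u (C δ⁻¹ * v) = 1 := by
    rw [Jb_mul, hJ, Jb_C_right, mul_zero, add_zero, ← C_mul, inv_mul_cancel₀ hδ, C_1]
  obtain ⟨g0, -⟩ := exists_GP_at u (C δ⁻¹ * v) π hπ 0 hdiv hJ1 hm
  have hu := g0.uP_inj
  obtain ⟨hW, hE⟩ := D.W_const g0 δ hδ hJ hm z hz
  have hD := D.Dz δ hδ hJ z hz hW hE
  have hit : ∀ n : ℕ, Rw D v u z ((D.w (some j) : ℤ) - n * D.w none) ((DL L u)^[n] (z j)) := by
    intro n
    induction n with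
    | zero =>
      have h1 : Wle D.w (D.w (some j) : ℤ) (X (some j) : MvPolynomial (Option (Fin r)) (Polynomial k)) := by
        intro m hm'
        rw [support_X, Finset.mem_singleton] at hm'
        rw [hm', Finsupp.weight_single]
        simp
      have h2 := Rw.poly (v := v) (u := u) (z := z) _ h1
      rw [eval₂_X] at h2
      have h3 : (D.w (some j) : ℤ) - ((0 : ℕ) : ℤ) * D.w none = D.w (some j) := by push_cast; ring
      rw [h3]
      exact h2
    | succ n ih =>
      rw [Function.iterate_succ_apply']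
      have h1 := D.lower δ hJ z hD _ _ ih
      have h3 : (D.w (some j) : ℤ) - ((n + 1 : ℕ) : ℤ) * D.w none = (D.w (some j) : ℤ) - n * D.w none - D.w none := by
        push_cast; ring
      rw [h3]
      exact h1
  have hnil : (DL L u)^[D.w (some j) + 1] (z j) = 0 := by
    apply Rw.eq_zero hu _ (hit (D.w (some j) + 1))
    have h1 : (1 : ℤ) ≤ D.w none := by exact_mod_cast D.hw none
    have h2 : (0 : ℤ) ≤ D.w (some j) := Int.natCast_nonneg _
    push_cast
    nlinarith
  obtain ⟨P, hP⟩ := DL_nil g0 hu δ hδ hJ _ _ hnil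
  have hmem_u : (algebraMap (MvPolynomial (Fin 2) k) L) u ∈ IntermediateField.adjoin k {(algebraMap (MvPolynomial (Fin 2) k) L) u, (algebraMap (MvPolynomial (Fin 2) k) L) v} :=
    IntermediateField.subset_adjoin _ _ (Set.mem_insert _ _)
  have hmem_v : (algebraMap (MvPolynomial (Fin 2) k) L) v ∈ IntermediateField.adjoin k {(algebraMap (MvPolynomial (Fin 2) k) L) u, (algebraMap (MvPolynomial (Fin 2) k) L) v} :=
    IntermediateField.subset_adjoin _ _ (Set.mem_insert_of_mem _ rfl)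
  rw [hP, Polynomial.eval₂_eq_sum_range]
  exact sum_mem fun i _ => mul_mem (kap_mem hu _ hmem_u _) (pow_mem hmem_v i)

end core

end Pool.Agent.Y235.JC
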