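import Mathlib
import Pool.Agent.Y235.JC.P5
import Pool.Agent.Y235.JC.M3

set_option autoImplicit false
set_option linter.unusedSectionVars false
set_option linter.style.haveILetI false

open MvPolynomial

namespace Pool.Agent.Y235.JC

open Pool.Agent.H922R2 (IsDer GA jac SS fF DJ DJ_apply mE rr rr_mul rr_aeval coeff_rr mE_inj mE_aeval jac_mE
  mem_SS_of_mem_fF inverse_of_top)
open Pool.Agent.H922R2.R

section map

variable {k E : Type*} [Field k] [Field E] {r : ℕ}

theorem span_transport {A B : Type*} [CommRing A] [CommRing B] (f : A →+* B) (p : A) (S : Set A) (T : Set B)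
    (hp : p ∈ Ideal.span S) (h : ∀ s ∈ S, f s ∈ Ideal.span T) : f p ∈ Ideal.span T := by
  have h1 : Ideal.span S ≤ (Ideal.span T).comap f := by
    rw [Ideal.span_le]
    intro s hs
    exact h s hs
  exact h1 hp

theorem det_map_pderiv {A B : Type*} [CommRing A] [CommRing B] {τ : Type*} (f : A →+* B)
    (Φ : Fin r → MvPolynomial τ A) (e : Fin r → τ) :
    MvPolynomial.map f (Matrix.det (Matrix.of fun i j => pderiv (e j) (Φ i))) =
      Matrix.det (Matrix.of fun i j => pderiv (e j) (MvPolynomial.map f (Φ i))) := by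
  rw [RingHom.map_det]
  congr 1
  refine Matrix.ext fun i j => ?_
  change MvPolynomial.map f (pderiv (e j) (Φ i)) = pderiv (e j) (MvPolynomial.map f (Φ i))
  rw [pderiv_map]

/-- base change -/
noncomputable def CI.map (D : CI k r) (f : k →+* E) : CI E r where
  w := D.w
  hw := D.hw
  d := D.d
  Φ i := MvPolynomial.map (Polynomial.mapRingHom f) (D.Φ i)
  Φ0 i := MvPolynomial.map f (D.Φ0 i)
  c i := (D.c i).map f
  hc i := (Polynomial.map_ne_zero_iff f.injective).2 (D.hc i)
  hΦ0 i := by
    intro m hm
    apply D.hΦ0 i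
    intro h
    apply hm
    rw [coeff_map, h, map_zero]
  htop i := by
    have hc : (Polynomial.mapRingHom f).comp Polynomial.C = (Polynomial.C).comp f := by
      ext a
      simp
    have h : MvPolynomial.map (Polynomial.mapRingHom f) (D.Φ i) -
        MvPolynomial.C ((D.c i).map f) * MvPolynomial.map Polynomial.C (MvPolynomial.map f (D.Φ0 i)) =
        MvPolynomial.map (Polynomial.mapRingHom f) (D.Φ i - MvPolynomial.C (D.c i) *
          MvPolynomial.map Polynomial.C (D.Φ0 i)) := by
      rw [map_sub, map_mul, map_C, MvPolynomial.map_map, MvPolynomial.map_map, hc]; rfl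
    rw [h]
    intro m hm
    exact D.htop i m (support_map_subset _ _ hm)
  h2 j := by
    obtain ⟨n, hn⟩ := D.h2 j
    refine ⟨n, ?_⟩
    have h1 := span_transport (MvPolynomial.map f) _ _ (Set.range (fun o : Option (Fin r) => o.elim
      (X none : MvPolynomial (Option (Fin r)) E) fun i => MvPolynomial.map f (D.Φ0 i))) hn (by
        rintro _ ⟨o, rfl⟩
        apply Ideal.subset_span
        refine ⟨o, ?_⟩
        cases o with
        | none => simp
        | some i => rfl)
    rwa [map_pow, map_X] at h1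
  h3 := by
    obtain ⟨n, hn⟩ := D.h3
    refine ⟨n, ?_⟩
    have h1 := span_transport (MvPolynomial.map f) _ _ (Set.range (fun o : Option (Fin r) => o.elim
      (Matrix.det (Matrix.of fun i j => pderiv (some j) (MvPolynomial.map f (D.Φ0 i))))
        fun i => MvPolynomial.map f (D.Φ0 i))) hn (by
        rintro _ ⟨o, rfl⟩
        apply Ideal.subset_span
        refine ⟨o, ?_⟩
        cases o with
        | none => exact (det_map_pderiv f D.Φ0 (fun j => some j)).symm
        | some i => rfl)
    rwa [map_pow, map_X] at h1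
  h4 := by
    obtain ⟨s, hs, hmem⟩ := D.h4
    refine ⟨s.map f, (Polynomial.map_ne_zero_iff f.injective).2 hs, ?_⟩
    have h1 := span_transport (MvPolynomial.map (Polynomial.mapRingHom f)) _ _
      (Set.range (fun i => MvPolynomial.map (Polynomial.mapRingHom f) (D.Φ i)) ∪
        Set.range fun e : Fin r → Option (Fin r) =>
          Matrix.det (Matrix.of fun i j => pderiv (e j) (MvPolynomial.map (Polynomial.mapRingHom f) (D.Φ i)))) hmem (by
        rintro _ (⟨i, rfl⟩ | ⟨e, rfl⟩)
        · exact Ideal.subset_span (Or.inl ⟨i, rfl⟩)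
        · exact Ideal.subset_span (Or.inr ⟨e, (det_map_pderiv _ D.Φ e).symm⟩))
    rwa [map_C] at h1

end map

section closed

variable {k : Type*} [Field k] [CharZero k] [IsAlgClosed k]

/-- over an algebraically closed field -/
theorem CI_closed {L : Type*} [Field L] [Algebra (MvPolynomial (Fin 2) k) L]
    [IsFractionRing (MvPolynomial (Fin 2) k) L] [Algebra k L] [IsScalarTower k (MvPolynomial (Fin 2) k) L]
    (F : Fin 2 → MvPolynomial (Fin 2) k) (hJ : IsUnit (Matrix.det (jac F))) {r : ℕ} (D : CI k r) (z : Fin r → L)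
    (hz : ∀ i, eval₂ ((algebraMap (MvPolynomial (Fin 2) k) L).comp (Polynomial.eval₂RingHom C (F 0)))
      (fun o => o.elim (algebraMap (MvPolynomial (Fin 2) k) L (F 1)) z) (D.Φ i) = 0) (j : Fin r) :
    z j ∈ IntermediateField.adjoin k {algebraMap (MvPolynomial (Fin 2) k) L (F 0),
      algebraMap (MvPolynomial (Fin 2) k) L (F 1)} := by
  have hF0 : ∀ a : k, F 0 ≠ C a := by
    intro a ha
    rw [Pool.Agent.H922R2.det_jac, DJ_apply, ha] at hJ
    simp at hJ
  obtain ⟨θ, hθ⟩ := exists_monY (F 0) hF0
  have hJ' := Pool.Agent.H922R2.jac_comp θ F hJ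
  obtain ⟨δ, hδ, hδe⟩ := MvPolynomial.isUnit_iff_eq_C_of_isReduced.1 (by rw [Pool.Agent.H922R2.det_jac] at hJ'; exact hJ')
  have hδ0 : δ ≠ 0 := hδ.ne_zero
  have hJb : Jb (θ (F 0)) (θ (F 1)) = C δ := by
    rw [← hδe, DJ_apply]; rfl
  obtain ⟨φ, hφ, hφm, -⟩ := Pool.Agent.H922R2.EL.transport_gen (L₁ := L) (L₂ := L)
    ((θ : MvPolynomial (Fin 2) k ≃ₐ[k] _) : MvPolynomial (Fin 2) k →+* _) θ.injective
    (fun a => ⟨a, θ.commutes a⟩) (fun i => ⟨θ.symm (X i), θ.apply_symm_apply _⟩)
  obtain ⟨ψ, hψ, hψm, -⟩ := Pool.Agent.H922R2.EL.transport_gen (L₁ := L) (L₂ := L)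
    ((θ.symm : MvPolynomial (Fin 2) k ≃ₐ[k] _) : MvPolynomial (Fin 2) k →+* _) θ.symm.injective
    (fun a => ⟨a, θ.symm.commutes a⟩) (fun i => ⟨θ (X i), θ.symm_apply_apply _⟩)
  have hφ' : ∀ p, φ (algebraMap (MvPolynomial (Fin 2) k) L p) = algebraMap (MvPolynomial (Fin 2) k) L (θ p) := hφ
  have hψ' : ∀ p, ψ (algebraMap (MvPolynomial (Fin 2) k) L p) = algebraMap (MvPolynomial (Fin 2) k) L (θ.symm p) := hψ
  have hid : ∀ z : L, ψ (φ z) = z := by
    intro z
    obtain ⟨a, b, _, rfl⟩ := IsFractionRing.div_surjective (A := MvPolynomial (Fin 2) k) z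
    rw [map_div₀, map_div₀, hφ', hφ', hψ', hψ', θ.symm_apply_apply, θ.symm_apply_apply]
  have hz' : ∀ i, eval₂ (phL (θ (F 0)) L) (pt (θ (F 1)) (fun j => φ (z j))) (D.Φ i) = 0 := by
    intro i
    have h1 := congrArg φ (hz i)
    rw [map_zero, eval₂_comp_left] at h1
    rw [← h1]
    congr 1
    · apply Polynomial.ringHom_ext
      · intro a
        rw [phL_apply, uP_C, RingHom.comp_apply, RingHom.comp_apply]
        simp only [Polynomial.coe_eval₂RingHom, Polynomial.eval₂_C]
        rw [hφ']
        congr 1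
        exact (θ.commutes a).symm
      · rw [phL_apply, uP_X, RingHom.comp_apply, RingHom.comp_apply]
        simp only [Polynomial.coe_eval₂RingHom, Polynomial.eval₂_X]
        rw [hφ']
    · funext o
      cases o with
      | none => exact (hφ' _).symm
      | some j => rfl
  have h2 := D.main δ hδ0 hJb hθ (fun j => φ (z j)) hz' j
  have h3 := hψm _ _ h2
  rw [hid, Set.image_pair, hψ', hψ', θ.symm_apply_apply, θ.symm_apply_apply] at h3
  exact h3

end closed

section any

variable {k : Type*} [Field k] [CharZero k]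

/-- over any field of characteristic zero -/
theorem CI_any (F : Fin 2 → MvPolynomial (Fin 2) k) (hJ : IsUnit (Matrix.det (jac F))) {r : ℕ} (D : CI k r)
    (z : Fin r → FractionRing (MvPolynomial (Fin 2) k))
    (hz : ∀ i, eval₂ ((algebraMap (MvPolynomial (Fin 2) k) (FractionRing (MvPolynomial (Fin 2) k))).comp
      (Polynomial.eval₂RingHom C (F 0)))
      (fun o => o.elim (algebraMap (MvPolynomial (Fin 2) k) (FractionRing (MvPolynomial (Fin 2) k)) (F 1)) z)
        (D.Φ i) = 0) (j : Fin r) :
    z j ∈ IntermediateField.adjoin k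
      {algebraMap (MvPolynomial (Fin 2) k) (FractionRing (MvPolynomial (Fin 2) k)) (F 0),
        algebraMap (MvPolynomial (Fin 2) k) (FractionRing (MvPolynomial (Fin 2) k)) (F 1)} := by
  haveI : CharZero (AlgebraicClosure k) := charZero_of_injective_algebraMap
    (algebraMap k (AlgebraicClosure k)).injective
  obtain ⟨φ, hφ, hφm, -⟩ := Pool.Agent.H922R2.EL.transport_gen (L₁ := FractionRing (MvPolynomial (Fin 2) k))
    (L₂ := FractionRing (MvPolynomial (Fin 2) (AlgebraicClosure k)))
    (mE k (AlgebraicClosure k) (Fin 2)) mE_inj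
    (fun a => ⟨algebraMap k (AlgebraicClosure k) a, map_C _ _⟩) (fun i => ⟨X i, map_X _ _⟩)
  have h2 := CI_closed (L := FractionRing (MvPolynomial (Fin 2) (AlgebraicClosure k)))
    (fun i => mE k (AlgebraicClosure k) (Fin 2) (F i))
    (jac_mE (E := AlgebraicClosure k) F hJ) (D.map (algebraMap k (AlgebraicClosure k))) (fun j => φ (z j)) (by
      intro i
      have h1 := congrArg φ (hz i)
      rw [map_zero, eval₂_comp_left] at h1
      change eval₂ _ _ (MvPolynomial.map (Polynomial.mapRingHom (algebraMap k (AlgebraicClosure k))) (D.Φ i)) = 0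
      rw [eval₂_map, ← h1]
      congr 1
      · apply Polynomial.ringHom_ext
        · intro a
          simp only [RingHom.comp_apply, Polynomial.coe_mapRingHom, Polynomial.map_C, Polynomial.coe_eval₂RingHom,
            Polynomial.eval₂_C]
          rw [hφ]
          congr 1
          exact (map_C _ _).symm
        · simp only [RingHom.comp_apply, Polynomial.coe_mapRingHom, Polynomial.map_X, Polynomial.coe_eval₂RingHom,
            Polynomial.eval₂_X]
          rw [hφ]
      · funext o
        cases o with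
        | none => exact (hφ _).symm
        | some j => rfl) j
  have h3 := descent_adjoin φ hφ F (z j) (by rw [range_two]; exact h2)
  rw [range_two] at h3
  exact h3

/-- the full statement -/
theorem CI_field (F : Fin 2 → MvPolynomial (Fin 2) k) (hJ : IsUnit (Matrix.det (jac F))) {r : ℕ} (D : CI k r)
    (z : Fin r → FractionRing (MvPolynomial (Fin 2) k))
    (hz : ∀ i, eval₂ ((algebraMap (MvPolynomial (Fin 2) k) (FractionRing (MvPolynomial (Fin 2) k))).comp
      (Polynomial.eval₂RingHom C (F 0)))
      (fun o => o.elim (algebraMap (MvPolynomial (Fin 2) k) (FractionRing (MvPolynomial (Fin 2) k)) (F 1)) z)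
        (D.Φ i) = 0) :
    (∀ j, z j ∈ IntermediateField.adjoin k (Set.range fun j =>
        algebraMap (MvPolynomial (Fin 2) k) (FractionRing (MvPolynomial (Fin 2) k)) (F j))) ∧
      (IntermediateField.adjoin k (Set.range (fun j =>
        algebraMap (MvPolynomial (Fin 2) k) (FractionRing (MvPolynomial (Fin 2) k)) (F j)) ∪ Set.range z) = ⊤ →
        ∃ G : Fin 2 → MvPolynomial (Fin 2) k, (∀ j, aeval F (G j) = X j) ∧ (∀ j, aeval G (F j) = X j)) := by
  have h1 : ∀ j, z j ∈ IntermediateField.adjoin k (Set.range fun j =>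
        algebraMap (MvPolynomial (Fin 2) k) (FractionRing (MvPolynomial (Fin 2) k)) (F j)) := by
    intro j
    rw [range_two]
    exact CI_any F hJ D z hz j
  refine ⟨h1, fun htop => ?_⟩
  apply inverse_of_top F hJ
  rw [eq_top_iff]
  intro p _
  apply mem_SS_of_mem_fF (FractionRing (MvPolynomial (Fin 2) k)) F hJ p
  rw [fF]
  have h2 : IntermediateField.adjoin k (Set.range (fun j =>
        algebraMap (MvPolynomial (Fin 2) k) (FractionRing (MvPolynomial (Fin 2) k)) (F j)) ∪ Set.range z) ≤
      IntermediateField.adjoin k (Set.range fun j =>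
        algebraMap (MvPolynomial (Fin 2) k) (FractionRing (MvPolynomial (Fin 2) k)) (F j)) := by
    rw [IntermediateField.adjoin_le_iff]
    rintro x (hx | ⟨j, rfl⟩)
    · exact IntermediateField.subset_adjoin _ _ hx
    · exact h1 j
  rw [htop] at h2
  exact h2 trivial

end any

end Pool.Agent.Y235.JC
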