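import Mathlib
import Pool.Agent.Y235.JC.P6

set_option autoImplicit false
set_option linter.unusedSectionVars false
set_option linter.style.haveILetI false

open Polynomial

namespace Pool.Agent.Y235.JC

open Pool.Agent.H922R2 (IsDer)
open Pool.Agent.H922R2.R
open Pool.Agent.H922R2.EL (OV)
open Pool.Agent.Helper165.P1 (HQ Pui)

section der

/-- a relative derivation that vanishes on `A` vanishes on elements algebraic over `A` -/
theorem der_alg_zero {A L H : Type*} [CommRing A] [IsDomain A] [CharZero A] [Field L] [Field H]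
    (φ : A →+* L) (hφ : Function.Injective φ) (j : L →+* H) (Δ : L → H)
    (hadd : ∀ x y, Δ (x + y) = Δ x + Δ y) (hmul : ∀ x y, Δ (x * y) = j x * Δ y + j y * Δ x)
    (hA : ∀ a, Δ (φ a) = 0) (z : L) (P : A[X]) (hP : P ≠ 0) (hz : P.eval₂ φ z = 0) : Δ z = 0 := by
  have h1 : Δ 1 = 0 := by rw [← map_one φ]; exact hA 1
  have h0 : Δ 0 = 0 := by rw [← map_zero φ]; exact hA 0
  have hpow : ∀ n : ℕ, Δ (z ^ (n + 1)) = (n + 1) * j z ^ n * Δ z := by
    intro n
    induction n with
    | zero => simp
    | succ n ih =>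
      rw [pow_succ, hmul, ih, map_pow]
      push_cast
      ring
  have heval : ∀ Q : A[X], Δ (Q.eval₂ φ z) = j (Q.derivative.eval₂ φ z) * Δ z := by
    intro Q
    induction Q using Polynomial.induction_on' with
    | add p q hp hq =>
      rw [Polynomial.eval₂_add, hadd, hp, hq, map_add, Polynomial.eval₂_add, map_add]; ring
    | monomial n a =>
      rcases n with _ | n
      · rw [Polynomial.eval₂_monomial, pow_zero, mul_one, hA, Polynomial.derivative_monomial]
        simp
      · rw [Polynomial.eval₂_monomial, hmul, hA, mul_zero, add_zero, hpow, Polynomial.derivative_monomial,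
          Polynomial.eval₂_monomial, Nat.add_sub_cancel, map_mul, map_mul, map_natCast, map_mul, map_natCast, map_pow]
        push_cast
        ring
  have key : ∀ n : ℕ, ∀ Q : A[X], Q.natDegree = n → Q ≠ 0 → Q.eval₂ φ z = 0 → Δ z = 0 := by
    intro n
    induction n using Nat.strong_induction_on with
    | _ n ih =>
    intro Q hn hQ hQz
    by_cases hd : Q.derivative.eval₂ φ z = 0
    · have hnd : Q.natDegree ≠ 0 := by
        intro h
        rw [Polynomial.eq_C_of_natDegree_eq_zero h, Polynomial.eval₂_C, map_eq_zero_iff _ hφ] at hQz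
        apply hQ
        rw [Polynomial.eq_C_of_natDegree_eq_zero h, hQz, map_zero]
      exact ih _ (by rw [← hn]; exact Polynomial.natDegree_derivative_lt hnd) Q.derivative rfl
        (fun h => hnd (Polynomial.derivative_eq_zero.1 h)) hd
    · have h2 := heval Q
      rw [hQz, h0] at h2
      refine (mul_eq_zero.1 h2.symm).resolve_left ?_
      rw [map_eq_zero]
      exact hd
  exact key _ P rfl hP hz

end der

section coeffs

variable {A Q L Ψ : Type*} [CommRing A] [IsDomain A] [Field Q] [Algebra A Q] [IsFractionRing A Q] [Field L]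
  [Algebra A L] [Algebra Q L] [IsScalarTower A Q L] [Algebra.IsAlgebraic Q L] [Field Ψ] [IsAlgClosed Ψ]

omit [IsAlgClosed Ψ] in
theorem coeff_prod_mem (O : Subring Ψ) (s : Multiset Ψ) (hs : ∀ x ∈ s, x ∈ O) (i : ℕ) :
    ((s.map fun a => Polynomial.X - Polynomial.C a).prod.coeff i) ∈ O := by
  induction s using Multiset.induction_on generalizing i with
  | empty =>
    rw [Multiset.map_zero, Multiset.prod_zero, Polynomial.coeff_one]
    split_ifs
    · exact one_mem O
    · exact zero_mem O
  | cons a s ih =>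
    have ha := hs a (Multiset.mem_cons_self a s)
    have ih' := fun j => ih (fun x hx => hs x (Multiset.mem_cons_of_mem hx)) j
    rw [Multiset.map_cons, Multiset.prod_cons, sub_mul, Polynomial.coeff_sub, Polynomial.coeff_C_mul]
    apply sub_mem
    · rcases i with _ | i
      · rw [Polynomial.coeff_X_mul_zero]; exact zero_mem O
      · rw [Polynomial.coeff_X_mul]; exact ih' i
    · exact mul_mem ha (ih' i)

/-- coefficients of minimal polynomials in terms of conjugates -/
theorem coeffs_mem (τ : A →+* Ψ) (hτ : Function.Injective τ) (O : Subring Ψ) (y : L)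
    (h : ∀ σ : L →+* Ψ, (∀ a, σ (algebraMap A L a) = τ a) → σ y ∈ O) (i : ℕ) (n d : A)
    (hnd : (minpoly Q y).coeff i * algebraMap A Q d = algebraMap A Q n) : ∃ w ∈ O, w * τ d = τ n := by
  letI : Algebra A Ψ := τ.toAlgebra
  have hmapP : algebraMap A Ψ = τ := rfl
  letI : Algebra Q Ψ := (IsFractionRing.lift (A := A) (K := Q) (g := τ) hτ).toAlgebra
  have hQ : ∀ a, algebraMap Q Ψ (algebraMap A Q a) = τ a := fun a => IsFractionRing.lift_algebraMap hτ a
  have hyint : IsIntegral Q y := Algebra.IsIntegral.isIntegral y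
  have hroots : ∀ ρ ∈ ((minpoly Q y).map (algebraMap Q Ψ)).roots, ρ ∈ O := by
    intro ρ hρ
    have h1 : ρ ∈ (minpoly Q y).rootSet Ψ := by
      have h0 := (Polynomial.mem_roots'.1 hρ)
      rw [Polynomial.mem_rootSet']
      refine ⟨h0.1, ?_⟩
      rw [Polynomial.aeval_def, ← Polynomial.eval_map]
      exact h0.2
    rw [← Algebra.IsAlgebraic.range_eval_eq_rootSet_minpoly] at h1
    obtain ⟨ψ, hψ⟩ := h1
    change ψ y = ρ at hψ
    rw [← hψ]
    apply h (ψ : L →+* Ψ)
    intro a
    rw [IsScalarTower.algebraMap_apply A Q L, RingHom.coe_coe, AlgHom.commutes, hQ]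
  have hsplit : ((minpoly Q y).map (algebraMap Q Ψ)).Splits := IsAlgClosed.splits _
  have hmonic := (minpoly.monic hyint).map (algebraMap Q Ψ)
  have h3 := hsplit.eq_prod_roots_of_monic hmonic
  refine ⟨((minpoly Q y).map (algebraMap Q Ψ)).coeff i, ?_, ?_⟩
  · rw [h3]
    exact coeff_prod_mem O _ hroots i
  · rw [Polynomial.coeff_map, ← hQ, ← hQ, ← map_mul, hnd]

end coeffs

section ov

variable {k L : Type*} [Field k] [CharZero k] [Field L] [Algebra k L] {V : OV k L}

/-- orders of integral elements -/
theorem OV_int {A : Type*} [CommRing A] (φ : A →+* L) (P : A[X]) (hP : P.Monic) (z : L)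
    (hz : P.eval₂ φ z = 0) (lam : ℚ) (hlam : 0 ≤ lam) (h : ∀ i, i < P.natDegree → V.ge (-lam) (φ (P.coeff i))) :
    V.ge (-lam) z := by
  by_contra hcon
  have hz0 : z ≠ 0 := by rintro rfl; exact hcon (V.ge_zero _)
  rw [V.ge_iff hz0] at hcon
  push Not at hcon
  have hneg : V.o z < 0 := by linarith
  have hn : 0 < P.natDegree := by
    by_contra h0
    have h1 : P.natDegree = 0 := by omega
    rw [hP.natDegree_eq_zero.1 h1, Polynomial.eval₂_one] at hz
    exact one_ne_zero hz
  have h1 := hz
  rw [Polynomial.eval₂_eq_sum_range, Finset.sum_range_succ, hP.coeff_natDegree, map_one, one_mul] at h1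
  have h2 : V.ge (P.natDegree * V.o z + min (-(V.o z) - lam) 1) (-∑ i ∈ Finset.range P.natDegree, φ (P.coeff i) * z ^ i) := by
    apply OV.ge.neg
    apply OV_ge_sum
    intro i hi
    rw [Finset.mem_range] at hi
    have h3 := (h i hi).mul ((V.ge_self z).pow i)
    apply h3.mono
    have h4 : (i : ℚ) ≤ P.natDegree - 1 := by
      have : (i : ℚ) + 1 ≤ P.natDegree := by exact_mod_cast hi
      linarith
    have h5 := min_le_left (-(V.o z) - lam) 1
    have h6 : ((P.natDegree : ℚ) - 1) * V.o z ≤ i * V.o z := mul_le_mul_of_nonpos_right h4 hneg.le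
    linarith
  have h3 : z ^ P.natDegree = -∑ i ∈ Finset.range P.natDegree, φ (P.coeff i) * z ^ i := by
    linear_combination h1
  rw [← h3, V.ge_iff (pow_ne_zero _ hz0), V.pow _ hz0] at h2
  have h4 : 0 < min (-(V.o z) - lam) 1 := lt_min (by linarith) one_pos
  linarith

end ov

end Pool.Agent.Y235.JC
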