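import Mathlib
import Pool.Agent.Y235.JC.U1

set_option autoImplicit false
set_option linter.unusedSectionVars false
set_option linter.style.haveILetI false

open Polynomial

namespace Pool.Agent.Y235.JC

open Pool.Agent.H922R2 (IsDer)
open Pool.Agent.H922R2.R
open Pool.Agent.H922R2.EL (OV)
open Pool.Agent.Helper165.P1 (HQ Pui)

section puis

variable {K : Type*} [Field K] [CharZero K]

instance instCharZeroAC : CharZero (AlgebraicClosure K) :=
  charZero_of_injective_algebraMap (algebraMap K (AlgebraicClosure K)).injective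

/-- `X ↦ x`, constants to constants -/
noncomputable def tauH (x : HQ (AlgebraicClosure K)) : K[X] →+* HQ (AlgebraicClosure K) :=
  eval₂RingHom (HahnSeries.C.comp (algebraMap K (AlgebraicClosure K))) x

theorem tauH_C (x : HQ (AlgebraicClosure K)) (c : K) :
    tauH x (C c) = HahnSeries.C (algebraMap K (AlgebraicClosure K) c) := by
  simp [tauH]

theorem tauH_X (x : HQ (AlgebraicClosure K)) : tauH x (X : K[X]) = x := by
  simp [tauH]

theorem tauH_eq (x : HQ (AlgebraicClosure K)) (p : K[X]) :
    tauH x p = (p.map (algebraMap K (AlgebraicClosure K))).eval₂ HahnSeries.C x := by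
  rw [Polynomial.eval₂_map]; rfl

theorem tauH_mem (x : HQ (AlgebraicClosure K)) (hx : x ∈ Pui (AlgebraicClosure K)) (p : K[X]) :
    tauH x p ∈ Pui (AlgebraicClosure K) := by
  induction p using Polynomial.induction_on' with
  | add p q hp hq => rw [map_add]; exact add_mem hp hq
  | monomial m a =>
    rw [← C_mul_X_pow_eq_monomial, map_mul, map_pow, tauH_C, tauH_X]
    exact mul_mem (single_mem_Pui' 0 _) (pow_mem hx _)

/-- the same with values in Puiseux series -/
noncomputable def tauP (x : HQ (AlgebraicClosure K)) (hx : x ∈ Pui (AlgebraicClosure K)) :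
    K[X] →+* Pui (AlgebraicClosure K) :=
  (tauH x).codRestrict (Pui (AlgebraicClosure K)) (tauH_mem x hx)

theorem tauP_coe (x : HQ (AlgebraicClosure K)) (hx : x ∈ Pui (AlgebraicClosure K)) (p : K[X]) :
    ((tauP x hx p : Pui (AlgebraicClosure K)) : HQ (AlgebraicClosure K)) = tauH x p := rfl

/-- values at finite points -/
theorem eval_Lb {F : Type*} [Field F] (R : F[X]) (x : HahnSeries ℚ F) (hx : Lb 0 x) :
    Lb 0 (R.eval₂ HahnSeries.C x) ∧ (R.eval₂ HahnSeries.C x).coeff 0 = R.eval (x.coeff 0) := by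
  induction R using Polynomial.induction_on' with
  | add p q hp hq =>
    rw [Polynomial.eval₂_add, Polynomial.eval_add, HahnSeries.coeff_add, hp.2, hq.2]
    exact ⟨hp.1.add hq.1, rfl⟩
  | monomial n a =>
    rw [Polynomial.eval₂_monomial, Polynomial.eval_monomial]
    have h1 := hx.pow n
    have h2 := hx.coeff_pow n
    rw [mul_zero] at h1 h2
    have h3 := (Lb_C a).mul h1
    have h4 := (Lb_C a).coeff_mul h1
    rw [add_zero] at h3 h4
    refine ⟨h3, ?_⟩
    rw [h4, h2, HahnSeries.C_apply, HahnSeries.coeff_single, if_pos rfl]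

theorem order_zero_of {F : Type*} [Field F] (x : HahnSeries ℚ F) (hx : Lb 0 x) (h0 : x.coeff 0 ≠ 0) :
    x ≠ 0 ∧ x.order = 0 := by
  refine ⟨?_, order_eq_of hx h0⟩
  rintro rfl
  exact h0 rfl

/-- the point `X ↦ a + t` -/
noncomputable def ptF (a : AlgebraicClosure K) : HQ (AlgebraicClosure K) :=
  HahnSeries.C a + HahnSeries.single 1 1

theorem ptF_mem (a : AlgebraicClosure K) : ptF a ∈ Pui (AlgebraicClosure K) :=
  add_mem (single_mem_Pui' 0 a) (single_mem_Pui' 1 1)

theorem ptF_Lb (a : AlgebraicClosure K) : Lb 0 (ptF a) ∧ (ptF a).coeff 0 = a := by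
  refine ⟨(Lb_C a).add ((Lb_single 1 1).mono zero_le_one), ?_⟩
  rw [ptF, HahnSeries.coeff_add, HahnSeries.C_apply, HahnSeries.coeff_single, if_pos rfl,
    HahnSeries.coeff_single, if_neg (by norm_num), add_zero]

/-- the point `X ↦ 1 / t` -/
noncomputable def ptI (K : Type*) [Field K] [CharZero K] : HQ (AlgebraicClosure K) := HahnSeries.single (-1) 1

theorem ptI_mem : ptI K ∈ Pui (AlgebraicClosure K) := single_mem_Pui' (-1) 1

theorem tauH_ptF (a : AlgebraicClosure K) (p : K[X]) :
    Lb 0 (tauH (ptF a) p) ∧ (tauH (ptF a) p).coeff 0 = aeval a p := by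
  rw [tauH_eq]
  have h := eval_Lb (p.map (algebraMap K (AlgebraicClosure K))) (ptF a) (ptF_Lb a).1
  refine ⟨h.1, ?_⟩
  rw [h.2, (ptF_Lb a).2, Polynomial.eval_map, Polynomial.aeval_def]

theorem order_tauH_ptF (a : AlgebraicClosure K) (p : K[X]) (hp : p ≠ 0) :
    tauH (ptF a) p ≠ 0 ∧ ∃ n : ℕ, (tauH (ptF a) p).order = n := by
  have hp' : p.map (algebraMap K (AlgebraicClosure K)) ≠ 0 := by
    rw [Ne, Polynomial.map_eq_zero]; exact hp
  obtain ⟨R, hR, hRd⟩ := Polynomial.exists_eq_pow_rootMultiplicity_mul_and_not_dvd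
    (p.map (algebraMap K (AlgebraicClosure K))) hp' a
  set m := rootMultiplicity a (p.map (algebraMap K (AlgebraicClosure K)))
  have h1 := eval_Lb R (ptF a) (ptF_Lb a).1
  rw [(ptF_Lb a).2] at h1
  have hRa : R.eval a ≠ 0 := fun h => hRd (Polynomial.dvd_iff_isRoot.2 h)
  obtain ⟨h2, h3⟩ := order_zero_of _ h1.1 (by rw [h1.2]; exact hRa)
  have h4 : tauH (ptF a) p = (HahnSeries.single (1 : ℚ) (1 : AlgebraicClosure K)) ^ m * R.eval₂ HahnSeries.C (ptF a) := by
    rw [tauH_eq, hR, Polynomial.eval₂_mul, Polynomial.eval₂_pow, Polynomial.eval₂_sub, Polynomial.eval₂_X,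
      Polynomial.eval₂_C]
    congr 2
    rw [ptF]; ring
  have h5 : (HahnSeries.single (1 : ℚ) (1 : AlgebraicClosure K)) ≠ 0 := HahnSeries.single_ne_zero one_ne_zero
  refine ⟨by rw [h4]; exact mul_ne_zero (pow_ne_zero _ h5) h2, m, ?_⟩
  rw [h4, HahnSeries.order_mul (pow_ne_zero _ h5) h2, h3, HahnSeries.order_pow, HahnSeries.order_single one_ne_zero]
  simp

theorem tauH_ptI (p : K[X]) (hp : p ≠ 0) :
    tauH (ptI K) p ≠ 0 ∧ (tauH (ptI K) p).order = -(p.natDegree : ℚ) := by
  have h1 : (ptI K).order = -1 := HahnSeries.order_single one_ne_zero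
  have h := ordEval (algebraMap K (AlgebraicClosure K)) (algebraMap K (AlgebraicClosure K)).injective (ptI K)
    (by rw [h1]; norm_num) p hp
  refine ⟨h.2.2.2.2, ?_⟩
  have h2 := h.2.2.1
  rw [h1] at h2
  rw [tauH]
  simp only [coe_eval₂RingHom]
  rw [h2]; ring

theorem tauP_inj_F (a : AlgebraicClosure K) : Function.Injective (tauP (ptF a) (ptF_mem a) : K[X] →+* _) := by
  rw [injective_iff_map_eq_zero]
  intro p hp
  by_contra h0
  apply (order_tauH_ptF a p h0).1
  rw [← tauP_coe _ (ptF_mem a), hp]; rfl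

theorem tauP_inj_I : Function.Injective (tauP (ptI K) ptI_mem : K[X] →+* _) := by
  rw [injective_iff_map_eq_zero]
  intro p hp
  by_contra h0
  apply (tauH_ptI p h0).1
  rw [← tauP_coe _ ptI_mem, hp]; rfl

/-- the value of a polynomial with a simple root at the constant term -/
theorem order_simple {F : Type*} [Field F] (c : F) (s : HahnSeries ℚ F) (hs : s ≠ 0) (hs0 : 0 < s.order)
    (P : F[X]) (h0 : P.eval c = 0) (h1 : P.derivative.eval c ≠ 0) :
    P.eval₂ HahnSeries.C (HahnSeries.C c + s) ≠ 0 ∧ (P.eval₂ HahnSeries.C (HahnSeries.C c + s)).order = s.order := by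
  obtain ⟨R, hR⟩ := Polynomial.dvd_iff_isRoot.2 h0
  have hRc : R.eval c ≠ 0 := by
    rw [hR] at h1
    simp at h1
    exact h1
  have hsLb : Lb 0 s := (Lb_order s).mono hs0.le
  have hs00 : s.coeff 0 = 0 := Lb_order s 0 hs0
  have h2 := eval_Lb R (HahnSeries.C c + s) ((Lb_C c).add hsLb)
  have h3 : (HahnSeries.C c + s).coeff 0 = c := by
    rw [HahnSeries.coeff_add, hs00, HahnSeries.C_apply, HahnSeries.coeff_single, if_pos rfl, add_zero]
  rw [h3] at h2
  obtain ⟨h4, h5⟩ := order_zero_of _ h2.1 (by rw [h2.2]; exact hRc)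
  have h6 : P.eval₂ HahnSeries.C (HahnSeries.C c + s) = s * R.eval₂ HahnSeries.C (HahnSeries.C c + s) := by
    rw [hR, Polynomial.eval₂_mul, Polynomial.eval₂_sub, Polynomial.eval₂_X, Polynomial.eval₂_C]
    ring
  rw [h6]
  refine ⟨mul_ne_zero hs h4, ?_⟩
  rw [HahnSeries.order_mul hs h4, h5, add_zero]

end puis

section T2

variable {K : Type*} [Field K] [CharZero K] {Q L : Type*} [Field Q] [Algebra K[X] Q] [IsFractionRing K[X] Q] [Field L]
  [Algebra K[X] L] [FaithfulSMul K[X] L] [Algebra Q L] [IsScalarTower K[X] Q L] [Algebra.IsAlgebraic Q L]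
  [Algebra K L] [IsScalarTower K K[X] L]

/-- an embedding into Puiseux series of given type -/
def IsType (x : HQ (AlgebraicClosure K)) (σ : L →+* Pui (AlgebraicClosure K)) : Prop :=
  ∀ p : K[X], ((σ (algebraMap K[X] L p) : Pui (AlgebraicClosure K)) : HQ (AlgebraicClosure K)) = tauH x p

theorem IsType.cst {x : HQ (AlgebraicClosure K)} {σ : L →+* Pui (AlgebraicClosure K)} (h : IsType x σ) (c : K) :
    ((σ (algebraMap K L c) : Pui (AlgebraicClosure K)) : HQ (AlgebraicClosure K)) =
      HahnSeries.C (algebraMap K (AlgebraicClosure K) c) := by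
  rw [IsScalarTower.algebraMap_apply K K[X] L, Polynomial.algebraMap_eq, h, tauH_C]

/-- the order function of an embedding -/
noncomputable def VS {x : HQ (AlgebraicClosure K)} {σ : L →+* Pui (AlgebraicClosure K)} (h : IsType x σ) : OV K L :=
  OV.ofHahn ((Pui (AlgebraicClosure K)).subtype.comp σ) (fun c hc => by
    have h1 := h.cst c
    change ((σ (algebraMap K L c) : Pui (AlgebraicClosure K)) : HQ (AlgebraicClosure K)).order = 0
    rw [h1, HahnSeries.order_C])

theorem VS_o {x : HQ (AlgebraicClosure K)} {σ : L →+* Pui (AlgebraicClosure K)} (h : IsType x σ) (z : L) :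
    (VS h).o z = ((σ z : Pui (AlgebraicClosure K)) : HQ (AlgebraicClosure K)).order := rfl

theorem VS_ge {x : HQ (AlgebraicClosure K)} {σ : L →+* Pui (AlgebraicClosure K)} (h : IsType x σ) (z : L) (c : ℚ) :
    (VS h).ge c z ↔ Lb c ((σ z : Pui (AlgebraicClosure K)) : HQ (AlgebraicClosure K)) := by
  constructor
  · rintro (rfl | h1)
    · rw [map_zero]; exact Lb.zero _
    · exact (Lb_order _).mono h1
  · intro h1
    by_cases hz : z = 0
    · exact Or.inl hz
    · right
      rw [VS_o]
      apply h1.le_order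
      intro h2
      apply hz
      rw [← map_eq_zero_iff σ σ.injective]
      exact Subtype.ext h2

variable (D : L → L) (δ : K)

/-- comparison of derivations -/
theorem star (hD : IsDer D) (hDC : ∀ c : K, D (algebraMap K L c) = 0)
    (hDX : D (algebraMap K[X] L X) = algebraMap K L δ) {x : HQ (AlgebraicClosure K)}
    {σ : L →+* Pui (AlgebraicClosure K)} (h : IsType x σ) (z : L) (hz : IsAlgebraic K[X] z) :
    HahnSeries.C (algebraMap K (AlgebraicClosure K) δ) * eul K ((σ z : Pui (AlgebraicClosure K)) : HQ (AlgebraicClosure K)) =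
      ((σ (D z) : Pui (AlgebraicClosure K)) : HQ (AlgebraicClosure K)) * eul K x := by
  obtain ⟨P, hP, hPz⟩ := hz
  set j : L →+* HQ (AlgebraicClosure K) := (Pui (AlgebraicClosure K)).subtype.comp σ with hj
  have hjz : ∀ z, j z = ((σ z : Pui (AlgebraicClosure K)) : HQ (AlgebraicClosure K)) := fun z => rfl
  set Δ : L → HQ (AlgebraicClosure K) := fun z =>
    HahnSeries.C (algebraMap K (AlgebraicClosure K) δ) * eul K (j z) - j (D z) * eul K x with hΔ
  have hadd : ∀ x y, Δ (x + y) = Δ x + Δ y := by
    intro a b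
    simp only [hΔ]
    rw [map_add, (eul_isDer K).add, hD.add, map_add]; ring
  have hmul : ∀ x y, Δ (x * y) = j x * Δ y + j y * Δ x := by
    intro a b
    simp only [hΔ]
    rw [map_mul, (eul_isDer K).mul, hD.mul, map_add, map_mul, map_mul]; ring
  have hC : ∀ c : K, Δ (algebraMap K[X] L (C c)) = 0 := by
    intro c
    have h1 := h.cst c
    rw [IsScalarTower.algebraMap_apply K K[X] L, Polynomial.algebraMap_eq] at h1
    simp only [hΔ]
    rw [hjz, h1, eul_C]
    have h2 := hDC c
    rw [IsScalarTower.algebraMap_apply K K[X] L, Polynomial.algebraMap_eq] at h2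
    rw [h2, map_zero]; ring
  have hX : Δ (algebraMap K[X] L X) = 0 := by
    simp only [hΔ]
    rw [hDX, hjz, hjz, h, h.cst, tauH_X]; ring
  have hA : ∀ p : K[X], Δ (algebraMap K[X] L p) = 0 := by
    intro p
    induction p using Polynomial.induction_on with
    | C a => exact hC a
    | add p q hp hq => rw [map_add, hadd, hp, hq, add_zero]
    | monomial n a ih => rw [pow_succ, ← mul_assoc, map_mul, hmul, ih, hX]; ring
  have h1 := der_alg_zero (algebraMap K[X] L) (FaithfulSMul.algebraMap_injective K[X] L) j Δ hadd hmul hA z P hP hPz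
  exact sub_eq_zero.1 h1

variable (M : Subfield L)

/-- the unramifiedness condition -/
def Unr : Prop := ∀ (a : AlgebraicClosure K) (σ : L →+* Pui (AlgebraicClosure K)), IsType (ptF a) σ →
  ∀ y ∈ M, y ≠ 0 → 0 < ((σ y : Pui (AlgebraicClosure K)) : HQ (AlgebraicClosure K)).order →
    1 ≤ ((σ y : Pui (AlgebraicClosure K)) : HQ (AlgebraicClosure K)).order

theorem int_Lb {a : AlgebraicClosure K} {σ : L →+* Pui (AlgebraicClosure K)} (h : IsType (ptF a) σ) (z : L)
    (hz : IsIntegral K[X] z) : Lb 0 ((σ z : Pui (AlgebraicClosure K)) : HQ (AlgebraicClosure K)) := by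
  obtain ⟨P, hP, hPz⟩ := hz
  rw [← VS_ge h]
  have h1 := OV_int (V := VS h) (algebraMap K[X] L) P hP z hPz 0 le_rfl (fun i _ => by
    rw [neg_zero, VS_ge h, h]
    exact (tauH_ptF a _).1)
  rwa [neg_zero] at h1

/-- the derivative of an integral element is regular at the finite places -/
theorem D_Lb (hM : ∀ p, algebraMap K[X] L p ∈ M) (hD : IsDer D) (hDC : ∀ c : K, D (algebraMap K L c) = 0)
    (hδ : δ ≠ 0) (hDX : D (algebraMap K[X] L X) = algebraMap K L δ) (hunr : Unr (K := K) M)
    {a : AlgebraicClosure K} {σ : L →+* Pui (AlgebraicClosure K)} (h : IsType (ptF a) σ) (z : L) (hzM : z ∈ M)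
    (hz : IsIntegral K[X] z) : Lb 0 ((σ (D z) : Pui (AlgebraicClosure K)) : HQ (AlgebraicClosure K)) := by
  have h0 := int_Lb h z hz
  set ζ := ((σ z : Pui (AlgebraicClosure K)) : HQ (AlgebraicClosure K)) with hζ
  set c := ζ.coeff 0 with hc
  set s := ζ - HahnSeries.C c with hs
  have hstar := star D δ hD hDC hDX h z hz.isAlgebraic
  rw [← hζ] at hstar
  have he : eul K (ptF a) = HahnSeries.single 1 1 := by
    rw [ptF, (eul_isDer K).add, eul_C, zero_add, eul_single]
    simp
  have hes : eul K ζ = eul K s := by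
    have : ζ = HahnSeries.C c + s := by rw [hs]; ring
    rw [this, (eul_isDer K).add, eul_C, zero_add]
  rw [he, hes] at hstar
  have hs1 : Lb 1 s := by
    by_cases hs0 : s = 0
    · rw [hs0]; exact Lb.zero _
    have hsLb : Lb 0 s := h0.sub (Lb_C c)
    have hs00 : s.coeff 0 = 0 := by
      rw [hs, HahnSeries.coeff_sub, HahnSeries.C_apply, HahnSeries.coeff_single, if_pos rfl, ← hc, sub_self]
    have hpos : 0 < s.order := by
      rcases (hsLb.le_order hs0).lt_or_eq with h1 | h1
      · exact h1
      · exfalso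
        have h2 := HahnSeries.coeff_order_eq_zero.not.2 hs0
        rw [← h1, hs00] at h2
        exact h2 rfl
    have hcint : IsIntegral K c := Algebra.IsIntegral.isIntegral c
    set P := minpoly K c with hP
    have hsep : P.Separable := (minpoly.irreducible hcint).separable
    have hP0 : (P.map (algebraMap K (AlgebraicClosure K))).eval c = 0 := by
      rw [Polynomial.eval_map, ← Polynomial.aeval_def]; exact minpoly.aeval K c
    have hP1 : (P.map (algebraMap K (AlgebraicClosure K))).derivative.eval c ≠ 0 := by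
      rw [Polynomial.derivative_map, Polynomial.eval_map, ← Polynomial.aeval_def]
      exact hsep.aeval_derivative_ne_zero (minpoly.aeval K c)
    have h3 := order_simple c s hs0 hpos _ hP0 hP1
    have h4 : (P.map (algebraMap K (AlgebraicClosure K))).eval₂ HahnSeries.C (HahnSeries.C c + s) =
        ((σ (P.eval₂ (algebraMap K L) z) : Pui (AlgebraicClosure K)) : HQ (AlgebraicClosure K)) := by
      have h5 : HahnSeries.C c + s = ζ := by rw [hs]; ring
      rw [h5, Polynomial.eval₂_map]
      have h6 := Polynomial.hom_eval₂ P (algebraMap K L) ((Pui (AlgebraicClosure K)).subtype.comp σ) z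
      have h7 : ((Pui (AlgebraicClosure K)).subtype.comp σ).comp (algebraMap K L) =
          HahnSeries.C.comp (algebraMap K (AlgebraicClosure K)) := RingHom.ext fun c => h.cst c
      rw [h7] at h6
      exact h6.symm
    rw [h4] at h3
    have hyM : P.eval₂ (algebraMap K L) z ∈ M := by
      rw [Polynomial.eval₂_eq_sum_range]
      refine sum_mem fun i _ => mul_mem ?_ (pow_mem hzM i)
      rw [IsScalarTower.algebraMap_apply K K[X] L]
      exact hM _
    have hy0 : P.eval₂ (algebraMap K L) z ≠ 0 := by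
      intro h8
      rw [h8, map_zero] at h3
      exact h3.1 rfl
    have h9 := hunr a σ h _ hyM hy0 (by rw [h3.2]; exact hpos)
    rw [h3.2] at h9
    exact (Lb_order s).mono h9
  have h10 : Lb 1 (((σ (D z) : Pui (AlgebraicClosure K)) : HQ (AlgebraicClosure K)) * HahnSeries.single 1 1) := by
    rw [← hstar]
    have := (Lb_C (algebraMap K (AlgebraicClosure K) δ)).mul (hs1.eul K)
    rwa [zero_add] at this
  have h11 := h10.mul (Lb_single (-1) (1 : AlgebraicClosure K))
  rw [mul_assoc, HahnSeries.single_mul_single] at h11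
  have e1 : (1 : ℚ) + -1 = 0 := by norm_num
  have e2 : (HahnSeries.single (0 : ℚ) (1 * 1 : AlgebraicClosure K)) = 1 := by rw [mul_one]; rfl
  rw [e1, e2, mul_one] at h11
  exact h11

include Q in
/-- elements regular at all finite places are integral -/
theorem int_of_Lb (y : L) (h : ∀ (a : AlgebraicClosure K) (σ : L →+* Pui (AlgebraicClosure K)), IsType (ptF a) σ →
    Lb 0 ((σ y : Pui (AlgebraicClosure K)) : HQ (AlgebraicClosure K))) : IsIntegral K[X] y := by
  classical
  set O : Subring (Pui (AlgebraicClosure K)) :=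
    { carrier := {w | Lb 0 ((w : Pui (AlgebraicClosure K)) : HQ (AlgebraicClosure K))}
      mul_mem' := fun {a b} ha hb => by
        have := ha.mul hb
        rw [add_zero] at this
        exact this
      one_mem' := Lb_one
      add_mem' := fun {a b} ha hb => ha.add hb
      zero_mem' := Lb.zero _
      neg_mem' := fun {a} ha => ha.neg } with hO
  have hyint : IsIntegral Q y := Algebra.IsIntegral.isIntegral y
  have hcoef : ∀ i, (minpoly Q y).coeff i ∈ Set.range (algebraMap K[X] Q) := by
    intro i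
    obtain ⟨n, ⟨d, hd0'⟩, hrel, hnd⟩ := IsFractionRing.exists_reduced_fraction (A := K[X]) ((minpoly Q y).coeff i)
    have hd0 : d ≠ 0 := nonZeroDivisors.ne_zero hd0'
    have hcd : (minpoly Q y).coeff i * algebraMap K[X] Q d = algebraMap K[X] Q n := by
      rw [← hnd]; exact IsLocalization.mk'_spec Q n ⟨d, hd0'⟩
    have hun : IsUnit d := by
      by_contra hnu
      have hdeg : (d.map (algebraMap K (AlgebraicClosure K))).degree ≠ 0 := by
        rw [Polynomial.degree_map]
        intro h0
        exact hnu (Polynomial.isUnit_iff_degree_eq_zero.2 h0)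
      obtain ⟨a, ha⟩ := IsAlgClosed.exists_root _ hdeg
      have hda : aeval a d = 0 := by
        rw [Polynomial.aeval_def, ← Polynomial.eval_map]; exact ha
      obtain ⟨w, hw, hwe⟩ := coeffs_mem (Q := Q) (tauP (ptF a) (ptF_mem a)) (tauP_inj_F a) O y (fun σ hσ => by
        apply h a σ
        intro p
        rw [hσ p, tauP_coe]) i n d hcd
      have h1 := congrArg (fun w : Pui (AlgebraicClosure K) => (w : HQ (AlgebraicClosure K)).coeff 0) hwe
      simp only [Subfield.coe_mul, tauP_coe] at h1
      have hwL : Lb 0 (w : HQ (AlgebraicClosure K)) := hw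
      have h2 := hwL.coeff_mul (tauH_ptF a d).1
      rw [add_zero] at h2
      rw [h2, (tauH_ptF a d).2, (tauH_ptF a n).2, hda, mul_zero] at h1
      have hcop : IsCoprime n d := hrel.isCoprime
      obtain ⟨A, B, hAB⟩ := hcop
      have h3 := congrArg (aeval a) hAB
      rw [map_add, map_mul, map_mul, ← h1, hda, mul_zero, mul_zero, add_zero, map_one] at h3
      exact zero_ne_one h3
    obtain ⟨d', hd'⟩ := hun.exists_right_inv
    refine ⟨n * d', ?_⟩
    rw [map_mul, ← hcd, mul_assoc, ← map_mul, hd', map_one, mul_one]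
  have hlift : minpoly Q y ∈ Polynomial.lifts (algebraMap K[X] Q) := by
    rw [Polynomial.lifts_iff_coeff_lifts]; exact hcoef
  obtain ⟨q, hq1, -, hq3⟩ := Polynomial.lifts_and_natDegree_eq_and_monic hlift (minpoly.monic hyint)
  refine ⟨q, hq3, ?_⟩
  have h1 := minpoly.aeval Q y
  rw [← hq1, Polynomial.aeval_map_algebraMap] at h1
  exact h1

include Q in
/-- the integral closure is stable -/
theorem D_int (hM : ∀ p, algebraMap K[X] L p ∈ M) (hD : IsDer D) (hDC : ∀ c : K, D (algebraMap K L c) = 0)
    (hδ : δ ≠ 0) (hDX : D (algebraMap K[X] L X) = algebraMap K L δ) (hunr : Unr (K := K) M) (z : L) (hzM : z ∈ M)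
    (hz : IsIntegral K[X] z) : IsIntegral K[X] (D z) :=
  int_of_Lb (Q := Q) (D z) fun _ _ h => D_Lb D δ M hM hD hDC hδ hDX hunr h z hzM hz

include Q in
/-- elements of the integral closure are nilpotent for `D` -/
theorem D_nilp (hM : ∀ p, algebraMap K[X] L p ∈ M) (hD : IsDer D) (hDM : ∀ z ∈ M, D z ∈ M)
    (hDC : ∀ c : K, D (algebraMap K L c) = 0)
    (hδ : δ ≠ 0) (hDX : D (algebraMap K[X] L X) = algebraMap K L δ) (hunr : Unr (K := K) M) (z : L) (hzM : z ∈ M)
    (hz : IsIntegral K[X] z) : ∃ n : ℕ, D^[n] z = 0 := by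
  classical
  have hit : ∀ n : ℕ, D^[n] z ∈ M ∧ IsIntegral K[X] (D^[n] z) := by
    intro n
    induction n with
    | zero => exact ⟨hzM, hz⟩
    | succ n ih =>
      rw [Function.iterate_succ_apply']
      exact ⟨hDM _ ih.1, D_int (Q := Q) D δ M hM hD hDC hδ hDX hunr _ ih.1 ih.2⟩
  obtain ⟨P, hP, hPz⟩ := hz
  set lam : ℕ := (Finset.range P.natDegree).sup fun i => (P.coeff i).natDegree with hlam
  have hbd : ∀ σ : L →+* Pui (AlgebraicClosure K), IsType (ptI K) σ →
      Lb (-(lam : ℚ)) ((σ z : Pui (AlgebraicClosure K)) : HQ (AlgebraicClosure K)) := by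
    intro σ h
    rw [← VS_ge h]
    apply OV_int (V := VS h) (algebraMap K[X] L) P hP z hPz lam (Nat.cast_nonneg _)
    intro i hi
    rw [VS_ge h, h]
    by_cases h0 : P.coeff i = 0
    · rw [h0, map_zero]; exact Lb.zero _
    · apply (Lb_order _).mono
      rw [(tauH_ptI _ h0).2]
      have h1 : (P.coeff i).natDegree ≤ lam :=
        Finset.le_sup (f := fun i => (P.coeff i).natDegree) (Finset.mem_range.2 hi)
      have h2 : ((P.coeff i).natDegree : ℚ) ≤ lam := by exact_mod_cast h1
      linarith
  have hstep : ∀ (n : ℕ) (σ : L →+* Pui (AlgebraicClosure K)), IsType (ptI K) σ →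
      Lb (-(lam : ℚ) + n) ((σ (D^[n] z) : Pui (AlgebraicClosure K)) : HQ (AlgebraicClosure K)) := by
    intro n σ h
    induction n with
    | zero =>
      have h1 := hbd σ h
      simpa using h1
    | succ n ih =>
      rw [Function.iterate_succ_apply']
      have h1 := star D δ hD hDC hDX h (D^[n] z) (hit n).2.isAlgebraic
      have he : eul K (ptI K) = -HahnSeries.single (-1) 1 := by
        rw [ptI, eul_single]
        simp
      rw [he] at h1
      have h2 := ((Lb_C (algebraMap K (AlgebraicClosure K) δ)).mul (ih.eul K)).mul (Lb_single (1 : ℚ) (-1 : AlgebraicClosure K))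
      rw [h1, mul_assoc, neg_mul, HahnSeries.single_mul_single] at h2
      have e1 : (-1 : ℚ) + 1 = 0 := by norm_num
      have e2 : -(HahnSeries.single (0 : ℚ) (1 * (-1) : AlgebraicClosure K)) = 1 := by
        rw [one_mul]
        change -(HahnSeries.C (-1 : AlgebraicClosure K)) = (1 : HahnSeries ℚ (AlgebraicClosure K))
        rw [map_neg, neg_neg, map_one]
      rw [e1, e2, mul_one] at h2
      apply h2.mono
      push_cast
      linarith
  refine ⟨lam + 1, ?_⟩
  rw [Function.iterate_succ_apply']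
  set y := D^[lam] z with hy
  have hyL : ∀ σ : L →+* Pui (AlgebraicClosure K), IsType (ptI K) σ →
      Lb 0 ((σ y : Pui (AlgebraicClosure K)) : HQ (AlgebraicClosure K)) := by
    intro σ h
    have h1 := hstep lam σ h
    rwa [neg_add_cancel] at h1
  have hyi := (hit lam).2
  rw [← hy] at hyi
  set O : Subring (Pui (AlgebraicClosure K)) :=
    { carrier := {w | Lb 0 ((w : Pui (AlgebraicClosure K)) : HQ (AlgebraicClosure K))}
      mul_mem' := fun {a b} ha hb => by
        have := ha.mul hb
        rw [add_zero] at this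
        exact this
      one_mem' := Lb_one
      add_mem' := fun {a b} ha hb => ha.add hb
      zero_mem' := Lb.zero _
      neg_mem' := fun {a} ha => ha.neg } with hO
  have hμ : minpoly Q y = (minpoly K[X] y).map (algebraMap _ _) :=
    minpoly.isIntegrallyClosed_eq_field_fractions _ _ hyi
  have hconst : ∀ i, (minpoly K[X] y).coeff i = C (((minpoly K[X] y).coeff i).coeff 0) := by
    intro i
    by_cases h0 : (minpoly K[X] y).coeff i = 0
    · rw [h0]; simp
    obtain ⟨w, hw, hwe⟩ := coeffs_mem (Q := Q) (tauP (ptI K) ptI_mem) tauP_inj_I O y (fun σ hσ => by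
      apply hyL σ
      intro p
      rw [hσ p, tauP_coe]) i ((minpoly K[X] y).coeff i) 1 (by rw [hμ, Polynomial.coeff_map, map_one, mul_one])
    rw [map_one, mul_one] at hwe
    rw [hwe] at hw
    have h1 : Lb 0 (tauH (ptI K) ((minpoly K[X] y).coeff i)) := hw
    have h2 := h1.le_order (tauH_ptI _ h0).1
    rw [(tauH_ptI _ h0).2] at h2
    apply Polynomial.eq_C_of_natDegree_eq_zero
    have h3 : (((minpoly K[X] y).coeff i).natDegree : ℚ) ≤ 0 := by linarith
    have h4 : ((minpoly K[X] y).coeff i).natDegree ≤ 0 := by exact_mod_cast h3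
    omega
  set R : K[X] := (minpoly K[X] y).map (Polynomial.evalRingHom (0 : K)) with hR
  have hRm : R.map (C : K →+* K[X]) = minpoly K[X] y := by
    ext1 i
    rw [Polynomial.coeff_map, hR, Polynomial.coeff_map, Polynomial.coe_evalRingHom, ← Polynomial.coeff_zero_eq_eval_zero,
      ← hconst i]
  apply der_alg_zero (algebraMap K L) (algebraMap K L).injective (RingHom.id L) D hD.add (fun a b => hD.mul a b)
    hDC y R
  · intro h0
    have h1 := minpoly.ne_zero hyi
    rw [← hRm, h0, Polynomial.map_zero] at h1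
    exact h1 rfl
  · have h1 := minpoly.aeval K[X] y
    rw [← hRm, Polynomial.aeval_def, Polynomial.eval₂_map] at h1
    have h2 : (algebraMap K[X] L).comp C = algebraMap K L := by
      ext c
      rw [RingHom.comp_apply, IsScalarTower.algebraMap_apply K K[X] L]; rfl
    rwa [h2] at h1

end T2

end Pool.Agent.Y235.JC
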