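import Mathlib
import Pool.Agent.Y235.JC.U2

set_option autoImplicit false
set_option linter.unusedSectionVars false
set_option linter.style.haveILetI false

open MvPolynomial

namespace Pool.Agent.Y235.JC

open Pool.Agent.H922R2 (IsDer SS jac det_jac DJ_apply algebraic_SS)
open Pool.Agent.H922R2.R
open Pool.Agent.H922R2.EL (OV VP VG DL DL_isDer DL_alg VP_kap VG_kap VG_o vpo_eq VP_alg VP_int VP_E alg_ne Jb_isDer
  toY_eval₂)
open Pool.Agent.Helper165.P1 (HQ Pui)

section ovring

variable {k₀ k L : Type*} [Field k₀] [CharZero k₀] [Field k] [Field L] [Algebra k₀ L] [Algebra k L]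

/-- the valuation ring of `M` given by an order function on `L` -/
def ovr (V : OV k₀ L) (M : IntermediateField k L) : ValuationSubring M where
  carrier := {z | V.ge 0 (z : L)}
  mul_mem' := fun {a b} ha hb => by
    have := OV.ge.mul ha hb
    rw [add_zero] at this
    exact this
  one_mem' := Or.inr (by
    change 0 ≤ V.o (1 : L)
    rw [V.one])
  add_mem' := fun {a b} ha hb => OV.ge.add ha hb
  zero_mem' := Or.inl rfl
  neg_mem' := fun {a} ha => OV.ge.neg ha
  mem_or_inv_mem' := by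
    intro z
    by_cases hz : (z : L) = 0
    · left; exact Or.inl hz
    rcases le_total 0 (V.o (z : L)) with h | h
    · left; exact Or.inr h
    · right
      right
      change 0 ≤ V.o ((z : L)⁻¹)
      rw [V.inv _ hz]; linarith

theorem mem_ovr {V : OV k₀ L} {M : IntermediateField k L} {z : M} : z ∈ ovr V M ↔ V.ge 0 (z : L) := Iff.rfl

theorem nonunit_ovr {V : OV k₀ L} {M : IntermediateField k L} {z : M} :
    z ∈ (ovr V M).nonunits ↔ z = 0 ∨ 0 < V.o (z : L) := by
  rw [ValuationSubring.mem_nonunits_iff_or]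
  by_cases hz : z = 0
  · simp [hz]
  have hz' : (z : L) ≠ 0 := by
    intro h; exact hz (Subtype.ext h)
  rw [or_iff_right hz, or_iff_right hz, mem_ovr]
  have h1 : ((z⁻¹ : M) : L) = (z : L)⁻¹ := rfl
  rw [h1, V.ge_iff (inv_ne_zero hz'), V.inv _ hz']
  constructor
  · intro h; push Not at h; linarith
  · intro h; push Not; linarith

end ovring

section defs

variable {k L : Type*} [Field k] [Field L] [Algebra k L]

/-- `O` contains `k(a)` -/
def CU (a : L) {M : IntermediateField k L} (O : ValuationSubring M) : Prop :=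
  ∀ z : M, (z : L) ∈ IntermediateField.adjoin k {a} → z ∈ O

/-- `O` is ramified over `k(a, b)` -/
def Ramif (a b : L) {M : IntermediateField k L} (O : ValuationSubring M) : Prop :=
  ∀ x : M, (x : L) ∈ IntermediateField.adjoin k {a, b} → x ∈ O.nonunits →
    ∃ y ∈ O.nonunits, ∃ z ∈ O.nonunits, x = y * z

end defs

section unr

variable {K : Type*} [Field K] [CharZero K] {L : Type*} [Field L]
  [Algebra (Polynomial K) L] [FaithfulSMul (Polynomial K) L]
  [Algebra K L] [IsScalarTower K (Polynomial K) L] {k : Type*} [Field k] [Algebra k L]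

theorem unr_of (M : IntermediateField k L) (hM : ∀ p, algebraMap (Polynomial K) L p ∈ M) (S : Set L)
    (hS : ∀ x ∈ S, ∃ n d : Polynomial K, d ≠ 0 ∧ x * algebraMap _ L d = algebraMap _ L n)
    (hram : ∀ O : ValuationSubring M, O ≠ ⊤ → (∀ p, (⟨algebraMap (Polynomial K) L p, hM p⟩ : M) ∈ O) →
      (∀ c : K, c ≠ 0 → (⟨algebraMap (Polynomial K) L (Polynomial.C c), hM _⟩ : M)⁻¹ ∈ O) →
      ∃ x : M, (x : L) ∈ S ∧ x ∈ O.nonunits ∧ ∀ y ∈ O.nonunits, ∀ z ∈ O.nonunits, x ≠ y * z) :
    Unr (K := K) M.toSubfield := by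
  intro a σ h y hy hy0 hpos
  set V := VS h with hV
  have hval : ∀ p, V.ge 0 (algebraMap (Polynomial K) L p) := by
    intro p
    rw [VS_ge h, h]
    exact (tauH_ptF a p).1
  have hne : ovr V M ≠ ⊤ := by
    intro htop
    set q := minpoly K a with hq
    have hq0 : q ≠ 0 := minpoly.ne_zero (Algebra.IsIntegral.isIntegral a)
    have h1 : (⟨algebraMap (Polynomial K) L q, hM q⟩ : M)⁻¹ ∈ ovr V M := by rw [htop]; trivial
    rw [mem_ovr] at h1
    have h2 : (((⟨algebraMap (Polynomial K) L q, hM q⟩ : M)⁻¹ : M) : L) = (algebraMap (Polynomial K) L q)⁻¹ := rfl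
    have h3 : algebraMap (Polynomial K) L q ≠ 0 := by
      rw [Ne, map_eq_zero_iff _ (FaithfulSMul.algebraMap_injective (Polynomial K) L)]; exact hq0
    rw [h2, V.ge_iff (inv_ne_zero h3), V.inv _ h3, VS_o, h] at h1
    have h4 := tauH_ptF a q
    rw [minpoly.aeval] at h4
    obtain ⟨h5, n, h6⟩ := order_tauH_ptF a q hq0
    rw [h6] at h1
    have h7 : (n : ℚ) = 0 := le_antisymm (by linarith) (Nat.cast_nonneg n)
    have h8 := HahnSeries.coeff_order_eq_zero.not.2 h5
    rw [h6, h7] at h8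
    exact h8 h4.2
  obtain ⟨x, hxS, hx1, hx2⟩ := hram (ovr V M) hne (fun p => by rw [mem_ovr]; exact hval p) (fun c hc => by
    rw [mem_ovr]
    right
    change 0 ≤ V.o (algebraMap (Polynomial K) L (Polynomial.C c))⁻¹
    have h3 : algebraMap (Polynomial K) L (Polynomial.C c) ≠ 0 := by
      rw [Ne, map_eq_zero_iff _ (FaithfulSMul.algebraMap_injective (Polynomial K) L), Polynomial.C_eq_zero]; exact hc
    rw [V.inv _ h3, VS_o, h, tauH_C, HahnSeries.order_C, neg_zero])
  have hx0 : x ≠ 0 := by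
    rintro rfl
    exact hx2 0 (by rw [nonunit_ovr]; exact Or.inl rfl) 0 (by rw [nonunit_ovr]; exact Or.inl rfl) (by rw [mul_zero])
  have hx0' : (x : L) ≠ 0 := fun h => hx0 (Subtype.ext h)
  rw [nonunit_ovr, or_iff_right hx0] at hx1
  obtain ⟨n, d, hd0, hnd⟩ := hS x hxS
  have hinj := FaithfulSMul.algebraMap_injective (Polynomial K) L
  have hdL : algebraMap (Polynomial K) L d ≠ 0 := by rw [Ne, map_eq_zero_iff _ hinj]; exact hd0
  have hn0 : n ≠ 0 := by
    rintro rfl
    rw [map_zero] at hnd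
    exact mul_ne_zero hx0' hdL hnd
  have hnL : algebraMap (Polynomial K) L n ≠ 0 := by rw [Ne, map_eq_zero_iff _ hinj]; exact hn0
  have h1 : 1 ≤ V.o (x : L) := by
    have h2 := congrArg V.o hnd
    rw [V.mul _ _ hx0' hdL, VS_o h (algebraMap _ L d), VS_o h (algebraMap _ L n), h, h] at h2
    obtain ⟨-, m1, h3⟩ := order_tauH_ptF a d hd0
    obtain ⟨-, m2, h4⟩ := order_tauH_ptF a n hn0
    rw [h3, h4] at h2
    have h5 : V.o (x : L) = ((m2 : ℤ) - m1 : ℤ) := by push_cast; linarith
    rw [h5] at hx1 ⊢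
    have h6 : (0 : ℤ) < (m2 : ℤ) - m1 := by exact_mod_cast hx1
    have h7 : (1 : ℤ) ≤ (m2 : ℤ) - m1 := by omega
    exact_mod_cast h7
  by_contra hcon
  push Not at hcon
  have hyM : y ∈ M := hy
  set y' : M := ⟨y, hyM⟩ with hy'
  have hy0' : y' ≠ 0 := by
    intro h; exact hy0 (congrArg Subtype.val h)
  apply hx2 y' (by rw [nonunit_ovr]; exact Or.inr hpos) (x / y') (by
    rw [nonunit_ovr]
    right
    change 0 < V.o ((x : L) / y)
    rw [V.div _ _ hx0' hy0, VS_o h y]
    linarith)
  rw [mul_div_cancel₀]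
  exact hy0'

end unr

section core

variable {k : Type*} [Field k] [CharZero k] [IsAlgClosed k] {u v : MvPolynomial (Fin 2) k}
variable {L : Type*} [Field L] [Algebra (MvPolynomial (Fin 2) k) L] [IsFractionRing (MvPolynomial (Fin 2) k) L]
  [Algebra k L] [IsScalarTower k (MvPolynomial (Fin 2) k) L]

/-- functions with constant ratios of leading coefficients, and with zeros and poles on vertical curves, are
functions of `u` -/
theorem const_of_ratio (g0 : GP u) (w : MvPolynomial (Fin 2) k) (hJ1 : Jb u w = 1) (hm : MonY u) (W W' : L)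
    (hW : AKm u W) (hW' : AKm u W') (hWW : W * W' = 1)
    (hr : ∀ g1 g2 : GP u, ∃ γ : k, γ ≠ 0 ∧
      (g1.j L W).leadingCoeff = algebraMap k (KK k) γ * (g2.j L W).leadingCoeff) :
    ∃ x : KK k, x ≠ 0 ∧ W = kap L g0.uP_inj x := by
  have hu := g0.uP_inj
  obtain ⟨e, m, he, hem⟩ := hW
  have hmv : VertF u m := by
    apply VertF.of_unit he hW'
    rw [← hem, mul_right_comm, hWW, one_mul]
  have hCR : CR u m e := by
    intro g1 g2
    obtain ⟨γ, hγ, e1⟩ := hr g1 g2
    refine ⟨γ, hγ, ?_⟩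
    apply IsFractionRing.injective (Polynomial k) (KK k)
    have f1 := congrArg (fun z => (g1.j L z).leadingCoeff) hem
    have f2 := congrArg (fun z => (g2.j L z).leadingCoeff) hem
    simp only [map_mul] at f1 f2
    rw [HahnSeries.leadingCoeff_mul, g1.j_lc, g1.j_lc] at f1
    rw [HahnSeries.leadingCoeff_mul, g2.j_lc, g2.j_lc] at f2
    rw [map_mul, map_mul, map_mul, ← algebraMap_KK, ← f1, ← f2, e1]
    ring
  obtain ⟨s', t', hs', ht', est⟩ := CR.const w hJ1 hm _ m e rfl hmv he hCR
  have he1 : algebraMap (MvPolynomial (Fin 2) k) L e ≠ 0 := alg_ne he.1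
  have hWe : W * phL u L s' = phL u L t' := by
    apply mul_right_cancel₀ he1
    rw [mul_right_comm, hem, phL_apply, phL_apply, ← map_mul, est, map_mul, mul_comm]
  have halg : ∀ x : Polynomial k, x ≠ 0 → algebraMap (Polynomial k) (KK k) x ≠ 0 := by
    intro x hx
    rw [Ne, map_eq_zero_iff _ (IsFractionRing.injective (Polynomial k) (KK k))]; exact hx
  refine ⟨algebraMap (Polynomial k) (KK k) t' / algebraMap (Polynomial k) (KK k) s',
    div_ne_zero (halg _ ht') (halg _ hs'), ?_⟩
  rw [map_div₀, ← phL_kap, ← phL_kap, eq_div_iff (phL_ne hu _ hs'), hWe]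

/-- every nonzero polynomial is algebraic over `k[u, v]` -/
theorem exists_rel (δ : k) (hδ : δ ≠ 0) (hJ : Jb u v = C δ) (p : MvPolynomial (Fin 2) k) :
    ∃ P : Polynomial (MvPolynomial (Fin 2) k), P ≠ 0 ∧ P.eval₂ (aeval ![u, v] : MvPolynomial (Fin 2) k →ₐ[k] _).toRingHom p = 0 := by
  have hJ' : IsUnit (Matrix.det (jac ![u, v])) := by
    rw [det_jac, DJ_apply]
    have : pderiv 0 u * pderiv 1 v - pderiv 1 u * pderiv 0 v = C δ := hJ
    simp only [Matrix.cons_val_zero, Matrix.cons_val_one, this]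
    exact (isUnit_iff_ne_zero.2 hδ).map C
  haveI := algebraic_SS ![u, v] hJ'
  obtain ⟨P, hP, hPp⟩ := Algebra.IsAlgebraic.isAlgebraic (R := SS ![u, v]) p
  have hex : ∀ c : SS ![u, v], ∃ r : MvPolynomial (Fin 2) k, aeval ![u, v] r = (c : MvPolynomial (Fin 2) k) := by
    intro c
    obtain ⟨r, hr⟩ := c.2
    exact ⟨r, hr⟩
  choose ch hch using hex
  refine ⟨∑ i ∈ P.support, Polynomial.monomial i (ch (P.coeff i)), ?_, ?_⟩
  · intro h0
    obtain ⟨i, hi⟩ := Polynomial.support_nonempty.2 hP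
    have h1 := congrArg (fun q => Polynomial.coeff q i) h0
    simp only [Polynomial.finsetSum_coeff, Polynomial.coeff_monomial, Polynomial.coeff_zero] at h1
    rw [Finset.sum_ite_eq' P.support i, if_pos hi] at h1
    have h2 := hch (P.coeff i)
    rw [h1, map_zero] at h2
    exact (Polynomial.mem_support_iff.1 hi) (Subtype.ext h2.symm)
  · rw [Polynomial.eval₂_finsetSum]
    rw [Polynomial.aeval_def, Polynomial.eval₂_eq_sum, Polynomial.sum_def] at hPp
    rw [← hPp]
    apply Finset.sum_congr rfl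
    intro i _
    rw [Polynomial.eval₂_monomial]
    change aeval ![u, v] (ch (P.coeff i)) * p ^ i = (P.coeff i : MvPolynomial (Fin 2) k) * p ^ i
    rw [hch]

end core

end Pool.Agent.Y235.JC
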