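import Mathlib
import Pool.Agent.Y235.JC.U3

set_option autoImplicit false
set_option linter.unusedSectionVars false
set_option linter.style.haveILetI false

open MvPolynomial

namespace Pool.Agent.Y235.JC

open Pool.Agent.H922R2 (IsDer SS jac det_jac DJ_apply algebraic_SS)
open Pool.Agent.H922R2.R
open Pool.Agent.H922R2.EL (OV VP VG DL DL_isDer DL_alg VP_kap VG_kap VG_o vpo_eq VP_alg VP_int VP_E alg_ne Jb_isDer
  toY_eval₂)
open Pool.Agent.Helper165.P1 (HQ Pui)

section dermem

/-- derivations preserve algebraic extensions -/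
theorem der_mem {A L : Type*} [CommRing A] [IsDomain A] [CharZero A] [Field L]
    (φ : A →+* L) (hφ : Function.Injective φ) (D : L → L) (hD : IsDer D) (M : Subfield L)
    (hA : ∀ a, φ a ∈ M ∧ D (φ a) ∈ M) (z : L) (hz : z ∈ M) (P : Polynomial A) (hP : P ≠ 0)
    (hPz : P.eval₂ φ z = 0) : D z ∈ M := by
  have heval : ∀ Q : Polynomial A, Q.eval₂ φ z ∈ M ∧ D (Q.eval₂ φ z) - Q.derivative.eval₂ φ z * D z ∈ M := by
    intro Q
    induction Q using Polynomial.induction_on' with
    | add p q hp hq =>
      refine ⟨by rw [Polynomial.eval₂_add]; exact add_mem hp.1 hq.1, ?_⟩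
      have h1 : D ((p + q).eval₂ φ z) - (p + q).derivative.eval₂ φ z * D z =
          (D (p.eval₂ φ z) - p.derivative.eval₂ φ z * D z) + (D (q.eval₂ φ z) - q.derivative.eval₂ φ z * D z) := by
        rw [Polynomial.eval₂_add, hD.add, map_add, Polynomial.eval₂_add]; ring
      rw [h1]
      exact add_mem hp.2 hq.2
    | monomial n a =>
      refine ⟨by rw [Polynomial.eval₂_monomial]; exact mul_mem (hA a).1 (pow_mem hz n), ?_⟩
      rcases n with _ | n
      · rw [Polynomial.eval₂_monomial, pow_zero, mul_one, Polynomial.derivative_monomial]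
        simp only [Nat.cast_zero, mul_zero, Polynomial.monomial_zero_right, Polynomial.eval₂_zero, zero_mul, sub_zero]
        exact (hA a).2
      · have h1 : D ((Polynomial.monomial (n + 1) a).eval₂ φ z) -
            (Polynomial.derivative (Polynomial.monomial (n + 1) a)).eval₂ φ z * D z = z ^ (n + 1) * D (φ a) := by
          rw [Polynomial.eval₂_monomial, hD.mul, Pool.Agent.H922R2.R.IsDer.pow hD, Polynomial.derivative_monomial,
            Polynomial.eval₂_monomial, Nat.add_sub_cancel, map_mul, map_natCast]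
          push_cast
          ring
        rw [h1]
        exact mul_mem (pow_mem hz _) (hA a).2
  have key : ∀ n : ℕ, ∀ Q : Polynomial A, Q.natDegree = n → Q ≠ 0 → Q.eval₂ φ z = 0 → D z ∈ M := by
    intro n
    induction n using Nat.strong_induction_on with
    | _ n ih =>
    intro Q hn hQ hQz
    by_cases hd : Q.derivative.eval₂ φ z = 0
    · have hnd : Q.natDegree ≠ 0 := by
        intro h
        rw [Polynomial.eq_C_of_natDegree_eq_zero h, Polynomial.eval₂_C, map_eq_zero_iff _ hφ] at hQz
        apply hQ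
        rw [Polynomial.eq_C_of_natDegree_eq_zero h, hQz, map_zero]
      exact ih _ (by rw [← hn]; exact Polynomial.natDegree_derivative_lt hnd) Q.derivative rfl
        (fun h => hnd (Polynomial.derivative_eq_zero.1 h)) hd
    · have h2 := (heval Q).2
      rw [hQz, hD.zero, zero_sub] at h2
      have h3 := neg_mem h2
      rw [neg_neg] at h3
      have h4 := div_mem h3 (heval Q.derivative).1
      rwa [mul_div_cancel_left₀ _ hd] at h4
  exact key _ P rfl hP hPz

end dermem

section core

variable {k : Type*} [Field k] [CharZero k] [IsAlgClosed k] {u v : MvPolynomial (Fin 2) k}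
variable {L : Type*} [Field L] [Algebra (MvPolynomial (Fin 2) k) L] [IsFractionRing (MvPolynomial (Fin 2) k) L]
  [Algebra k L] [IsScalarTower k (MvPolynomial (Fin 2) k) L]

variable (L) in
/-- evaluation of polynomials over `k(u)` at `v` -/
noncomputable def evv (hu : Function.Injective (uP u)) (v : MvPolynomial (Fin 2) k) : Polynomial (KK k) →+* L :=
  Polynomial.eval₂RingHom (kap L hu) (algebraMap (MvPolynomial (Fin 2) k) L v)

theorem evv_C (hu : Function.Injective (uP u)) (c : KK k) : evv L hu v (Polynomial.C c) = kap L hu c := by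
  simp [evv]

theorem evv_X (hu : Function.Injective (uP u)) :
    evv L hu v Polynomial.X = algebraMap (MvPolynomial (Fin 2) k) L v := by
  simp [evv]

theorem evv_inj (hu : Function.Injective (uP u)) (δ : k) (hδ : δ ≠ 0) (hJ : Jb u v = C δ) :
    Function.Injective (evv L hu v) := by
  rw [injective_iff_map_eq_zero]
  intro P hP
  by_contra h0
  have h1 := der_alg_zero (kap L hu) (kap L hu).injective (RingHom.id L) (DL L u) (DL_isDer u).add
    (fun a b => (DL_isDer u).mul a b) (DL_kap hu) (algebraMap (MvPolynomial (Fin 2) k) L v) P h0 hP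
  rw [DL_v δ hJ, map_eq_zero] at h1
  exact hδ h1

/-- `k[U, V] → k(u)[V]` -/
noncomputable def psiY (k : Type*) [Field k] : MvPolynomial (Fin 2) k →+* Polynomial (KK k) :=
  (Polynomial.mapRingHom (algebraMap (Polynomial k) (KK k))).comp (toY k : MvPolynomial (Fin 2) k →+* _)

theorem psiY_inj : Function.Injective (psiY k) := by
  rw [psiY, RingHom.coe_comp]
  exact (Polynomial.map_injective _ (IsFractionRing.injective (Polynomial k) (KK k))).comp toY_injective

theorem evv_psiY (hu : Function.Injective (uP u)) (r : MvPolynomial (Fin 2) k) :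
    evv L hu v (psiY k r) = algebraMap (MvPolynomial (Fin 2) k) L (aeval ![u, v] r) := by
  rw [← toY_eval₂, psiY, evv, RingHom.comp_apply, Polynomial.coe_mapRingHom, Polynomial.coe_eval₂RingHom,
    Polynomial.eval₂_map, Polynomial.hom_eval₂]
  congr 1
  exact RingHom.ext fun s => kap_algebraMap hu s

theorem evv_alg (hu : Function.Injective (uP u)) (δ : k) (hδ : δ ≠ 0) (hJ : Jb u v = C δ) (z : L) :
    ∃ P : Polynomial (Polynomial (KK k)), P ≠ 0 ∧ P.eval₂ (evv L hu v) z = 0 := by
  letI : Algebra (Polynomial (KK k)) L := (evv L hu v).toAlgebra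
  have halg : algebraMap (Polynomial (KK k)) L = evv L hu v := rfl
  have h1 : ∀ p : MvPolynomial (Fin 2) k, IsAlgebraic (Polynomial (KK k)) (algebraMap (MvPolynomial (Fin 2) k) L p) := by
    intro p
    obtain ⟨P, hP, hPp⟩ := exists_rel δ hδ hJ p
    refine ⟨P.map (psiY k), (Polynomial.map_ne_zero_iff psiY_inj).2 hP, ?_⟩
    rw [Polynomial.aeval_def, halg, Polynomial.eval₂_map]
    have h2 := congrArg (algebraMap (MvPolynomial (Fin 2) k) L) hPp
    rw [map_zero, Polynomial.hom_eval₂] at h2
    rw [← h2]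
    congr 1
    exact RingHom.ext fun r => evv_psiY hu r
  obtain ⟨a, b, _, rfl⟩ := IsFractionRing.div_surjective (A := MvPolynomial (Fin 2) k) z
  haveI : FaithfulSMul (Polynomial (KK k)) L := (faithfulSMul_iff_algebraMap_injective _ _).2 (evv_inj hu δ hδ hJ)
  have h3 : IsAlgebraic (Polynomial (KK k)) (algebraMap (MvPolynomial (Fin 2) k) L a / algebraMap (MvPolynomial (Fin 2) k) L b) := by
    rw [div_eq_mul_inv]
    exact (h1 a).mul (h1 b).inv
  obtain ⟨P, hP, hPp⟩ := h3
  exact ⟨P, hP, hPp⟩

/-- elements of `k(u, v)` are fractions -/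
theorem frac_uv (hu : Function.Injective (uP u)) (δ : k) (hδ : δ ≠ 0) (hJ : Jb u v = C δ) (x : L)
    (hx : x ∈ IntermediateField.adjoin k {algebraMap (MvPolynomial (Fin 2) k) L u, algebraMap (MvPolynomial (Fin 2) k) L v}) :
    ∃ n d : Polynomial (KK k), d ≠ 0 ∧ x * evv L hu v d = evv L hu v n := by
  have hinj := evv_inj (L := L) hu δ hδ hJ
  induction hx using IntermediateField.adjoin_induction with
  | mem x hx =>
    rcases hx with rfl | hx
    · refine ⟨Polynomial.C (algebraMap (Polynomial k) (KK k) Polynomial.X), 1, one_ne_zero, ?_⟩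
      rw [evv_C, kap_algebraMap, uP_X, map_one, mul_one]
    · rw [Set.mem_singleton_iff] at hx
      exact ⟨Polynomial.X, 1, one_ne_zero, by rw [evv_X, map_one, mul_one, hx]⟩
  | algebraMap x =>
    refine ⟨Polynomial.C (algebraMap (Polynomial k) (KK k) (Polynomial.C x)), 1, one_ne_zero, ?_⟩
    rw [evv_C, kap_algebraMap, uP_C, ← MvPolynomial.algebraMap_eq, ← IsScalarTower.algebraMap_apply, map_one, mul_one]
  | add x y _ _ hx hy =>
    obtain ⟨n1, d1, h1, e1⟩ := hx
    obtain ⟨n2, d2, h2, e2⟩ := hy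
    refine ⟨n1 * d2 + n2 * d1, d1 * d2, mul_ne_zero h1 h2, ?_⟩
    rw [map_mul, map_add, map_mul, map_mul, ← e1, ← e2]; ring
  | inv x _ hx =>
    obtain ⟨n1, d1, h1, e1⟩ := hx
    by_cases hx0 : x = 0
    · exact ⟨0, 1, one_ne_zero, by rw [hx0]; simp⟩
    · refine ⟨d1, n1, ?_, ?_⟩
      · rintro rfl
        rw [map_zero] at e1
        have h3 : evv L hu v d1 ≠ 0 := by rw [Ne, map_eq_zero_iff _ hinj]; exact h1
        exact mul_ne_zero hx0 h3 e1
      · rw [← e1, ← mul_assoc, inv_mul_cancel₀ hx0, one_mul]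
  | mul x y _ _ hx hy =>
    obtain ⟨n1, d1, h1, e1⟩ := hx
    obtain ⟨n2, d2, h2, e2⟩ := hy
    refine ⟨n1 * n2, d1 * d2, mul_ne_zero h1 h2, ?_⟩
    rw [map_mul, map_mul, ← e1, ← e2]; ring

theorem evv_mem (hu : Function.Injective (uP u)) (M : IntermediateField k L)
    (hMu : algebraMap (MvPolynomial (Fin 2) k) L u ∈ M) (hMv : algebraMap (MvPolynomial (Fin 2) k) L v ∈ M)
    (p : Polynomial (KK k)) : evv L hu v p ∈ M := by
  rw [evv, Polynomial.coe_eval₂RingHom, Polynomial.eval₂_eq_sum_range]
  exact sum_mem fun i _ => mul_mem (kap_mem hu M hMu _) (pow_mem hMv i)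

/-- no finite extension of `k(u)(v)` inside `k(x, y)` is unramified over the affine line -/
theorem T2_special (g0 : GP u) (δ : k) (hδ : δ ≠ 0) (hJ : Jb u v = C δ) (M : IntermediateField k L)
    (hMu : algebraMap (MvPolynomial (Fin 2) k) L u ∈ M) (hMv : algebraMap (MvPolynomial (Fin 2) k) L v ∈ M)
    (hram : ∀ O : ValuationSubring M, O ≠ ⊤ → CU (algebraMap (MvPolynomial (Fin 2) k) L u) O →
      (⟨_, hMv⟩ : M) ∈ O →
      ¬ Ramif (algebraMap (MvPolynomial (Fin 2) k) L u) (algebraMap (MvPolynomial (Fin 2) k) L v) O)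
    (θ : L) (hθ : θ ∈ M) :
    θ ∈ IntermediateField.adjoin k {algebraMap (MvPolynomial (Fin 2) k) L u, algebraMap (MvPolynomial (Fin 2) k) L v} := by
  have hu := g0.uP_inj
  have hinj := evv_inj (L := L) hu δ hδ hJ
  have hM := evv_mem (L := L) hu M hMu hMv
  letI : Algebra (KK k) L := (kap L hu).toAlgebra
  letI : Algebra (Polynomial (KK k)) L := (evv L hu v).toAlgebra
  have halgK : algebraMap (KK k) L = kap L hu := rfl
  have halg : algebraMap (Polynomial (KK k)) L = evv L hu v := rfl
  haveI : IsScalarTower (KK k) (Polynomial (KK k)) L := by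
    apply IsScalarTower.of_algebraMap_eq
    intro c
    rw [halg, halgK, Polynomial.algebraMap_eq, evv_C]
  haveI : FaithfulSMul (Polynomial (KK k)) L := (faithfulSMul_iff_algebraMap_injective _ _).2 hinj
  haveI hal : Algebra.IsAlgebraic (Polynomial (KK k)) L := ⟨fun z => evv_alg hu δ hδ hJ z⟩
  letI := FractionRing.liftAlgebra (Polynomial (KK k)) L
  haveI := FractionRing.isScalarTower_liftAlgebra (Polynomial (KK k)) L
  haveI : Algebra.IsAlgebraic (FractionRing (Polynomial (KK k))) L :=
    ⟨fun z ↦ (IsFractionRing.isAlgebraic_iff (Polynomial (KK k))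
      (FractionRing (Polynomial (KK k))) L).1 (Algebra.IsAlgebraic.isAlgebraic _)⟩
  have hkmem : ∀ x : KK k, kap L hu x ∈ IntermediateField.adjoin k
      {algebraMap (MvPolynomial (Fin 2) k) L u} := fun x =>
    kap_mem hu _ (IntermediateField.subset_adjoin _ _ (Set.mem_singleton _)) x
  have hunr : Unr (K := KK k) M.toSubfield := by
    apply unr_of M hM {x | x ∈ IntermediateField.adjoin k {algebraMap (MvPolynomial (Fin 2) k) L u,
      algebraMap (MvPolynomial (Fin 2) k) L v}}
    · intro x hx
      exact frac_uv hu δ hδ hJ x hx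
    · intro O hO h1 h2
      have hCU : CU (algebraMap (MvPolynomial (Fin 2) k) L u) O := by
        intro z hz
        obtain ⟨x, hx⟩ := Pool.Agent.H922R2.EL.mem_kap u hu _ hz
        have h3 := h1 (Polynomial.C x)
        have h4 : (⟨algebraMap (Polynomial (KK k)) L (Polynomial.C x), hM _⟩ : M) = z := by
          apply Subtype.ext
          change evv L hu v (Polynomial.C x) = z
          rw [evv_C, hx]
        rwa [h4] at h3
      have hv : (⟨_, hMv⟩ : M) ∈ O := by
        have h3 := h1 Polynomial.X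
        have h4 : (⟨algebraMap (Polynomial (KK k)) L Polynomial.X, hM _⟩ : M) = ⟨_, hMv⟩ := by
          apply Subtype.ext
          change evv L hu v Polynomial.X = _
          rw [evv_X]
        rwa [h4] at h3
      have h5 := hram O hO hCU hv
      rw [Ramif] at h5
      push Not at h5
      obtain ⟨x, hx1, hx2, hx3⟩ := h5
      exact ⟨x, hx1, hx2, hx3⟩
  have hD := DL_isDer (L := L) u
  have hDK : ∀ c : KK k, DL L u (algebraMap (KK k) L c) = 0 := fun c => DL_kap hu c
  have hδ' : algebraMap k (KK k) δ ≠ 0 := by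
    rw [Ne, map_eq_zero_iff _ (algebraMap k (KK k)).injective]; exact hδ
  have hδL : algebraMap (KK k) L (algebraMap k (KK k) δ) = algebraMap k L δ := by
    rw [halgK, algebraMap_KK, ← phL_kap, phL_C]
  have hDX : DL L u (algebraMap (Polynomial (KK k)) L Polynomial.X) = algebraMap (KK k) L (algebraMap k (KK k) δ) := by
    rw [halg, evv_X, hδL, DL_v δ hJ]
  have hDev : ∀ p : Polynomial (KK k), DL L u (evv L hu v p) ∈ M := by
    intro p
    have h1 : DL L u (evv L hu v p) = evv L hu v (Polynomial.derivative p) * algebraMap k L δ := by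
      rw [evv, Polynomial.coe_eval₂RingHom, IsDer.eval₂ hD (kap L hu) (DL_kap hu), DL_v δ hJ]
    rw [h1]
    exact mul_mem (hM _) (M.algebraMap_mem δ)
  have hDM : ∀ z ∈ M.toSubfield, DL L u z ∈ M.toSubfield := by
    intro z hz
    obtain ⟨P, hP, hPz⟩ := evv_alg (L := L) hu δ hδ hJ z
    exact der_mem (evv L hu v) hinj (DL L u) hD M.toSubfield (fun a => ⟨hM a, hDev a⟩) z hz P hP hPz
  obtain ⟨q, hq0, hqint⟩ := (hal.isAlgebraic θ).exists_integral_multiple
  have hqθ : q • θ ∈ M.toSubfield := by
    rw [Algebra.smul_def]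
    exact mul_mem (hM q) hθ
  obtain ⟨n, hn⟩ := D_nilp (Q := FractionRing (Polynomial (KK k))) (DL L u) (algebraMap k (KK k) δ) M.toSubfield hM hD hDM hDK
    hδ' hDX hunr (q • θ) hqθ hqint
  obtain ⟨P, hP⟩ := DL_nil g0 hu δ hδ hJ n _ hn
  have hmem_u : (algebraMap (MvPolynomial (Fin 2) k) L) u ∈ IntermediateField.adjoin k {(algebraMap (MvPolynomial (Fin 2) k) L) u, (algebraMap (MvPolynomial (Fin 2) k) L) v} :=
    IntermediateField.subset_adjoin _ _ (Set.mem_insert _ _)
  have hmem_v : (algebraMap (MvPolynomial (Fin 2) k) L) v ∈ IntermediateField.adjoin k {(algebraMap (MvPolynomial (Fin 2) k) L) u, (algebraMap (MvPolynomial (Fin 2) k) L) v} :=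
    IntermediateField.subset_adjoin _ _ (Set.mem_insert_of_mem _ rfl)
  have h1 := evv_mem (L := L) hu _ hmem_u hmem_v P
  have h2 := evv_mem (L := L) hu _ hmem_u hmem_v q
  have h3 : evv L hu v q * θ = evv L hu v P := by
    have h4 : q • θ = evv L hu v q * θ := by rw [Algebra.smul_def, halg]
    rw [← h4, hP]; rfl
  have hq1 : evv L hu v q ≠ 0 := by rw [Ne, map_eq_zero_iff _ hinj]; exact hq0
  have h5 : θ = evv L hu v P / evv L hu v q := by
    rw [eq_div_iff hq1, ← h3, mul_comm]
  rw [h5]
  exact div_mem h1 h2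

end core

end Pool.Agent.Y235.JC
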