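import Mathlib
import Pool.Agent.Y235.JC.U4

set_option autoImplicit false
set_option linter.unusedSectionVars false
set_option linter.style.haveILetI false
set_option maxHeartbeats 400000

open MvPolynomial

namespace Pool.Agent.Y235.JC

open Pool.Agent.H922R2 (IsDer SS jac det_jac DJ_apply algebraic_SS)
open Pool.Agent.H922R2.R
open Pool.Agent.H922R2.EL (OV VP VG DL DL_isDer DL_alg VP_kap VG_kap VG_o vpo_eq VP_alg VP_int VP_E alg_ne Jb_isDer
  toY_eval₂)

section aux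

/-- leading coefficients are multiplicative -/
noncomputable def lcHom (F : Type*) [Field F] : HahnSeries ℚ F →*₀ F where
  toFun x := x.leadingCoeff
  map_zero' := HahnSeries.leadingCoeff_zero
  map_one' := HahnSeries.leadingCoeff_one
  map_mul' x y := HahnSeries.leadingCoeff_mul x y

theorem lc_zpow {F : Type*} [Field F] (x : HahnSeries ℚ F) (b : ℤ) :
    (x ^ b).leadingCoeff = x.leadingCoeff ^ b := map_zpow₀ (lcHom F) x b

theorem lc_pow {F : Type*} [Field F] (x : HahnSeries ℚ F) (b : ℕ) :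
    (x ^ b).leadingCoeff = x.leadingCoeff ^ b := map_pow (lcHom F) x b

theorem OV_zpow {k L : Type*} [Field k] [CharZero k] [Field L] [Algebra k L] (V : OV k L) (x : L) (hx : x ≠ 0) (b : ℤ) :
    V.o (x ^ b) = b * V.o x := by
  obtain ⟨n, rfl | rfl⟩ := b.eq_nat_or_neg
  · rw [zpow_natCast, V.pow _ hx]; push_cast; ring
  · rw [zpow_neg, zpow_natCast, V.inv _ (pow_ne_zero _ hx), V.pow _ hx]; push_cast; ring

end aux

section core

variable {k : Type*} [Field k] [CharZero k] [IsAlgClosed k] {u v : MvPolynomial (Fin 2) k}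
variable {L : Type*} [Field L] [Algebra (MvPolynomial (Fin 2) k) L] [IsFractionRing (MvPolynomial (Fin 2) k) L]
  [Algebra k L] [IsScalarTower k (MvPolynomial (Fin 2) k) L]

theorem evv_map (hu : Function.Injective (uP u)) (F : Polynomial (Polynomial k)) :
    evv L hu v (F.map (algebraMap (Polynomial k) (KK k))) =
      algebraMap (MvPolynomial (Fin 2) k) L (F.eval₂ (uP u) v) := by
  rw [evv, Polynomial.coe_eval₂RingHom, Polynomial.eval₂_map, Polynomial.hom_eval₂]
  congr 1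
  exact RingHom.ext fun s => kap_algebraMap hu s

/-- an element of `k(u, v)` of order one along a horizontal prime -/
theorem exists_unif (δ : k) (hδ : δ ≠ 0) (hJ : Jb u v = C δ) (hu : Function.Injective (uP u))
    {π : MvPolynomial (Fin 2) k} (hπ : Prime π) (hhor : ∀ c : k, ¬ π ∣ u - C c) :
    ∃ q : MvPolynomial (Fin 2) k, q ≠ 0 ∧ algebraMap (MvPolynomial (Fin 2) k) L q ∈ IntermediateField.adjoin k
      {algebraMap (MvPolynomial (Fin 2) k) L u, algebraMap (MvPolynomial (Fin 2) k) L v} ∧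
      (VP L hπ).o (algebraMap (MvPolynomial (Fin 2) k) L q) = 1 := by
  have hJ' : IsUnit (Matrix.det (jac ![u, v])) := by
    rw [det_jac, DJ_apply]
    have : pderiv 0 u * pderiv 1 v - pderiv 1 u * pderiv 0 v = C δ := hJ
    simp only [Matrix.cons_val_zero, Matrix.cons_val_one, this]
    exact (isUnit_iff_ne_zero.2 hδ).map C
  haveI := algebraic_SS ![u, v] hJ'
  obtain ⟨r, hr0, hr⟩ := (Algebra.IsAlgebraic.isAlgebraic (R := SS ![u, v]) π).exists_nonzero_dvd
    (mem_nonZeroDivisors_of_ne_zero hπ.ne_zero)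
  obtain ⟨⟨r', hr'⟩⟩ : Nonempty {r' // aeval ![u, v] r' = (r : MvPolynomial (Fin 2) k)} := by
    obtain ⟨r', h⟩ := r.2
    exact ⟨⟨r', h⟩⟩
  have h1 : π ∣ (toY k r').eval₂ (uP u) v := by
    rw [toY_eval₂, hr']; exact hr
  have hr0' : toY k r' ≠ 0 := by
    rw [Ne, map_eq_zero_iff _ toY_injective]
    rintro rfl
    apply hr0
    rw [map_zero] at hr'
    exact Subtype.ext hr'.symm
  have key : ∀ N : ℕ, ∀ F : Polynomial (Polynomial k), F.natDegree = N → F ≠ 0 → π ∣ F.eval₂ (uP u) v →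
      ∃ F' : Polynomial (Polynomial k), π ∣ F'.eval₂ (uP u) v ∧ ¬ π ∣ F'.derivative.eval₂ (uP u) v := by
    intro N
    induction N using Nat.strong_induction_on with
    | _ N ih =>
    intro F hN hF hdv
    by_cases hN0 : F.natDegree = 0
    · exfalso
      rw [Polynomial.eq_C_of_natDegree_eq_zero hN0, Polynomial.eval₂_C] at hdv
      have h0 : F.coeff 0 ≠ 0 := by
        intro h
        apply hF
        rw [Polynomial.eq_C_of_natDegree_eq_zero hN0, h, map_zero]
      obtain ⟨c, hc⟩ := (vertF_uP hu _ h0).2 π hπ hdv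
      exact hhor c hc
    · by_cases hd : π ∣ F.derivative.eval₂ (uP u) v
      · exact ih F.derivative.natDegree (by rw [← hN]; exact Polynomial.natDegree_derivative_lt hN0) F.derivative rfl
          (fun h => hN0 (Polynomial.derivative_eq_zero.1 h)) hd
      · exact ⟨F, hdv, hd⟩
  obtain ⟨F, hF1, hF2⟩ := key _ _ rfl hr0' h1
  have hjb : Jb u (F.eval₂ (uP u) v) = F.derivative.eval₂ (uP u) v * C δ := by
    rw [Pool.Agent.H922R2.R.IsDer.eval₂ (Jb_isDer u) (uP u) (fun a => Jb_uP u a) v F, hJ]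
  have hCδ : IsUnit (C δ : MvPolynomial (Fin 2) k) := (isUnit_iff_ne_zero.2 hδ).map C
  have hq0 : F.eval₂ (uP u) v ≠ 0 := by
    intro h0
    rw [h0] at hjb
    have h2 : Jb u 0 = 0 := by simp [Jb]
    rw [h2] at hjb
    have h3 := (mul_eq_zero.1 hjb.symm).resolve_right hCδ.ne_zero
    apply hF2
    rw [h3]; exact dvd_zero _
  refine ⟨F.eval₂ (uP u) v, hq0, ?_, ?_⟩
  · have hmem_u : (algebraMap (MvPolynomial (Fin 2) k) L) u ∈ IntermediateField.adjoin k {(algebraMap (MvPolynomial (Fin 2) k) L) u, (algebraMap (MvPolynomial (Fin 2) k) L) v} :=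
      IntermediateField.subset_adjoin _ _ (Set.mem_insert _ _)
    have hmem_v : (algebraMap (MvPolynomial (Fin 2) k) L) v ∈ IntermediateField.adjoin k {(algebraMap (MvPolynomial (Fin 2) k) L) u, (algebraMap (MvPolynomial (Fin 2) k) L) v} :=
      IntermediateField.subset_adjoin _ _ (Set.mem_insert_of_mem _ rfl)
    have h9 := evv_mem (L := L) hu _ hmem_u hmem_v (F.map (algebraMap (Polynomial k) (KK k)))
    rw [evv_map] at h9
    exact h9
  · have hm : 1 ≤ multiplicity π (F.eval₂ (uP u) v) := by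
      rw [← (Pool.Agent.H922R2.EL.fm hπ hq0).pow_dvd_iff_le_multiplicity, pow_one]
      exact hF1
    have ho : (VP L hπ).o (algebraMap (MvPolynomial (Fin 2) k) L (F.eval₂ (uP u) v)) ≠ 0 := by
      rw [VP_alg hπ hq0]
      have : (multiplicity π (F.eval₂ (uP u) v) : ℚ) ≠ 0 := by
        exact_mod_cast (by omega : multiplicity π (F.eval₂ (uP u) v) ≠ 0)
      exact this
    have hJ1 : Jb u (C δ⁻¹ * v) = 1 := by
      rw [Jb_mul, hJ, Jb_C_right, mul_zero, add_zero, ← C_mul, inv_mul_cancel₀ hδ, C_1]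
    have h4 := (VP_E (L := L) u (C δ⁻¹ * v) hπ hJ1 hhor _ (alg_ne hq0) ho).2
    rw [DL_alg, hjb] at h4
    have hnd : ¬ π ∣ F.derivative.eval₂ (uP u) v * C δ := by
      intro h5
      rcases hπ.dvd_or_dvd h5 with h6 | h6
      · exact hF2 h6
      · exact hπ.not_isUnit (isUnit_of_dvd_unit h6 hCδ)
    have hne : F.derivative.eval₂ (uP u) v * C δ ≠ 0 := fun h5 => hnd (by rw [h5]; exact dvd_zero _)
    rw [VP_alg hπ hne] at h4
    have h7 : multiplicity π (F.derivative.eval₂ (uP u) v * C δ) = 0 := by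
      by_contra h0
      have h3 := pow_dvd_of_le_multiplicity (show 1 ≤ multiplicity π (F.derivative.eval₂ (uP u) v * C δ) by omega)
      rw [pow_one] at h3
      exact hnd h3
    rw [h7] at h4
    push_cast at h4
    linarith

/-- functions whose zeros are ramified have neither zeros nor poles on horizontal curves -/
theorem T1_unit (δ : k) (hδ : δ ≠ 0) (hJ : Jb u v = C δ) (hu : Function.Injective (uP u)) (M : IntermediateField k L)
    (hMv : algebraMap (MvPolynomial (Fin 2) k) L v ∈ M)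
    (hMuv : ∀ x ∈ IntermediateField.adjoin k
      {algebraMap (MvPolynomial (Fin 2) k) L u, algebraMap (MvPolynomial (Fin 2) k) L v}, x ∈ M)
    (f : M) (hf : f ≠ 0)
    (h1 : ∀ O : ValuationSubring M, O ≠ ⊤ → CU (algebraMap (MvPolynomial (Fin 2) k) L u) O → (⟨_, hMv⟩ : M) ∈ O →
      f ∈ O ∧ (f ∈ O.nonunits → Ramif (algebraMap (MvPolynomial (Fin 2) k) L u) (algebraMap (MvPolynomial (Fin 2) k) L v) O))
    {π : MvPolynomial (Fin 2) k} (hπ : Prime π) (hhor : ∀ c : k, ¬ π ∣ u - C c) :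
    (VP L hπ).o (f : L) = 0 := by
  set V := VP L hπ with hV
  have hf' : (f : L) ≠ 0 := fun h => hf (Subtype.ext h)
  have hCU : CU (algebraMap (MvPolynomial (Fin 2) k) L u) (ovr V M) := by
    intro z hz
    obtain ⟨x, hx⟩ := Pool.Agent.H922R2.EL.mem_kap u hu _ hz
    rw [mem_ovr, ← hx]
    by_cases hx0 : x = 0
    · rw [hx0, map_zero]; exact V.ge_zero _
    · right; rw [VP_kap u hπ hhor hu x hx0]
  have hvO : (⟨_, hMv⟩ : M) ∈ ovr V M := by
    rw [mem_ovr]
    change V.ge 0 (algebraMap (MvPolynomial (Fin 2) k) L v)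
    by_cases hv0 : v = 0
    · rw [hv0, map_zero]; exact V.ge_zero _
    · right; rw [hV, VP_alg hπ hv0]; exact Nat.cast_nonneg _
  by_cases htop : ovr V M = ⊤
  · have h2 : f ∈ ovr V M := by rw [htop]; trivial
    have h3 : f⁻¹ ∈ ovr V M := by rw [htop]; trivial
    rw [mem_ovr, V.ge_iff hf'] at h2
    rw [mem_ovr] at h3
    have h4 : ((f⁻¹ : M) : L) = (f : L)⁻¹ := rfl
    rw [h4, V.ge_iff (inv_ne_zero hf'), V.inv _ hf'] at h3
    linarith
  · obtain ⟨h2, h3⟩ := h1 _ htop hCU hvO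
    rw [mem_ovr, V.ge_iff hf'] at h2
    by_contra hne
    have hpos : 0 < V.o (f : L) := lt_of_le_of_ne h2 (Ne.symm hne)
    have hram := h3 (by rw [nonunit_ovr]; exact Or.inr hpos)
    obtain ⟨q, hq0, hqm, hqo⟩ := exists_unif (L := L) δ hδ hJ hu hπ hhor
    obtain ⟨y, hy, z, hz, he⟩ := hram ⟨_, hMuv _ hqm⟩ hqm (by
      rw [nonunit_ovr]; right; rw [← hV] at hqo; change 0 < V.o (algebraMap (MvPolynomial (Fin 2) k) L q); rw [hqo]; exact one_pos)
    have he' : algebraMap (MvPolynomial (Fin 2) k) L q = (y : L) * z := congrArg Subtype.val he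
    have hqL := alg_ne (L := L) hq0
    have hy0 : (y : L) ≠ 0 := by
      intro h; rw [h, zero_mul] at he'; exact hqL he'
    have hz0 : (z : L) ≠ 0 := by
      intro h; rw [h, mul_zero] at he'; exact hqL he'
    rw [nonunit_ovr, or_iff_right (fun h => hy0 (by rw [h]; rfl))] at hy
    rw [nonunit_ovr, or_iff_right (fun h => hz0 (by rw [h]; rfl))] at hz
    obtain ⟨m1, e1⟩ := VP_int (L := L) hπ (y : L)
    obtain ⟨m2, e2⟩ := VP_int (L := L) hπ (z : L)
    rw [← hV] at e1 e2 hqo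
    rw [he', V.mul _ _ hy0 hz0, e1, e2] at hqo
    rw [e1] at hy
    rw [e2] at hz
    have h5 : (0 : ℤ) < m1 := by exact_mod_cast hy
    have h6 : (0 : ℤ) < m2 := by exact_mod_cast hz
    have h7 : m1 + m2 = 1 := by exact_mod_cast hqo
    omega

/-- the ratios of leading coefficients are constant -/
theorem T1_ratio (δ : k) (hδ : δ ≠ 0) (hJ : Jb u v = C δ) (hu : Function.Injective (uP u)) (M : IntermediateField k L)
    (hMu : algebraMap (MvPolynomial (Fin 2) k) L u ∈ M)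
    (hMv : algebraMap (MvPolynomial (Fin 2) k) L v ∈ M) (f : M) (hf : f ≠ 0)
    (h2 : ∀ O₁ O₂ : ValuationSubring M, CU (algebraMap (MvPolynomial (Fin 2) k) L u) O₁ → (⟨_, hMv⟩ : M) ∉ O₁ →
      CU (algebraMap (MvPolynomial (Fin 2) k) L u) O₂ → (⟨_, hMv⟩ : M) ∉ O₂ →
      ∀ (a : ℕ) (b : ℤ) (ρ : M), 0 < a → (ρ : L) ∈ IntermediateField.adjoin k {algebraMap (MvPolynomial (Fin 2) k) L u} →
        ρ ≠ 0 → f ^ a * (⟨_, hMv⟩ : M) ^ b - ρ ∈ O₁.nonunits →
        ∃ κ : k, κ ≠ 0 ∧ f ^ a * (⟨_, hMv⟩ : M) ^ b - algebraMap k M κ * ρ ∈ O₂.nonunits)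
    (g1 g2 : GP u) : ∃ γ : k, γ ≠ 0 ∧
      (g1.j L (f : L)).leadingCoeff = algebraMap k (KK k) γ * (g2.j L (f : L)).leadingCoeff := by
  have hf' : (f : L) ≠ 0 := fun h => hf (Subtype.ext h)
  set vL := algebraMap (MvPolynomial (Fin 2) k) L v with hvL
  have hv0 : vL ≠ 0 := by
    rw [hvL]
    apply alg_ne
    rintro rfl
    have h3 : Jb u 0 = 0 := by simp [Jb]
    rw [h3] at hJ
    exact hδ (C_eq_zero.1 hJ.symm)
  have hj0 : ∀ (g : GP u) (z : L), z ≠ 0 → g.j L z ≠ 0 := fun g z hz => by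
    rw [Ne, map_eq_zero_iff _ g.j_inj]; exact hz
  have hkinj : Function.Injective (algebraMap k (KK k)) := (algebraMap k (KK k)).injective
  have hvc : ∀ g : GP u, (g.j L vL).order = -g.b ∧ (g.j L vL).leadingCoeff = algebraMap k (KK k) (δ * g.β) ∧
      algebraMap k (KK k) (δ * g.β) ≠ 0 := by
    intro g
    have h3 : algebraMap k (KK k) (δ * g.β) ≠ 0 := by
      rw [Ne, map_eq_zero_iff _ hkinj]; exact mul_ne_zero hδ g.hβ
    have h4 := GP.v_val (L := L) g δ hJ
    have h5 : (g.j L vL).coeff (-g.b) ≠ 0 := by rw [hvL, h4.2]; exact h3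
    exact ⟨order_eq_of h4.1 h5, by rw [leadingCoeff_eq_of h4.1 h5, h4.2], h3⟩
  have hCU : ∀ g : GP u, CU (algebraMap (MvPolynomial (Fin 2) k) L u) (ovr (VG L g) M) := by
    intro g z hz
    obtain ⟨x, hx⟩ := Pool.Agent.H922R2.EL.mem_kap u hu _ hz
    rw [mem_ovr, ← hx]
    by_cases hx0 : x = 0
    · rw [hx0, map_zero]; exact OV.ge_zero _ _
    · right; rw [VG_kap g hu x hx0]
  have hvO : ∀ g : GP u, (⟨_, hMv⟩ : M) ∉ ovr (VG L g) M := by
    intro g h3
    rw [mem_ovr] at h3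
    change (VG L g).ge 0 vL at h3
    rw [OV.ge_iff _ hv0, VG_o, (hvc g).1] at h3
    linarith [g.hb]
  set s : ℚ := (VG L g1).o (f : L) / g1.b with hs
  set y : L := (f : L) ^ s.den * vL ^ s.num with hy
  have hy0 : y ≠ 0 := mul_ne_zero (pow_ne_zero _ hf') (zpow_ne_zero _ hv0)
  have hyo : (VG L g1).o y = 0 := by
    have h3 : (VG L g1).o vL = -g1.b := (hvc g1).1
    rw [hy, OV.mul _ _ _ (pow_ne_zero _ hf') (zpow_ne_zero _ hv0), OV.pow _ _ hf', OV_zpow _ _ hv0, h3]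
    have h4 : (VG L g1).o (f : L) = s * g1.b := by rw [hs, div_mul_cancel₀ _ g1.hb.ne']
    rw [h4]
    have h5 : (s.den : ℚ) * s = s.num := by
      rw [mul_comm]; exact Rat.mul_den_eq_num s
    linear_combination g1.b * h5
  rw [VG_o] at hyo
  set ρ0 := (g1.j L y).coeff 0 with hρ0
  have hρ0ne : ρ0 ≠ 0 := by
    have h3 := HahnSeries.coeff_order_eq_zero.not.2 (hj0 g1 y hy0)
    rw [hyo] at h3
    exact h3
  have hρlc : (g1.j L y).leadingCoeff = ρ0 := by rw [HahnSeries.leadingCoeff_eq, hyo]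
  have hkM : kap L hu ρ0 ∈ M := kap_mem hu M hMu ρ0
  obtain ⟨κ, hκ, hκ2⟩ := h2 (ovr (VG L g1) M) (ovr (VG L g2) M) (hCU g1) (hvO g1) (hCU g2) (hvO g2) s.den s.num
    ⟨_, hkM⟩ s.pos (kap_mem hu _ (IntermediateField.subset_adjoin _ _ (Set.mem_singleton _)) ρ0) (by
      intro h3
      have h4 : kap L hu ρ0 = 0 := congrArg Subtype.val h3
      rw [map_eq_zero_iff _ (kap L hu).injective] at h4
      exact hρ0ne h4) (by
      rw [nonunit_ovr]
      by_cases h3 : (f ^ s.den * (⟨_, hMv⟩ : M) ^ s.num - ⟨_, hkM⟩ : M) = 0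
      · exact Or.inl h3
      right
      change 0 < (VG L g1).o (y - kap L hu ρ0)
      have h4 : y - kap L hu ρ0 ≠ 0 := fun h5 => h3 (Subtype.ext h5)
      rw [VG_o, map_sub, g1.j_kap]
      have h5 : Lb 0 (g1.j L y - HahnSeries.C ρ0) := by
        have := Lb_order (g1.j L y)
        rw [hyo] at this
        exact this.sub (Lb_C ρ0)
      have h6 : g1.j L y - HahnSeries.C ρ0 ≠ 0 := by
        rw [← g1.j_kap (L := L) hu, ← map_sub]; exact hj0 g1 _ h4
      rcases (h5.le_order h6).lt_or_eq with h7 | h7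
      · exact h7
      · exfalso
        have h8 := HahnSeries.coeff_order_eq_zero.not.2 h6
        rw [← h7, HahnSeries.coeff_sub, HahnSeries.C_apply, HahnSeries.coeff_single, if_pos rfl, ← hρ0, sub_self] at h8
        exact h8 rfl)
  have h10 : (g2.j L y).order = 0 ∧ (g2.j L y).leadingCoeff = algebraMap k (KK k) κ * ρ0 := by
    have h3 : Lb 0 (g2.j L y) ∧ (g2.j L y).coeff 0 = algebraMap k (KK k) κ * ρ0 := by
      set w := y - algebraMap k L κ * kap L hu ρ0 with hw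
      have h4 : g2.j L y = HahnSeries.C (algebraMap k (KK k) κ * ρ0) + g2.j L w := by
        rw [← g2.j_kap (L := L) hu, ← map_add]
        congr 1
        rw [hw, map_mul, algebraMap_KK, ← phL_kap, phL_C]; ring
      have h5 : w = 0 ∨ 0 < (g2.j L w).order := by
        rw [nonunit_ovr] at hκ2
        rcases hκ2 with h6 | h6
        · left; exact congrArg Subtype.val h6
        · right; exact h6
      have h6 : Lb 0 (g2.j L w) ∧ (g2.j L w).coeff 0 = 0 := by
        rcases h5 with h6 | h6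
        · rw [h6, map_zero]; exact ⟨Lb.zero _, rfl⟩
        · exact ⟨(Lb_order _).mono h6.le, Lb_order _ 0 h6⟩
      rw [h4]
      refine ⟨(Lb_C _).add h6.1, ?_⟩
      rw [HahnSeries.coeff_add, h6.2, add_zero, HahnSeries.C_apply, HahnSeries.coeff_single, if_pos rfl]
    have h4 : algebraMap k (KK k) κ * ρ0 ≠ 0 := by
      apply mul_ne_zero _ hρ0ne
      rw [Ne, map_eq_zero_iff _ hkinj]; exact hκ
    rw [← h3.2] at h4
    exact ⟨order_eq_of h3.1 h4, by rw [leadingCoeff_eq_of h3.1 h4, h3.2]⟩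
  have e1 : (g1.j L (f : L)).leadingCoeff ^ s.den * (algebraMap k (KK k) (δ * g1.β)) ^ s.num = ρ0 := by
    rw [← (hvc g1).2.1, ← lc_pow, ← lc_zpow, ← HahnSeries.leadingCoeff_mul, ← map_pow, ← map_zpow₀, ← map_mul, ← hy, hρlc]
  have e2 : (g2.j L (f : L)).leadingCoeff ^ s.den * (algebraMap k (KK k) (δ * g2.β)) ^ s.num =
      algebraMap k (KK k) κ * ρ0 := by
    rw [← (hvc g2).2.1, ← lc_pow, ← lc_zpow, ← HahnSeries.leadingCoeff_mul, ← map_pow, ← map_zpow₀, ← map_mul, ← hy, h10.2]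
  set x1 := (g1.j L (f : L)).leadingCoeff with hx1
  set x2 := (g2.j L (f : L)).leadingCoeff with hx2
  have hx10 : x1 ≠ 0 := HahnSeries.leadingCoeff_ne_zero.2 (hj0 g1 _ hf')
  have hx20 : x2 ≠ 0 := HahnSeries.leadingCoeff_ne_zero.2 (hj0 g2 _ hf')
  have hκ' : algebraMap k (KK k) κ ≠ 0 := by rw [Ne, map_eq_zero_iff _ hkinj]; exact hκ
  have h11 : (x1 / x2) ^ s.den = algebraMap k (KK k) (κ⁻¹ * (δ * g2.β) ^ s.num / (δ * g1.β) ^ s.num) := by
    rw [div_pow, map_div₀, map_mul, map_inv₀, map_zpow₀, map_zpow₀, div_eq_div_iff (pow_ne_zero _ hx20)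
      (zpow_ne_zero _ (hvc g1).2.2), e1]
    rw [mul_assoc, mul_comm _ (x2 ^ s.den), e2]
    field_simp
  obtain ⟨γ, hγ⟩ := const_of_pow _ s.den s.pos _ h11
  refine ⟨γ, ?_, ?_⟩
  · rintro rfl
    rw [map_zero, div_eq_zero_iff] at hγ
    rcases hγ with h | h
    · exact hx10 h
    · exact hx20 h
  · rw [← hγ, div_mul_cancel₀ _ hx20]

/-- **Main theorem, normalised form** -/
theorem U_main (δ : k) (hδ : δ ≠ 0) (hJ : Jb u v = C δ) (hm : MonY u) (M : IntermediateField k L)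
    (hMu : algebraMap (MvPolynomial (Fin 2) k) L u ∈ M)
    (hMv : algebraMap (MvPolynomial (Fin 2) k) L v ∈ M) (f : M) (hf : f ≠ 0)
    (h1 : ∀ O : ValuationSubring M, O ≠ ⊤ → CU (algebraMap (MvPolynomial (Fin 2) k) L u) O → (⟨_, hMv⟩ : M) ∈ O →
      f ∈ O ∧ (f ∈ O.nonunits → Ramif (algebraMap (MvPolynomial (Fin 2) k) L u) (algebraMap (MvPolynomial (Fin 2) k) L v) O))
    (h2 : ∀ O₁ O₂ : ValuationSubring M, CU (algebraMap (MvPolynomial (Fin 2) k) L u) O₁ → (⟨_, hMv⟩ : M) ∉ O₁ →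
      CU (algebraMap (MvPolynomial (Fin 2) k) L u) O₂ → (⟨_, hMv⟩ : M) ∉ O₂ →
      ∀ (a : ℕ) (b : ℤ) (ρ : M), 0 < a → (ρ : L) ∈ IntermediateField.adjoin k {algebraMap (MvPolynomial (Fin 2) k) L u} →
        ρ ≠ 0 → f ^ a * (⟨_, hMv⟩ : M) ^ b - ρ ∈ O₁.nonunits →
        ∃ κ : k, κ ≠ 0 ∧ f ^ a * (⟨_, hMv⟩ : M) ^ b - algebraMap k M κ * ρ ∈ O₂.nonunits) :
    (f : L) ∈ IntermediateField.adjoin k {algebraMap (MvPolynomial (Fin 2) k) L u} ∧
    ((∀ O : ValuationSubring M, O ≠ ⊤ → CU (algebraMap (MvPolynomial (Fin 2) k) L u) O → (⟨_, hMv⟩ : M) ∈ O →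
      Ramif (algebraMap (MvPolynomial (Fin 2) k) L u) (algebraMap (MvPolynomial (Fin 2) k) L v) O → f ∈ O.nonunits) →
      M ≤ IntermediateField.adjoin k
        {algebraMap (MvPolynomial (Fin 2) k) L u, algebraMap (MvPolynomial (Fin 2) k) L v}) := by
  classical
  -- a good place
  have hu_ne : ∀ a : k, u ≠ C a := by
    rintro a rfl
    have := hm.1
    rw [toY_C] at this
    simp at this
  have hnu : ¬ IsUnit (u - C 0) := by
    intro h
    obtain ⟨a, _, ha⟩ := (MvPolynomial.isUnit_iff_eq_C_of_isReduced).1 h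
    exact hu_ne a (by rw [← ha]; simp)
  have hu0 : u - C 0 ≠ 0 := by
    intro h
    exact hu_ne 0 (sub_eq_zero.1 h)
  obtain ⟨π, hπ', hdiv⟩ := WfDvdMonoid.exists_irreducible_factor hnu hu0
  have hπ := UniqueFactorizationMonoid.irreducible_iff_prime.1 hπ'
  have hJ1 : Jb u (C δ⁻¹ * v) = 1 := by
    rw [Jb_mul, hJ, Jb_C_right, mul_zero, add_zero, ← C_mul, inv_mul_cancel₀ hδ, C_1]
  obtain ⟨g0, -⟩ := exists_GP_at u (C δ⁻¹ * v) π hπ 0 hdiv hJ1 hm
  have hu := g0.uP_inj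
  have hf' : (f : L) ≠ 0 := fun h => hf (Subtype.ext h)
  have hMuv : ∀ x ∈ IntermediateField.adjoin k
      {algebraMap (MvPolynomial (Fin 2) k) L u, algebraMap (MvPolynomial (Fin 2) k) L v}, x ∈ M := by
    intro x hx
    have h3 : IntermediateField.adjoin k
      {algebraMap (MvPolynomial (Fin 2) k) L u, algebraMap (MvPolynomial (Fin 2) k) L v} ≤ M := by
      rw [IntermediateField.adjoin_le_iff]
      rintro z (rfl | hz)
      · exact hMu
      · rw [Set.mem_singleton_iff] at hz; rw [hz]; exact hMv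
    exact h3 hx
  have hun : ∀ (π : MvPolynomial (Fin 2) k) (hπ : Prime π), (∀ c : k, ¬ π ∣ u - C c) → (VP L hπ).o (f : L) = 0 :=
    fun π hπ hhor => T1_unit δ hδ hJ hu M hMv hMuv f hf h1 hπ hhor
  have hA : AKm u (f : L) := akm_of_horizontal _ fun π hπ hhor => Or.inr (hun π hπ hhor).ge
  have hA' : AKm u (f : L)⁻¹ := akm_of_horizontal _ fun π hπ hhor => Or.inr (by
    rw [OV.inv _ _ hf', hun π hπ hhor, neg_zero])
  obtain ⟨x, hx0, hx⟩ := const_of_ratio g0 (C δ⁻¹ * v) hJ1 hm (f : L) (f : L)⁻¹ hA hA' (mul_inv_cancel₀ hf')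
    (T1_ratio δ hδ hJ hu M hMu hMv f hf h2)
  refine ⟨by rw [hx]; exact kap_mem hu _ (IntermediateField.subset_adjoin _ _ (Set.mem_singleton _)) _, ?_⟩
  intro hall θ hθ
  apply T2_special g0 δ hδ hJ M hMu hMv _ θ hθ
  intro O ho hc hv hR
  have h3 := hall O ho hc hv hR
  rw [ValuationSubring.mem_nonunits_iff_or, or_iff_right hf] at h3
  apply h3
  apply hc
  change (f : L)⁻¹ ∈ _
  rw [hx, ← map_inv₀]
  exact kap_mem hu _ (IntermediateField.subset_adjoin _ _ (Set.mem_singleton _)) _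

end core

end Pool.Agent.Y235.JC
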