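import Mathlib
import Pool.Agent.Y235.JC.U5

set_option autoImplicit false
set_option linter.unusedSectionVars false
set_option linter.style.haveILetI false

open MvPolynomial

namespace Pool.Agent.Y235.JC

open Pool.Agent.H922R2 (IsDer GA jac SS fF DJ DJ_apply mem_SS_of_mem_fF inverse_of_top)
open Pool.Agent.H922R2.R

section transport

variable {k L : Type*} [Field k] [Field L] [Algebra k L]

theorem nonunit_comap {M M' : Type*} [Field M] [Field M'] (e : M →+* M') (O : ValuationSubring M') (x : M) :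
    x ∈ (O.comap e).nonunits ↔ e x ∈ O.nonunits := by
  rw [ValuationSubring.mem_nonunits_iff_or, ValuationSubring.mem_nonunits_iff_or, ValuationSubring.mem_comap,
    map_inv₀, map_eq_zero_iff e e.injective]

end transport

section closed

variable {k : Type*} [Field k] [CharZero k] [IsAlgClosed k]
variable {L : Type*} [Field L] [Algebra (MvPolynomial (Fin 2) k) L]
    [IsFractionRing (MvPolynomial (Fin 2) k) L] [Algebra k L] [IsScalarTower k (MvPolynomial (Fin 2) k) L]

/-- **Main theorem** -/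
theorem U_closed (F : Fin 2 → MvPolynomial (Fin 2) k) (hJ : IsUnit (Matrix.det (jac F)))
    (M : IntermediateField k L) (hM : ∀ j, algebraMap (MvPolynomial (Fin 2) k) L (F j) ∈ M) (f : M) (hf : f ≠ 0)
    (h1 : ∀ O : ValuationSubring M, O ≠ ⊤ → CU (algebraMap (MvPolynomial (Fin 2) k) L (F 0)) O →
      (⟨_, hM 1⟩ : M) ∈ O →
      f ∈ O ∧ (f ∈ O.nonunits →
        Ramif (algebraMap (MvPolynomial (Fin 2) k) L (F 0)) (algebraMap (MvPolynomial (Fin 2) k) L (F 1)) O))
    (h2 : ∀ O₁ O₂ : ValuationSubring M, CU (algebraMap (MvPolynomial (Fin 2) k) L (F 0)) O₁ → (⟨_, hM 1⟩ : M) ∉ O₁ →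
      CU (algebraMap (MvPolynomial (Fin 2) k) L (F 0)) O₂ → (⟨_, hM 1⟩ : M) ∉ O₂ →
      ∀ (a : ℕ) (b : ℤ) (ρ : M), 0 < a →
        (ρ : L) ∈ IntermediateField.adjoin k {algebraMap (MvPolynomial (Fin 2) k) L (F 0)} →
        ρ ≠ 0 → f ^ a * (⟨_, hM 1⟩ : M) ^ b - ρ ∈ O₁.nonunits →
        ∃ κ : k, κ ≠ 0 ∧ f ^ a * (⟨_, hM 1⟩ : M) ^ b - algebraMap k M κ * ρ ∈ O₂.nonunits) :
    (f : L) ∈ IntermediateField.adjoin k {algebraMap (MvPolynomial (Fin 2) k) L (F 0)} ∧
    ((∀ O : ValuationSubring M, O ≠ ⊤ → CU (algebraMap (MvPolynomial (Fin 2) k) L (F 0)) O →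
      (⟨_, hM 1⟩ : M) ∈ O →
      Ramif (algebraMap (MvPolynomial (Fin 2) k) L (F 0)) (algebraMap (MvPolynomial (Fin 2) k) L (F 1)) O →
      f ∈ O.nonunits) →
    M ≤ IntermediateField.adjoin k
      {algebraMap (MvPolynomial (Fin 2) k) L (F 0), algebraMap (MvPolynomial (Fin 2) k) L (F 1)}) := by
  have hF0 : ∀ a : k, F 0 ≠ C a := by
    intro a ha
    rw [Pool.Agent.H922R2.det_jac, DJ_apply, ha] at hJ
    simp at hJ
  obtain ⟨θ, hθ⟩ := exists_monY (F 0) hF0
  have hJ' := Pool.Agent.H922R2.jac_comp θ F hJ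
  obtain ⟨δ, hδ, hδe⟩ := MvPolynomial.isUnit_iff_eq_C_of_isReduced.1 (by rw [Pool.Agent.H922R2.det_jac] at hJ'; exact hJ')
  have hδ0 : δ ≠ 0 := hδ.ne_zero
  have hJb : Jb (θ (F 0)) (θ (F 1)) = C δ := by
    rw [← hδe, DJ_apply]; rfl
  obtain ⟨φ, hφ, hφm, -⟩ := Pool.Agent.H922R2.EL.transport_gen (L₁ := L) (L₂ := L)
    ((θ : MvPolynomial (Fin 2) k ≃ₐ[k] _) : MvPolynomial (Fin 2) k →+* _) θ.injective
    (fun a => ⟨a, θ.commutes a⟩) (fun i => ⟨θ.symm (X i), θ.apply_symm_apply _⟩)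
  obtain ⟨ψ, hψ, hψm, -⟩ := Pool.Agent.H922R2.EL.transport_gen (L₁ := L) (L₂ := L)
    ((θ.symm : MvPolynomial (Fin 2) k ≃ₐ[k] _) : MvPolynomial (Fin 2) k →+* _) θ.symm.injective
    (fun a => ⟨a, θ.symm.commutes a⟩) (fun i => ⟨θ (X i), θ.symm_apply_apply _⟩)
  have hφ' : ∀ p, φ (algebraMap (MvPolynomial (Fin 2) k) L p) = algebraMap (MvPolynomial (Fin 2) k) L (θ p) := hφ
  have hψ' : ∀ p, ψ (algebraMap (MvPolynomial (Fin 2) k) L p) = algebraMap (MvPolynomial (Fin 2) k) L (θ.symm p) := hψ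
  have hid : ∀ z : L, ψ (φ z) = z := by
    intro z
    obtain ⟨a, b, _, rfl⟩ := IsFractionRing.div_surjective (A := MvPolynomial (Fin 2) k) z
    rw [map_div₀, map_div₀, hφ', hφ', hψ', hψ', θ.symm_apply_apply, θ.symm_apply_apply]
  have hφk : ∀ c : k, φ (algebraMap k L c) = algebraMap k L c := by
    intro c
    rw [IsScalarTower.algebraMap_apply k (MvPolynomial (Fin 2) k) L, hφ', AlgEquiv.commutes]
  -- transport of adjunctions
  have hadj1 : ∀ z : L, z ∈ IntermediateField.adjoin k {algebraMap (MvPolynomial (Fin 2) k) L (F 0)} →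
      φ z ∈ IntermediateField.adjoin k {algebraMap (MvPolynomial (Fin 2) k) L (θ (F 0))} := by
    intro z hz
    have h3 := hφm _ _ hz
    rwa [Set.image_singleton, hφ'] at h3
  have hadj1' : ∀ z : L, φ z ∈ IntermediateField.adjoin k {algebraMap (MvPolynomial (Fin 2) k) L (θ (F 0))} →
      z ∈ IntermediateField.adjoin k {algebraMap (MvPolynomial (Fin 2) k) L (F 0)} := by
    intro z hz
    have h3 := hψm _ _ hz
    rwa [Set.image_singleton, hψ', hid, θ.symm_apply_apply] at h3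
  have hadj2 : ∀ z : L, z ∈ IntermediateField.adjoin k {algebraMap (MvPolynomial (Fin 2) k) L (F 0),
      algebraMap (MvPolynomial (Fin 2) k) L (F 1)} →
      φ z ∈ IntermediateField.adjoin k {algebraMap (MvPolynomial (Fin 2) k) L (θ (F 0)),
        algebraMap (MvPolynomial (Fin 2) k) L (θ (F 1))} := by
    intro z hz
    have h3 := hφm _ _ hz
    rwa [Set.image_pair, hφ', hφ'] at h3
  have hadj2' : ∀ z : L, φ z ∈ IntermediateField.adjoin k {algebraMap (MvPolynomial (Fin 2) k) L (θ (F 0)),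
        algebraMap (MvPolynomial (Fin 2) k) L (θ (F 1))} →
      z ∈ IntermediateField.adjoin k {algebraMap (MvPolynomial (Fin 2) k) L (F 0),
      algebraMap (MvPolynomial (Fin 2) k) L (F 1)} := by
    intro z hz
    have h3 := hψm _ _ hz
    rwa [Set.image_pair, hψ', hψ', hid, θ.symm_apply_apply, θ.symm_apply_apply] at h3
  -- the transported field
  let φA : L →ₐ[k] L := { φ with commutes' := hφk }
  have hφA : ∀ z, φA z = φ z := fun _ => rfl
  set M' : IntermediateField k L := M.map φA with hM'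
  have hmem' : ∀ z : M, φ (z : L) ∈ M' := fun z => ⟨z, z.2, rfl⟩
  let e : M →+* M' :=
    { toFun := fun z => ⟨φ z, hmem' z⟩
      map_one' := Subtype.ext (map_one φ)
      map_mul' := fun a b => Subtype.ext (map_mul φ (a : L) (b : L))
      map_zero' := Subtype.ext (map_zero φ)
      map_add' := fun a b => Subtype.ext (map_add φ (a : L) (b : L)) }
  have hecoe : ∀ z : M, ((e z : M') : L) = φ z := fun _ => rfl
  have hesurj : Function.Surjective e := by
    rintro ⟨z, y, hy, rfl⟩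
    exact ⟨⟨y, hy⟩, rfl⟩
  have hMu' : algebraMap (MvPolynomial (Fin 2) k) L (θ (F 0)) ∈ M' := by
    rw [← hφ']; exact hmem' ⟨_, hM 0⟩
  have hMv' : algebraMap (MvPolynomial (Fin 2) k) L (θ (F 1)) ∈ M' := by
    rw [← hφ']; exact hmem' ⟨_, hM 1⟩
  have hev : e (⟨_, hM 1⟩ : M) = (⟨_, hMv'⟩ : M') := Subtype.ext (hφ' _)
  have hek : ∀ κ : k, e (algebraMap k M κ) = algebraMap k M' κ := fun κ => Subtype.ext (hφk κ)
  have hCU : ∀ O' : ValuationSubring M', CU (algebraMap (MvPolynomial (Fin 2) k) L (θ (F 0))) O' →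
      CU (algebraMap (MvPolynomial (Fin 2) k) L (F 0)) (O'.comap e) := by
    intro O' h z hz
    rw [ValuationSubring.mem_comap]
    exact h _ (hadj1 _ hz)
  have hR : ∀ O' : ValuationSubring M',
      Ramif (algebraMap (MvPolynomial (Fin 2) k) L (F 0)) (algebraMap (MvPolynomial (Fin 2) k) L (F 1)) (O'.comap e) ↔
      Ramif (algebraMap (MvPolynomial (Fin 2) k) L (θ (F 0))) (algebraMap (MvPolynomial (Fin 2) k) L (θ (F 1))) O' := by
    intro O'
    constructor
    · intro h x' hx' hx'n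
      obtain ⟨x, rfl⟩ := hesurj x'
      obtain ⟨y, hy, z, hz, rfl⟩ := h x (hadj2' _ hx') (by rw [nonunit_comap]; exact hx'n)
      exact ⟨e y, by rw [← nonunit_comap]; exact hy, e z, by rw [← nonunit_comap]; exact hz, map_mul e y z⟩
    · intro h x hx hxn
      obtain ⟨y', hy, z', hz, h3⟩ := h (e x) (hadj2 _ hx) (by rw [← nonunit_comap]; exact hxn)
      obtain ⟨y, rfl⟩ := hesurj y'
      obtain ⟨z, rfl⟩ := hesurj z'
      refine ⟨y, by rw [nonunit_comap]; exact hy, z, by rw [nonunit_comap]; exact hz, ?_⟩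
      apply e.injective
      rw [h3, map_mul]
  have hf' : e f ≠ 0 := by rw [Ne, map_eq_zero_iff e e.injective]; exact hf
  have hcomap_top : ∀ O' : ValuationSubring M', O' ≠ ⊤ → O'.comap e ≠ ⊤ := by
    intro O' hO' htop
    apply hO'
    rw [eq_top_iff]
    intro x' _
    obtain ⟨x, rfl⟩ := hesurj x'
    rw [← ValuationSubring.mem_comap, htop]
    trivial
  have hmain := U_main (L := L) δ hδ0 hJb hθ M' hMu' hMv' (e f) hf' (by
    intro O' hO' hc hv
    have h3 := h1 (O'.comap e) (hcomap_top O' hO') (hCU O' hc) (by rw [ValuationSubring.mem_comap, hev]; exact hv)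
    rw [ValuationSubring.mem_comap, nonunit_comap, hR] at h3
    exact h3) (by
    intro O₁ O₂ hc1 hv1 hc2 hv2 a b ρ' ha hρ hρ0 hn
    obtain ⟨ρ, rfl⟩ := hesurj ρ'
    obtain ⟨κ, hκ, hκ2⟩ := h2 (O₁.comap e) (O₂.comap e) (hCU O₁ hc1)
      (by rw [ValuationSubring.mem_comap, hev]; exact hv1) (hCU O₂ hc2)
      (by rw [ValuationSubring.mem_comap, hev]; exact hv2) a b ρ ha (hadj1' _ hρ)
      (by rintro rfl; exact hρ0 (map_zero e)) (by
        rw [nonunit_comap, map_sub, map_mul, map_pow, map_zpow₀, hev]; exact hn)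
    refine ⟨κ, hκ, ?_⟩
    rw [nonunit_comap, map_sub, map_mul, map_pow, map_zpow₀, hev, map_mul, hek] at hκ2
    exact hκ2)
  refine ⟨hadj1' _ hmain.1, fun hall z hz => ?_⟩
  apply hadj2'
  refine hmain.2 ?_ (hmem' ⟨z, hz⟩)
  intro O' hO' hc hv hRam
  rw [← nonunit_comap]
  exact hall (O'.comap e) (hcomap_top O' hO') (hCU O' hc) (by rw [ValuationSubring.mem_comap, hev]; exact hv)
    ((hR O').2 hRam)

/-- the full statement -/
theorem U_field (F : Fin 2 → MvPolynomial (Fin 2) k) (hJ : IsUnit (Matrix.det (jac F)))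
    (M : IntermediateField k (FractionRing (MvPolynomial (Fin 2) k)))
    (hM : ∀ j, algebraMap (MvPolynomial (Fin 2) k) (FractionRing (MvPolynomial (Fin 2) k)) (F j) ∈ M)
    (hle : M ≤ IntermediateField.adjoin k
      {algebraMap (MvPolynomial (Fin 2) k) (FractionRing (MvPolynomial (Fin 2) k)) (F 0),
        algebraMap (MvPolynomial (Fin 2) k) (FractionRing (MvPolynomial (Fin 2) k)) (F 1)}) :
    M = IntermediateField.adjoin k (Set.range fun j =>
        algebraMap (MvPolynomial (Fin 2) k) (FractionRing (MvPolynomial (Fin 2) k)) (F j)) ∧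
      (M = ⊤ → ∃ G : Fin 2 → MvPolynomial (Fin 2) k,
        (∀ j, aeval F (G j) = X j) ∧ (∀ j, aeval G (F j) = X j)) := by
  have h3 : M = IntermediateField.adjoin k (Set.range fun j =>
      algebraMap (MvPolynomial (Fin 2) k) (FractionRing (MvPolynomial (Fin 2) k)) (F j)) := by
    apply le_antisymm
    · rw [range_two]; exact hle
    · rw [IntermediateField.adjoin_le_iff]
      rintro z ⟨j, rfl⟩
      exact hM j
  refine ⟨h3, fun htop => ?_⟩
  apply inverse_of_top F hJ
  rw [eq_top_iff]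
  intro r _
  apply mem_SS_of_mem_fF (FractionRing (MvPolynomial (Fin 2) k)) F hJ r
  rw [fF, ← h3, htop]
  trivial

end closed

end Pool.Agent.Y235.JC
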